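import Pool.Agent.H41.MK.Claims

/-! Branch and bound data, generated. -/

set_option maxRecDepth 100000

namespace H41MK

open H41FT Tr

theorem MA_0 : Hd QMA 79228162514264344630418368102 7036874417767 79228162514264351667292785869
    14073748835533 79228162514264478331032305664 140737488355328 :=
  okMA (s2 (s2 lf lf) lf)
    ⟨79228162514264344630418368102, 7036874417767, 79228162514264351667292785869,
    14073748835533, 79228162514264478331032305664, 140737488355328⟩ (by decide +kernel)

theorem MB_0 : Hd QMB 79228162514264344630418368102 7036874417767 79228162514264612031646243226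
    7036874417767 79228162514264407962288128000 70368744177664 :=
  okMB (s2 (s2 (s0 lf lf) (s0 lf lf)) (s0 (s1 (s2 lf lf) lf) lf))
    ⟨79228162514264344630418368102, 7036874417767, 79228162514264612031646243226, 7036874417767,
    79228162514264407962288128000, 70368744177664⟩ (by decide +kernel)

theorem MB_1 : Hd QMB 79228162514264344630418368102 7036874417767 79228162514264612031646243226
    7036874417767 79228162514264548699776483328 70368744177664 :=
  okMB (s2 (s0 (s1 (s0 lf lf) lf) lf) (s0 lf lf))
    ⟨79228162514264344630418368102, 7036874417767, 79228162514264612031646243226, 7036874417767,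
    79228162514264548699776483328, 70368744177664⟩ (by decide +kernel)

theorem MC_0 : Hd QMC 79228162514264344630418368102 7036874417767 79228162514264425554474172415
    59813432551015 79228162514264407962288128000 70368744177664 :=
  okMC (s2 (s1 (s1 (s2 lf lf) (s2 lf lf)) (s1 (s2 lf lf) (s2 lf lf))) (s1 (s1 lf lf) (s1 lf (s2
    lf lf))))
    ⟨79228162514264344630418368102, 7036874417767, 79228162514264425554474172415,
    59813432551015, 79228162514264407962288128000, 70368744177664⟩ (by decide +kernel)

theorem MC_1 : Hd QMC 79228162514264344630418368102 7036874417767 79228162514264515274622998937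
    29906716275508 79228162514264372777916039168 35184372088832 :=
  okMC (s1 (s2 (s1 lf (s1 lf lf)) (s1 lf lf)) (s2 (s1 (s0 (s1 lf lf) lf) (s0 (s2 (s0 lf lf) lf)
    (s2 lf lf))) (s1 (s0 lf lf) (s0 (s0 (s1 lf (s2 lf lf)) lf) lf))))
    ⟨79228162514264344630418368102, 7036874417767, 79228162514264515274622998937,
    29906716275508, 79228162514264372777916039168, 35184372088832⟩ (by decide +kernel)

theorem MC_2 : Hd QMC 79228162514264344630418368102 7036874417767 79228162514264560134697412199
    14953358137754 79228162514264355185729994752 17592186044416 :=
  okMC (s0 (s2 (s0 (s1 (s0 (s1 lf lf) lf) (s0 (s0 (s1 lf lf) lf) lf)) (s1 lf lf)) (s0 (s1 (s0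
    (s1 lf lf) lf) (s0 (s0 (s1 lf lf) lf) lf)) (s1 lf lf))) (s2 (s1 lf lf) lf))
    ⟨79228162514264344630418368102, 7036874417767, 79228162514264560134697412199,
    14953358137754, 79228162514264355185729994752, 17592186044416⟩ (by decide +kernel)

theorem MC_3 : Hd QMC 79228162514264344630418368102 7036874417767 79228162514264590041413687707
    14953358137754 79228162514264355185729994752 17592186044416 :=
  okMC (s1 (s0 (s2 (s0 (s0 lf lf) lf) (s0 lf lf)) (s2 lf lf)) (s0 (s2 (s0 lf lf) (s0 lf lf)) (s2
    lf lf)))
    ⟨79228162514264344630418368102, 7036874417767, 79228162514264590041413687707,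
    14953358137754, 79228162514264355185729994752, 17592186044416⟩ (by decide +kernel)

end H41MK
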