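import Pool.Agent.H41.MK.Claims

/-! Branch and bound data, generated. -/

set_option maxRecDepth 100000

namespace H41MK

open H41FT Tr

theorem MC_4 : Hd QMC 79228162514264344630418368102 7036874417767 79228162514264575088055549953
    29906716275508 79228162514264390370102083584 17592186044416 :=
  okMC (s1 (s0 (s2 (s0 (s1 (s0 (s1 lf lf) lf) (s0 (s0 lf lf) lf)) (s1 lf lf)) (s0 (s1 (s0 lf lf)
    (s0 (s0 lf lf) lf)) lf)) (s2 lf lf)) (s1 (s0 (s0 (s2 lf lf) lf) lf) (s0 (s2 lf lf) (s1 lf
    lf))))
    ⟨79228162514264344630418368102, 7036874417767, 79228162514264575088055549953,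
    29906716275508, 79228162514264390370102083584, 17592186044416⟩ (by decide +kernel)

theorem MC_5 : Hd QMC 79228162514264344630418368102 7036874417767 79228162514264515274622998937
    29906716275508 79228162514264443146660216832 35184372088832 :=
  okMC (s1 (s2 (s1 lf lf) lf) (s2 (s1 (s0 lf lf) (s0 (s0 (s1 lf lf) lf) lf)) (s1 (s0 lf lf) (s0
    (s0 lf lf) lf))))
    ⟨79228162514264344630418368102, 7036874417767, 79228162514264515274622998937,
    29906716275508, 79228162514264443146660216832, 35184372088832⟩ (by decide +kernel)

theorem MC_6 : Hd QMC 79228162514264344630418368102 7036874417767 79228162514264575088055549953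
    29906716275508 79228162514264425554474172416 17592186044416 :=
  okMC (s1 (s0 (s0 (s2 (s1 (s0 lf lf) (s0 lf lf)) (s1 (s0 lf lf) (s0 lf lf))) (s1 lf lf)) (s1 lf
    lf)) (s0 (s1 (s0 (s2 lf lf) lf) (s0 (s2 lf lf) lf)) (s1 lf (s1 lf lf))))
    ⟨79228162514264344630418368102, 7036874417767, 79228162514264575088055549953,
    29906716275508, 79228162514264425554474172416, 17592186044416⟩ (by decide +kernel)

theorem MC_7 : Hd QMC 79228162514264344630418368102 7036874417767 79228162514264575088055549953
    29906716275508 79228162514264460738846261248 17592186044416 :=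
  okMC (s1 (s0 (s0 (s1 (s0 (s2 lf lf) lf) (s0 (s2 lf lf) lf)) (s1 lf lf)) (s1 lf lf)) (s0 (s1
    (s0 (s0 (s2 lf lf) lf) lf) (s0 lf lf)) (s1 lf lf)))
    ⟨79228162514264344630418368102, 7036874417767, 79228162514264575088055549953,
    29906716275508, 79228162514264460738846261248, 17592186044416⟩ (by decide +kernel)

theorem MC_8 : Hd QMC 79228162514264344630418368102 7036874417767 79228162514264425554474172415
    59813432551015 79228162514264548699776483328 70368744177664 :=
  okMC (s1 (s2 lf lf) (s2 (s1 lf lf) (s1 lf lf)))
    ⟨79228162514264344630418368102, 7036874417767, 79228162514264425554474172415,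
    59813432551015, 79228162514264548699776483328, 70368744177664⟩ (by decide +kernel)

theorem MC_9 : Hd QMC 79228162514264344630418368102 7036874417767 79228162514264515274622998937
    29906716275508 79228162514264513515404394496 35184372088832 :=
  okMC (s1 (s1 lf (s2 lf lf)) (s2 (s1 lf (s0 (s0 lf lf) lf)) (s1 lf (s0 (s0 lf lf) lf))))
    ⟨79228162514264344630418368102, 7036874417767, 79228162514264515274622998937,
    29906716275508, 79228162514264513515404394496, 35184372088832⟩ (by decide +kernel)

theorem MC_10 : Hd QMC 79228162514264344630418368102 7036874417767 79228162514264575088055549953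
    29906716275508 79228162514264495923218350080 17592186044416 :=
  okMC (s1 (s0 (s0 (s1 (s0 (s2 lf lf) lf) (s0 (s2 lf lf) lf)) (s1 lf lf)) (s0 lf lf)) (s0 (s1
    (s0 (s0 (s1 lf lf) lf) lf) (s0 lf lf)) (s1 lf lf)))
    ⟨79228162514264344630418368102, 7036874417767, 79228162514264575088055549953,
    29906716275508, 79228162514264495923218350080, 17592186044416⟩ (by decide +kernel)

theorem MC_11 : Hd QMC 79228162514264344630418368102 7036874417767 79228162514264575088055549953
    29906716275508 79228162514264531107590438912 17592186044416 :=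
  okMC (s1 (s0 (s0 (s1 (s0 (s1 lf (s0 lf lf)) lf) (s0 (s0 (s2 lf lf) lf) lf)) (s1 lf lf)) lf)
    (s0 (s1 (s0 (s0 lf lf) lf) (s0 lf lf)) (s1 lf lf)))
    ⟨79228162514264344630418368102, 7036874417767, 79228162514264575088055549953,
    29906716275508, 79228162514264531107590438912, 17592186044416⟩ (by decide +kernel)

end H41MK
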