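import Pool.Agent.H41.MK.Claims

/-! Branch and bound data, generated. -/

set_option maxRecDepth 100000

namespace H41MK

open H41FT Tr

theorem MC_12 : Hd QMC 79228162514264344630418368102 7036874417767 79228162514264515274622998937
    29906716275508 79228162514264583884148572160 35184372088832 :=
  okMC (s1 (s1 lf lf) (s2 (s1 lf (s0 lf lf)) (s1 lf (s0 lf lf))))
    ⟨79228162514264344630418368102, 7036874417767, 79228162514264515274622998937,
    29906716275508, 79228162514264583884148572160, 35184372088832⟩ (by decide +kernel)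

theorem MC_13 : Hd QMC 79228162514264344630418368102 7036874417767 79228162514264575088055549953
    29906716275508 79228162514264583884148572160 35184372088832 :=
  okMC (s2 (s1 (s0 (s0 (s1 (s0 (s1 lf lf) lf) (s0 (s0 (s2 lf lf) lf) lf)) (s1 lf lf)) lf) (s0
    (s0 (s1 (s0 lf lf) lf) (s1 lf lf)) (s1 lf lf))) (s1 (s0 (s0 (s0 (s1 (s0 (s1 lf lf) lf) (s0
    (s2 lf lf) lf)) (s1 lf lf)) lf) lf) (s0 (s0 (s1 lf lf) (s1 lf lf)) (s1 lf lf))))
    ⟨79228162514264344630418368102, 7036874417767, 79228162514264575088055549953,
    29906716275508, 79228162514264583884148572160, 35184372088832⟩ (by decide +kernel)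

theorem MD_0 : Hd QMD 79228162514264438924535566172 87257242780304 79228162514264351667292785869
    14073748835533 79228162514264407962288128000 70368744177664 :=
  okMD (s0 (s2 (s0 (s0 (s0 lf lf) lf) (s2 (s1 lf lf) lf)) (s0 (s0 (s0 lf lf) lf) (s1 lf lf)))
    (s2 (s0 (s2 (s1 lf lf) lf) (s2 (s1 lf lf) (s1 lf lf))) (s0 (s2 lf lf) (s2 (s1 lf lf) lf))))
    ⟨79228162514264438924535566172, 87257242780304, 79228162514264351667292785869,
    14073748835533, 79228162514264407962288128000, 70368744177664⟩ (by decide +kernel)

theorem MD_1 : Hd QMD 79228162514264438924535566172 87257242780304 79228162514264351667292785869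
    14073748835533 79228162514264548699776483328 70368744177664 :=
  okMD (s0 (s2 (s0 (s0 (s0 lf lf) lf) (s1 lf lf)) (s0 (s0 lf lf) lf)) (s2 (s0 (s1 lf lf) (s2 lf
    lf)) (s0 lf (s2 lf lf))))
    ⟨79228162514264438924535566172, 87257242780304, 79228162514264351667292785869,
    14073748835533, 79228162514264548699776483328, 70368744177664⟩ (by decide +kernel)

theorem ME_0 : Hd QME 79228162514264373481603480944 21814310695076 79228162514264604994771825459
    14073748835533 79228162514264372777916039168 35184372088832 :=
  okME (s2 (s0 (s1 (s0 (s0 (s1 (s2 lf lf) lf) (s1 lf lf)) (s1 (s0 lf lf) lf)) (s0 (s0 lf lf)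
    lf)) (s1 (s0 (s1 lf lf) lf) (s0 lf lf))) (s0 (s1 (s0 (s0 (s1 (s0 lf lf) lf) (s1 lf lf)) (s1
    lf lf)) (s0 (s0 lf lf) lf)) (s1 (s0 lf lf) lf)))
    ⟨79228162514264373481603480944, 21814310695076, 79228162514264604994771825459,
    14073748835533, 79228162514264372777916039168, 35184372088832⟩ (by decide +kernel)

theorem ME_1 : Hd QME 79228162514264417110224871096 21814310695076 79228162514264604994771825459
    14073748835533 79228162514264372777916039168 35184372088832 :=
  okME (s2 (s0 (s1 (s0 lf lf) lf) (s1 (s2 lf lf) lf)) (s0 (s1 (s0 lf lf) lf) (s1 (s0 lf lf)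
    lf)))
    ⟨79228162514264417110224871096, 21814310695076, 79228162514264604994771825459,
    14073748835533, 79228162514264372777916039168, 35184372088832⟩ (by decide +kernel)

end H41MK
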