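import Pool.Agent.H41.MK.Claims

/-! Branch and bound data, generated. -/

set_option maxRecDepth 100000

namespace H41MK

open H41FT Tr

theorem ME_2 : Hd QME 79228162514264395295914176020 43628621390152 79228162514264604994771825459
    14073748835533 79228162514264443146660216832 35184372088832 :=
  okME (s0 (s0 (s2 (s1 (s0 (s0 (s1 (s0 lf lf) lf) lf) (s1 lf lf)) (s0 (s0 lf lf) lf)) (s1 (s0
    (s0 (s1 (s0 lf lf) lf) lf) (s1 lf lf)) (s0 (s0 lf lf) lf))) (s2 (s1 (s0 lf lf) lf) (s1 (s0
    lf lf) lf))) (s2 (s0 (s1 lf lf) (s1 lf lf)) (s0 (s1 lf lf) (s1 lf lf))))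
    ⟨79228162514264395295914176020, 43628621390152, 79228162514264604994771825459,
    14073748835533, 79228162514264443146660216832, 35184372088832⟩ (by decide +kernel)

theorem ME_3 : Hd QME 79228162514264460738846261248 21814310695076 79228162514264604994771825459
    14073748835533 79228162514264372777916039168 35184372088832 :=
  okME (s2 (s0 (s1 (s2 (s1 lf lf) lf) lf) (s1 (s2 (s1 lf lf) (s1 lf lf)) (s2 lf lf))) (s0 (s1
    (s2 lf lf) lf) (s1 (s2 lf lf) lf)))
    ⟨79228162514264460738846261248, 21814310695076, 79228162514264604994771825459,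
    14073748835533, 79228162514264372777916039168, 35184372088832⟩ (by decide +kernel)

theorem ME_4 : Hd QME 79228162514264504367467651400 21814310695076 79228162514264604994771825459
    14073748835533 79228162514264372777916039168 35184372088832 :=
  okME (s2 (s0 (s2 (s1 (s0 lf lf) (s1 lf lf)) (s1 (s0 lf lf) lf)) (s2 (s1 (s0 (s1 lf lf) (s2 lf
    lf)) (s0 lf lf)) (s1 (s0 lf (s2 lf lf)) (s0 lf lf)))) (s0 (s1 (s2 (s0 lf lf) lf) (s2 lf lf))
    (s2 (s1 (s0 lf lf) (s0 lf lf)) (s1 (s0 lf lf) lf))))
    ⟨79228162514264504367467651400, 21814310695076, 79228162514264604994771825459,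
    14073748835533, 79228162514264372777916039168, 35184372088832⟩ (by decide +kernel)

theorem ME_5 : Hd QME 79228162514264482553156956324 43628621390152 79228162514264604994771825459
    14073748835533 79228162514264443146660216832 35184372088832 :=
  okME (s0 (s2 (s0 (s1 lf lf) (s1 lf lf)) (s0 (s1 lf lf) (s1 lf lf))) (s2 (s0 (s1 (s2 lf lf) lf)
    (s1 (s2 (s0 lf lf) lf) (s2 lf lf))) (s0 (s1 lf lf) (s1 (s2 lf lf) lf))))
    ⟨79228162514264482553156956324, 43628621390152, 79228162514264604994771825459,
    14073748835533, 79228162514264443146660216832, 35184372088832⟩ (by decide +kernel)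

theorem ME_6 : Hd QME 79228162514264395295914176020 43628621390152 79228162514264604994771825459
    14073748835533 79228162514264513515404394496 35184372088832 :=
  okME (s0 (s0 (s1 (s2 (s0 (s0 (s1 lf lf) lf) lf) (s0 (s0 (s1 lf lf) lf) lf)) (s0 (s0 (s1 lf lf)
    lf) lf)) (s1 (s2 (s0 lf lf) (s0 lf lf)) (s0 lf lf))) (s0 (s1 (s2 lf lf) lf) (s1 (s2 lf lf)
    lf)))
    ⟨79228162514264395295914176020, 43628621390152, 79228162514264604994771825459,
    14073748835533, 79228162514264513515404394496, 35184372088832⟩ (by decide +kernel)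

end H41MK
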