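import Pool.Agent.H41.MK.Claims

/-! Branch and bound data, generated. -/

set_option maxRecDepth 100000

namespace H41MK

open H41FT Tr

theorem ME_7 : Hd QME 79228162514264395295914176020 43628621390152 79228162514264604994771825459
    14073748835533 79228162514264583884148572160 35184372088832 :=
  okME (s0 (s0 (s0 (s1 (s2 (s0 (s1 lf lf) lf) (s0 (s1 lf lf) lf)) (s0 lf lf)) (s1 (s0 lf lf)
    lf)) (s1 (s0 lf lf) lf)) (s0 (s1 (s0 lf lf) lf) (s1 lf lf)))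
    ⟨79228162514264395295914176020, 43628621390152, 79228162514264604994771825459,
    14073748835533, 79228162514264583884148572160, 35184372088832⟩ (by decide +kernel)

theorem ME_8 : Hd QME 79228162514264482553156956324 43628621390152 79228162514264604994771825459
    14073748835533 79228162514264548699776483328 70368744177664 :=
  okME (s2 (s0 (s2 (s0 lf lf) (s0 lf lf)) (s2 (s0 (s1 lf lf) (s1 lf lf)) (s0 lf (s1 lf lf))))
    (s0 (s2 (s0 lf lf) (s0 lf lf)) (s2 (s0 lf lf) (s0 lf lf))))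
    ⟨79228162514264482553156956324, 43628621390152, 79228162514264604994771825459,
    14073748835533, 79228162514264548699776483328, 70368744177664⟩ (by decide +kernel)

theorem MG_0 : Hd QMG 79228162514264395295914176020 43628621390152 79228162514264422036036963532
    56294995342132 79228162514264372777916039168 35184372088832 :=
  okMG (s1 (s0 (s2 (s1 (s0 (s0 (s1 lf lf) lf) (s1 (s0 lf lf) lf)) (s0 (s0 lf lf) (s0 lf lf)))
    (s1 (s0 (s0 (s1 lf lf) lf) (s1 lf lf)) (s0 (s0 lf lf) lf))) (s2 (s1 (s0 (s1 lf lf) (s1 lf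
    lf)) (s0 lf lf)) (s1 (s0 (s1 lf lf) (s1 lf lf)) (s0 lf lf)))) (s0 (s2 (s1 (s0 (s0 (s1 lf lf)
    lf) (s1 lf (s0 lf lf))) (s0 (s0 (s1 (s0 lf lf) (s2 lf lf)) (s1 lf lf)) (s1 (s0 lf lf) (s0 lf
    lf)))) (s1 (s0 (s0 lf lf) (s0 lf lf)) (s0 (s0 (s1 lf (s0 lf lf)) lf) (s1 lf (s0 lf lf)))))
    (s2 (s1 (s0 (s1 lf lf) (s1 lf lf)) (s0 (s1 (s2 lf lf) (s2 lf lf)) (s1 lf (s2 lf lf)))) (s1
    (s0 lf lf) (s0 (s1 lf lf) (s1 lf lf))))))
    ⟨79228162514264395295914176020, 43628621390152, 79228162514264422036036963532,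
    56294995342132, 79228162514264372777916039168, 35184372088832⟩ (by decide +kernel)

theorem MG_1 : Hd QMG 79228162514264395295914176020 43628621390152 79228162514264422036036963532
    56294995342132 79228162514264443146660216832 35184372088832 :=
  okMG (s1 (s0 (s2 (s1 (s0 (s0 lf lf) (s1 lf lf)) (s0 (s0 lf lf) lf)) (s1 (s0 (s0 lf lf) lf) (s0
    (s0 lf lf) lf))) (s2 (s1 (s0 lf lf) (s0 lf lf)) (s1 (s0 lf lf) (s0 lf lf)))) (s0 (s2 (s1 (s0
    (s0 lf lf) lf) (s0 (s0 (s1 lf lf) lf) (s1 lf lf))) (s1 (s0 (s0 lf lf) lf) (s0 (s0 (s1 lf lf)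
    lf) (s1 lf lf)))) (s2 (s1 (s0 lf lf) (s0 (s1 lf lf) (s1 lf lf))) (s1 (s0 lf lf) (s0 lf
    lf)))))
    ⟨79228162514264395295914176020, 43628621390152, 79228162514264422036036963532,
    56294995342132, 79228162514264443146660216832, 35184372088832⟩ (by decide +kernel)

theorem MG_2 : Hd QMG 79228162514264482553156956324 43628621390152 79228162514264422036036963532
    56294995342132 79228162514264407962288128000 70368744177664 :=
  okMG (s2 (s1 (s0 (s2 (s1 (s0 (s1 lf lf) (s1 lf lf)) (s0 lf (s2 lf lf))) (s1 (s0 (s1 lf lf) (s1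
    lf lf)) (s0 lf lf))) (s2 (s1 (s0 (s1 lf lf) (sk 0)) (s0 (s2 lf lf) (sk 0))) (s1 (s0 (s1 lf
    lf) (sk 0)) (s0 lf (sk 0))))) (s0 (s2 (s1 (s0 (s2 lf lf) (s2 lf lf)) (s0 (s2 lf lf) (s2 (s1
    lf lf) lf))) (s1 (s0 (s2 lf lf) (s2 lf lf)) (s0 (s1 lf lf) (s2 lf lf)))) (s2 (s1 (s0 (s2 lf
    lf) (sk 0)) (s0 (s2 (s1 lf lf) lf) (sk 0))) (s1 (s0 (s2 lf lf) (sk 0)) (s0 (s2 lf lf) (s2 lf
    lf)))))) (s1 (s0 (s2 (s1 (s0 lf lf) (s0 lf lf)) (s1 (s0 lf lf) (s0 lf lf))) (s2 (s1 (s0 (s1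
    lf lf) (sk 0)) (s0 lf lf)) (s1 (s0 lf (s1 lf lf)) (s0 lf lf)))) (s0 (s2 (s1 (s0 lf lf) (s0
    (s1 lf lf) (s1 lf lf))) (s1 (s0 lf lf) (s0 lf lf))) (s2 (s1 (s0 lf (s2 lf lf)) (s0 (s2 lf
    lf) (s2 lf lf))) (s1 (s0 lf lf) (s0 (s2 lf lf) (s2 lf lf)))))))
    ⟨79228162514264482553156956324, 43628621390152, 79228162514264422036036963532,
    56294995342132, 79228162514264407962288128000, 70368744177664⟩ (by decide +kernel)

end H41MK
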