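import Pool.Agent.H41.MK.Claims

/-! Branch and bound data, generated. -/

set_option maxRecDepth 100000

namespace H41MK

open H41FT Tr

theorem MG_3 : Hd QMG 79228162514264395295914176020 43628621390152 79228162514264506478529976730
    28147497671066 79228162514264372777916039168 35184372088832 :=
  okMG (s0 (s2 (s1 (s0 (s1 (s0 (s2 lf lf) (s2 lf lf)) (s0 (s2 lf lf) (s2 lf lf))) (s1 (s2 lf lf)
    (s2 (s0 lf lf) (s0 lf lf)))) (s0 (s2 (s0 (s1 (s0 lf lf) (s0 lf lf)) (s1 lf lf)) (s0 (s1 (s0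
    lf lf) (s0 lf lf)) (s1 lf lf))) (s2 (s1 (s0 lf lf) (s0 lf lf)) (s0 lf lf)))) (s1 (s0 (s0 (s1
    (s2 lf lf) (s2 lf lf)) (s1 lf (s2 lf lf))) (s1 (s0 lf lf) (s0 lf lf))) (s0 (s2 (s0 (s1 (s0
    lf lf) (s0 lf lf)) (s1 lf lf)) (s0 (s1 lf (s0 lf lf)) (s1 lf lf))) (s2 (s0 lf lf) (s0 lf
    lf))))) (s2 (s1 (s0 (s2 (s1 lf lf) (s1 lf lf)) (s2 (s1 lf lf) (s1 lf lf))) (s0 (s2 (s1 (s0
    lf lf) (s0 lf lf)) (s1 lf (s0 lf lf))) (s2 (s1 lf lf) (s1 lf lf)))) (s1 (s0 (s1 (s2 lf lf)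
    (s2 lf lf)) (s2 (s1 lf lf) lf)) (s0 (s2 (s1 lf lf) (s1 lf lf)) (s2 (s1 lf lf) (s1 lf
    lf))))))
    ⟨79228162514264395295914176020, 43628621390152, 79228162514264506478529976730,
    28147497671066, 79228162514264372777916039168, 35184372088832⟩ (by decide +kernel)

theorem MG_4 : Hd QMG 79228162514264373481603480944 21814310695076 79228162514264562773525318862
    28147497671066 79228162514264372777916039168 35184372088832 :=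
  okMG (s2 (s1 (s0 (s2 (s0 (s1 (s0 (s1 lf lf) lf) (s0 (s2 lf lf) lf)) (s1 (s0 lf lf) (s0 lf
    lf))) (s0 (s1 (s0 (s1 lf lf) lf) (s0 (s0 lf lf) lf)) (s1 lf (s0 lf lf)))) (s2 (s0 (s1 lf lf)
    lf) (s0 (s1 lf lf) lf))) (s0 (s2 (s0 (s1 (s0 (s2 lf lf) lf) (s0 (s2 lf lf) lf)) (s1 (s0 lf
    lf) (s0 lf lf))) (s0 (s1 (s0 (s0 lf lf) lf) (s0 (s0 lf lf) lf)) (s1 (s0 lf lf) (s0 lf lf))))
    (s2 (s0 (s1 lf lf) (s1 lf lf)) (s0 (s1 lf lf) (s1 lf lf))))) (s1 (s0 (s2 (s0 (s1 (s0 lf lf)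
    (s0 (s0 lf lf) lf)) (s1 lf lf)) (s0 (s1 (s0 lf lf) (s0 lf lf)) (s1 lf lf))) (s2 (s0 (s1 lf
    lf) lf) (s0 lf lf))) (s0 (s2 (s0 (s1 (s0 (s0 lf lf) lf) (s0 (s0 lf lf) lf)) (s1 lf (s0 lf
    lf))) (s0 (s1 (s0 lf lf) (s0 lf lf)) (s1 lf lf))) (s2 (s0 (s1 lf lf) lf) (s0 (s1 lf lf)
    lf)))))
    ⟨79228162514264373481603480944, 21814310695076, 79228162514264562773525318862,
    28147497671066, 79228162514264372777916039168, 35184372088832⟩ (by decide +kernel)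

theorem MG_5 : Hd QMG 79228162514264417110224871096 21814310695076 79228162514264562773525318862
    28147497671066 79228162514264372777916039168 35184372088832 :=
  okMG (s2 (s1 (s0 (s2 (s0 lf lf) (s0 lf lf)) (s2 (s1 (s0 lf lf) (s0 lf lf)) (s1 lf lf))) (s0
    (s2 (s1 (s0 lf lf) (s0 lf lf)) (s1 (s0 lf lf) (s0 lf lf))) (s2 (s1 (s0 lf lf) (s0 lf lf))
    (s1 lf (s0 lf lf))))) (s1 (s0 (s2 (s0 lf lf) (s0 lf lf)) (s2 (s1 lf lf) (s1 lf lf))) (s0 (s1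
    (s2 (s0 lf lf) lf) (s2 (s0 lf lf) (s0 lf lf))) (s1 (s2 lf lf) (s2 lf lf)))))
    ⟨79228162514264417110224871096, 21814310695076, 79228162514264562773525318862,
    28147497671066, 79228162514264372777916039168, 35184372088832⟩ (by decide +kernel)

theorem MG_6 : Hd QMG 79228162514264395295914176020 43628621390152 79228162514264506478529976730
    28147497671066 79228162514264443146660216832 35184372088832 :=
  okMG (s0 (s2 (s1 (s0 (s0 (s1 (s0 lf lf) (s2 lf lf)) (s1 lf lf)) (s1 (s0 lf lf) (s0 lf lf)))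
    (s0 (s0 (s1 (s2 lf lf) (s2 (s0 lf lf) (s0 lf lf))) (s1 (s2 lf lf) (s2 lf lf))) (s0 (s1 lf
    lf) (s1 lf lf)))) (s1 (s0 (s0 (s1 lf (s0 lf lf)) (s1 lf lf)) (s1 (s0 lf lf) (s0 lf lf))) (s0
    (s0 (s1 (s2 lf lf) (s2 (s0 lf lf) (s0 lf lf))) (s1 lf (s2 lf lf))) (s0 (s1 lf lf) lf)))) (s2
    (s1 (s0 (s1 lf (s0 lf lf)) (s1 lf lf)) (s0 (s2 (s0 lf lf) (s0 lf lf)) (s2 (s1 lf lf) lf)))
    (s1 (s0 (s1 lf lf) (s1 lf lf)) (s0 (s0 lf lf) (s2 lf lf)))))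
    ⟨79228162514264395295914176020, 43628621390152, 79228162514264506478529976730,
    28147497671066, 79228162514264443146660216832, 35184372088832⟩ (by decide +kernel)

theorem MG_7 : Hd QMG 79228162514264395295914176020 43628621390152 79228162514264562773525318862
    28147497671066 79228162514264443146660216832 35184372088832 :=
  okMG (s0 (s2 (s1 (s0 (s2 (s0 (s1 (s0 lf lf) (s0 lf lf)) (s1 lf lf)) (s0 (s1 (s0 lf lf) (s0 lf
    lf)) (s1 lf lf))) (s0 (s2 lf lf) (s2 lf lf))) (s0 (s2 (s0 (s1 (s0 lf lf) (s0 lf lf)) (s1 lf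
    lf)) (s0 (s1 (s0 lf lf) (s0 lf lf)) (s1 lf lf))) (s0 (s1 (s2 lf lf) (s2 lf lf)) (s1 lf (s2
    lf lf))))) (s1 (s0 (s2 (s0 (s1 (s0 lf lf) (s0 lf lf)) (s1 lf lf)) (s0 (s1 (s0 lf lf) (s0 lf
    lf)) (s1 lf lf))) (s0 (s1 lf lf) (s1 lf lf))) (s0 (s2 (s0 (s1 (s0 lf lf) (s0 lf lf)) (s1 lf
    lf)) (s0 (s1 (s0 lf lf) (s0 lf lf)) (s1 lf lf))) (s0 (s1 lf (s2 lf lf)) (s1 lf lf))))) (s2
    (s1 (s0 (s2 (s0 lf lf) (s0 lf lf)) (s2 (s0 lf lf) (s0 lf lf))) (s0 (s1 (s0 lf lf) (s0 lf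
    lf)) (s1 (s2 lf lf) (s2 lf lf)))) (s1 (s0 (s0 lf lf) (s2 lf lf)) (s0 (s1 (s0 lf lf) (s0 lf
    lf)) (s1 (s0 lf lf) (s0 lf lf))))))
    ⟨79228162514264395295914176020, 43628621390152, 79228162514264562773525318862,
    28147497671066, 79228162514264443146660216832, 35184372088832⟩ (by decide +kernel)

end H41MK
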