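import Pool.Agent.H41.MK.Claims

/-! Branch and bound data, generated. -/

set_option maxRecDepth 100000

namespace H41MK

open H41FT Tr

theorem MG_8 : Hd QMG 79228162514264482553156956324 43628621390152 79228162514264506478529976730
    28147497671066 79228162514264372777916039168 35184372088832 :=
  okMG (s0 (s2 (s1 (s0 (s2 (s1 lf lf) (s1 lf lf)) (s2 (s1 lf lf) (s1 lf lf))) (s0 (s2 (s1 lf lf)
    (s1 lf lf)) (s2 (s1 lf (s0 lf lf)) (s1 lf lf)))) (s1 (s0 (s2 (s1 lf lf) lf) (s2 (s1 lf lf)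
    lf)) (s0 (s2 (s1 lf lf) (s1 lf lf)) (s2 (s1 lf lf) (s1 lf lf))))) (s2 (s1 (s0 (s2 (s1 lf lf)
    (s1 lf lf)) (s2 (s1 (sk 0) lf) (s1 lf lf))) (s0 (s2 (s1 lf (s0 lf lf)) (s1 lf lf)) (s2 (s1
    lf (s0 lf lf)) (s1 lf (s0 lf lf))))) (s1 (s0 (s2 (s1 lf lf) (s1 lf lf)) (s2 (s1 lf lf) (s1
    lf lf))) (s0 (s2 (s1 lf lf) (s1 lf lf)) (s2 (s1 lf lf) (s1 lf lf))))))
    ⟨79228162514264482553156956324, 43628621390152, 79228162514264506478529976730,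
    28147497671066, 79228162514264372777916039168, 35184372088832⟩ (by decide +kernel)

theorem MG_9 : Hd QMG 79228162514264460738846261248 21814310695076 79228162514264562773525318862
    28147497671066 79228162514264372777916039168 35184372088832 :=
  okMG (s2 (s1 (s0 (s2 (s1 (s0 lf lf) (s0 lf lf)) (s1 lf lf)) (s2 (s1 (s0 lf lf) (s0 lf lf)) (s1
    lf (s0 lf lf)))) (s0 (s2 (s1 (s0 lf lf) (s0 lf lf)) (s1 lf (s0 lf lf))) (s2 (s1 (s0 lf lf)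
    (s0 lf lf)) (s1 (s0 lf lf) (s0 lf lf))))) (s1 (s0 (s2 (s1 lf lf) (s1 lf lf)) (s2 (s1 lf lf)
    (s1 lf lf))) (s0 (s2 (s1 lf lf) (s1 lf lf)) (s2 (s1 lf (s0 lf lf)) (s1 lf lf)))))
    ⟨79228162514264460738846261248, 21814310695076, 79228162514264562773525318862,
    28147497671066, 79228162514264372777916039168, 35184372088832⟩ (by decide +kernel)

theorem MG_10 : Hd QMG 79228162514264504367467651400 21814310695076
    79228162514264562773525318862 28147497671066 79228162514264372777916039168 35184372088832 :=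
  okMG (s2 (s1 (s0 (s2 (s1 (s0 lf lf) (s0 lf lf)) (s1 (s0 lf lf) (s0 lf lf))) (s2 (s1 (s0 lf lf)
    (s0 lf lf)) (s1 (s0 lf lf) (s0 lf lf)))) (s0 (s2 (s1 (s0 lf lf) (s0 lf lf)) (s1 (s0 lf lf)
    (s0 lf lf))) (s2 (s1 (s0 lf (s1 lf lf)) (s0 (s1 lf lf) (s1 lf lf))) (s1 (s0 lf lf) (s0 lf
    (s1 lf lf)))))) (s1 (s0 (s2 (s1 lf (s0 lf lf)) (s1 lf lf)) (s2 (s1 (s0 lf lf) (s0 lf lf))
    (s1 lf (s0 lf lf)))) (s0 (s2 (s1 (s0 lf lf) (s0 lf lf)) (s1 lf (s0 lf lf))) (s2 (s1 (s0 lf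
    lf) (s0 lf lf)) (s1 (s0 lf lf) (s0 lf lf))))))
    ⟨79228162514264504367467651400, 21814310695076, 79228162514264562773525318862,
    28147497671066, 79228162514264372777916039168, 35184372088832⟩ (by decide +kernel)

theorem MG_11 : Hd QMG 79228162514264482553156956324 43628621390152
    79228162514264534626027647796 56294995342132 79228162514264443146660216832 35184372088832 :=
  okMG (s1 (s0 (s2 (s1 (s0 (s2 lf lf) (s2 lf lf)) (s0 (s2 (s1 lf lf) lf) (s2 (s1 lf lf) lf)))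
    (s1 (s0 (s1 lf lf) (s2 lf lf)) (s0 (s2 lf lf) (s2 lf lf)))) (s2 (s1 (s0 (s2 lf lf) (s2 lf
    lf)) (s0 (s2 (s1 lf lf) (s1 lf lf)) (s2 (s1 lf lf) (s1 lf lf)))) (s1 (s0 (s2 lf lf) (s2 lf
    lf)) (s0 (s2 lf lf) (s2 (s1 lf lf) lf))))) (s0 (s2 (s1 (s0 (s2 (s1 lf lf) lf) (s2 (s1 lf lf)
    (s1 lf lf))) (s0 (s1 (s2 lf lf) (s2 lf lf)) (s1 (s2 lf lf) (s2 lf lf)))) (s1 (s0 (s2 lf lf)
    (s2 lf lf)) (s0 (s1 lf (s2 lf lf)) (s1 lf (s2 lf lf))))) (s2 (s1 (s0 (s2 (s1 lf lf) (s1 lf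
    lf)) (s2 (s1 lf lf) (s1 lf lf))) (s0 (s1 (s2 lf lf) (s2 lf lf)) (s2 (s1 (s0 lf lf) (s0 lf
    lf)) (s1 lf (s1 lf lf))))) (s1 (s0 (s2 (s1 lf lf) lf) (s2 (s1 lf lf) (s1 lf lf))) (s0 (s1
    (s2 lf lf) (s2 lf lf)) (s1 (s2 lf lf) (s2 lf lf)))))))
    ⟨79228162514264482553156956324, 43628621390152, 79228162514264534626027647796,
    56294995342132, 79228162514264443146660216832, 35184372088832⟩ (by decide +kernel)

theorem MG_12 : Hd QMG 79228162514264395295914176020 43628621390152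
    79228162514264422036036963532 56294995342132 79228162514264548699776483328 70368744177664 :=
  okMG (s2 (s1 (s0 (s2 (s0 (s1 (s0 lf lf) (s0 lf lf)) (s1 lf lf)) (s0 (s1 (s0 lf lf) lf) (s1 lf
    lf))) (s2 (s1 (s0 lf lf) (s0 lf lf)) (s1 (s0 lf lf) (s0 lf lf)))) (s0 (s2 (s1 (s0 (s0 lf lf)
    lf) (s0 (s0 lf lf) (s1 lf lf))) (s1 (s0 (s0 lf lf) lf) (s0 (s0 lf lf) lf))) (s2 (s1 (s0 lf
    lf) (s0 lf lf)) (s1 (s0 lf lf) (s0 lf lf))))) (s1 (s0 (s1 (s0 (s2 (s0 lf lf) (s0 lf lf)) (s2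
    lf lf)) (s0 (s2 lf lf) (s2 lf lf))) (s1 (s2 (s0 lf lf) (s0 lf lf)) (s2 (s0 lf lf) (s0 lf
    lf)))) (s0 (s2 (s1 (s0 (s0 lf lf) lf) (s0 (s0 lf lf) lf)) (s1 (s0 (s0 lf lf) lf) (s0 (s0 lf
    lf) lf))) (s2 (s1 (s0 lf lf) (s0 lf lf)) (s1 (s0 lf lf) (s0 lf lf))))))
    ⟨79228162514264395295914176020, 43628621390152, 79228162514264422036036963532,
    56294995342132, 79228162514264548699776483328, 70368744177664⟩ (by decide +kernel)

end H41MK
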