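import Pool.Agent.H41.MK.Claims

/-! Branch and bound data, generated. -/

set_option maxRecDepth 100000

namespace H41MK

open H41FT Tr

theorem MG_13 : Hd QMG 79228162514264482553156956324 43628621390152
    79228162514264422036036963532 56294995342132 79228162514264548699776483328 70368744177664 :=
  okMG (s2 (s1 (s0 (s2 (s1 (s0 lf lf) (s0 lf lf)) (s1 (s0 lf lf) (s0 lf lf))) (s2 (s1 (s0 lf (s1
    lf lf)) (s0 lf lf)) (s1 (s0 lf lf) (s0 lf lf)))) (s0 (s2 (s1 (s0 lf lf) (s0 lf lf)) (s1 (s0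
    lf lf) (s0 lf lf))) (s2 (s1 (s0 lf lf) (s0 lf lf)) (s1 (s0 lf lf) (s0 lf lf))))) (s1 (s0 (s2
    (s1 (s0 lf lf) (s0 lf lf)) (s1 (s0 lf lf) (s0 lf lf))) (s2 (s1 (s0 lf lf) (s0 lf lf)) (s1
    (s0 lf lf) (s0 lf lf)))) (s0 (s2 (s1 (s0 lf lf) (s0 lf lf)) (s1 (s0 lf lf) (s0 lf lf))) (s2
    (s1 (s0 lf lf) (s0 lf lf)) (s1 (s0 lf lf) (s0 lf lf))))))
    ⟨79228162514264482553156956324, 43628621390152, 79228162514264422036036963532,
    56294995342132, 79228162514264548699776483328, 70368744177664⟩ (by decide +kernel)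

theorem MG_14 : Hd QMG 79228162514264395295914176020 43628621390152
    79228162514264506478529976730 28147497671066 79228162514264513515404394496 35184372088832 :=
  okMG (s0 (s2 (s1 (s0 (s0 (s1 lf (s0 lf lf)) (s1 lf lf)) (s1 lf (s0 lf lf))) (s0 (s0 (s1 (s0 lf
    lf) (s2 (s0 lf lf) lf)) (s1 lf (s0 lf lf))) (s0 (s1 lf lf) lf))) (s1 (s0 (s0 (s1 lf lf) lf)
    (s1 lf lf)) (s0 (s0 (s1 (s0 lf lf) (s0 (s2 lf lf) lf)) (s1 lf lf)) (s0 lf lf)))) (s2 (s1 (s0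
    (s1 lf lf) lf) (s0 (s0 lf lf) (s1 lf lf))) (s1 (s0 (s1 lf lf) lf) (s0 (s0 lf lf) (s0 lf
    lf)))))
    ⟨79228162514264395295914176020, 43628621390152, 79228162514264506478529976730,
    28147497671066, 79228162514264513515404394496, 35184372088832⟩ (by decide +kernel)

theorem MG_15 : Hd QMG 79228162514264395295914176020 43628621390152
    79228162514264562773525318862 28147497671066 79228162514264513515404394496 35184372088832 :=
  okMG (s0 (s2 (s1 (s0 (s0 (s2 (s1 (s0 lf lf) (s0 lf lf)) (s1 (s0 lf lf) (s0 lf lf))) (s2 (s1 lf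
    lf) (s1 lf lf))) (s0 (s1 lf lf) lf)) (s0 (s0 (s2 (s1 (s0 lf lf) (s0 lf lf)) (s1 (s0 lf lf)
    (s0 lf lf))) (s1 (s2 lf lf) (s2 lf lf))) (s0 (s1 lf lf) (s1 lf lf)))) (s1 (s0 (s0 (s2 (s1
    (s0 lf lf) (s0 lf lf)) (s1 (s0 lf lf) (s0 lf lf))) (s1 (s0 lf lf) (s0 lf lf))) (s0 (s1 lf
    lf) lf)) (s0 (s0 (s2 (s1 (s0 lf lf) (s0 lf lf)) (s1 (s0 lf lf) (s0 lf lf))) (s1 (s0 lf lf)
    (s2 lf lf))) (s0 (s1 lf lf) (s1 lf lf))))) (s2 (s1 (s0 (s0 lf lf) (s0 lf lf)) (s0 (s1 (s0 lf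
    lf) (s0 lf lf)) (s1 lf lf))) (s1 (s0 (s0 lf lf) (s0 lf lf)) (s0 (s1 lf (s0 lf lf)) (s1 lf
    lf)))))
    ⟨79228162514264395295914176020, 43628621390152, 79228162514264562773525318862,
    28147497671066, 79228162514264513515404394496, 35184372088832⟩ (by decide +kernel)

theorem MG_16 : Hd QMG 79228162514264395295914176020 43628621390152
    79228162514264506478529976730 28147497671066 79228162514264583884148572160 35184372088832 :=
  okMG (s0 (s2 (s1 (s0 (s0 (s1 lf lf) lf) (s1 lf lf)) (s0 (s0 (s1 (s0 lf lf) (s0 lf lf)) (s1 lf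
    lf)) (s0 lf lf))) (s1 (s0 (s0 (s1 lf lf) lf) (s0 lf lf)) (s0 (s0 (s1 (s0 lf lf) (s0 lf lf))
    (s1 lf lf)) (s0 lf lf)))) (s2 (s1 (s0 lf lf) (s0 (s0 lf lf) lf)) (s1 (s0 lf lf) (s0 (s0 lf
    lf) lf))))
    ⟨79228162514264395295914176020, 43628621390152, 79228162514264506478529976730,
    28147497671066, 79228162514264583884148572160, 35184372088832⟩ (by decide +kernel)

theorem MG_17 : Hd QMG 79228162514264395295914176020 43628621390152
    79228162514264562773525318862 28147497671066 79228162514264583884148572160 35184372088832 :=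
  okMG (s0 (s2 (s1 (s0 (s0 (s2 (s1 (s0 lf lf) (s0 lf lf)) (s1 (s0 lf lf) (s0 lf lf))) (s1 lf
    lf)) (s0 (s1 lf lf) lf)) (s0 (s0 (s2 (s1 (s0 lf lf) (s0 lf lf)) (s1 (s0 lf lf) (s0 lf lf)))
    (s1 (s0 lf lf) (s0 lf lf))) (s0 (s1 lf lf) lf))) (s1 (s0 (s0 (s2 (s1 (s0 lf lf) (s0 lf lf))
    (s1 (s0 lf lf) (s0 lf lf))) (s1 lf lf)) (s0 lf lf)) (s0 (s0 (s2 (s0 (s1 lf lf) lf) (s0 (s1
    lf lf) lf)) (s1 lf (s0 lf lf))) (s0 (s1 lf lf) lf)))) (s2 (s1 (s0 (s0 lf lf) lf) (s0 (s1 lf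
    lf) (s1 lf lf))) (s1 (s0 (s0 lf lf) lf) (s0 (s1 lf lf) (s1 lf lf)))))
    ⟨79228162514264395295914176020, 43628621390152, 79228162514264562773525318862,
    28147497671066, 79228162514264583884148572160, 35184372088832⟩ (by decide +kernel)

theorem MG_18 : Hd QMG 79228162514264482553156956324 43628621390152
    79228162514264534626027647796 56294995342132 79228162514264548699776483328 70368744177664 :=
  okMG (s2 (s1 (s0 (s2 (s1 (s0 lf lf) (s0 (s2 lf lf) (s2 lf lf))) (s1 (s0 lf lf) (s0 lf lf)))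
    (s2 (s1 (s0 (s2 lf lf) (s2 lf lf)) (s0 (s2 lf lf) (s1 lf lf))) (s1 (s0 lf lf) (s0 lf (s1 lf
    lf))))) (s0 (s2 (s1 (s0 (s2 lf lf) (s2 lf lf)) (s0 (s1 lf lf) (s1 lf lf))) (s1 (s0 lf lf)
    (s0 (s1 lf lf) (s1 lf lf)))) (s2 (s1 (s0 (s1 lf lf) (s1 lf lf)) (s0 (s1 lf lf) (s1 lf (s2 lf
    lf)))) (s1 (s0 (s1 lf lf) (s1 lf lf)) (s0 (s1 lf lf) (s1 lf lf)))))) (s1 (s0 (s2 (s1 (s0 lf
    lf) (s0 lf lf)) (s1 (s0 lf lf) (s0 lf lf))) (s2 (s1 (s0 lf lf) (s0 lf lf)) (s1 (s0 lf lf)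
    (s0 lf lf)))) (s0 (s2 (s1 (s0 lf lf) (s0 (s1 lf lf) (s1 lf lf))) (s1 (s0 lf lf) (s0 lf lf)))
    (s2 (s1 (s0 lf (s1 lf lf)) (s0 (s1 lf lf) (s1 lf lf))) (s1 (s0 lf lf) (s0 lf (s1 lf
    lf)))))))
    ⟨79228162514264482553156956324, 43628621390152, 79228162514264534626027647796,
    56294995342132, 79228162514264548699776483328, 70368744177664⟩ (by decide +kernel)

theorem SB_0 : Hd QSB 79228162514264340408293717443 2814749767107 79228162514264340408293717443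
    2814749767107 79228162514264340408293717443 2814749767107 :=
  okSB lf
    ⟨79228162514264340408293717443, 2814749767107, 79228162514264340408293717443, 2814749767107,
    79228162514264340408293717443, 2814749767107⟩ (by decide +kernel)

end H41MK
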