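import Pool.Agent.H41.MK.Claims

/-! Branch and bound data, generated. -/

set_option maxRecDepth 100000

namespace H41MK

open H41FT Tr

theorem PF_0 : Hd QPF 79228162514264381574009061375 15832967439975 79228162514264344630418368102
    7036874417767 79228162514264381574009061375 15832967439975 :=
  okPF (s2 (s0 (s2 (s0 (s1 lf lf) (s1 lf lf)) (s0 (s1 lf lf) (s1 lf lf))) (s2 (s1 lf lf) (s1 lf
    lf))) (s0 (s2 (s0 (s1 lf lf) lf) (s0 lf lf)) (s2 (s0 lf lf) lf)))
    ⟨79228162514264381574009061375, 15832967439975, 79228162514264344630418368102,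
    7036874417767, 79228162514264381574009061375, 15832967439975⟩ (by decide +kernel)

theorem PF_1 : Hd QPF 79228162514264413239943941325 15832967439975 79228162514264344630418368102
    7036874417767 79228162514264381574009061375 15832967439975 :=
  okPF (s2 (s0 (s2 (s1 lf lf) (s1 lf lf)) (s2 (s1 lf lf) (s1 lf lf))) (s0 (s2 (s1 lf lf) lf) (s2
    (s1 lf lf) lf)))
    ⟨79228162514264413239943941325, 15832967439975, 79228162514264344630418368102,
    7036874417767, 79228162514264381574009061375, 15832967439975⟩ (by decide +kernel)

theorem PF_2 : Hd QPF 79228162514264397406976501350 31665934879949 79228162514264344630418368102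
    7036874417767 79228162514264413239943941325 15832967439975 :=
  okPF (s0 (s0 (s2 (s0 lf lf) lf) (s2 lf lf)) (s2 (s0 lf lf) lf))
    ⟨79228162514264397406976501350, 31665934879949, 79228162514264344630418368102,
    7036874417767, 79228162514264413239943941325, 15832967439975⟩ (by decide +kernel)

theorem PF_3 : Hd QPF 79228162514264460738846261248 31665934879949 79228162514264344630418368102
    7036874417767 79228162514264397406976501350 31665934879949 :=
  okPF (s2 (s0 (s2 (s0 (s2 (s1 lf lf) (s1 lf lf)) (s2 (s1 lf lf) (s1 lf lf))) (s0 (s2 lf lf) (s2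
    lf lf))) (s2 (s0 (s2 (s1 lf lf) (s1 lf lf)) (s2 (s1 lf lf) (s1 lf lf))) (s0 (s2 lf lf) (s2
    lf lf)))) (s0 (s2 (s0 lf lf) lf) (s2 (s0 lf lf) lf)))
    ⟨79228162514264460738846261248, 31665934879949, 79228162514264344630418368102,
    7036874417767, 79228162514264397406976501350, 31665934879949⟩ (by decide +kernel)

theorem PF_4 : Hd QPF 79228162514264429072911381299 63331869759898 79228162514264344630418368102
    7036874417767 79228162514264460738846261248 31665934879949 :=
  okPF (s0 (s0 (s2 (s0 lf lf) (s0 lf lf)) (s2 (s2 lf lf) lf)) (s2 (s0 lf lf) (s0 lf lf)))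
    ⟨79228162514264429072911381299, 63331869759898, 79228162514264344630418368102,
    7036874417767, 79228162514264460738846261248, 31665934879949⟩ (by decide +kernel)

theorem PF_5 : Hd QPF 79228162514264429072911381299 63331869759898 79228162514264344630418368102
    7036874417767 79228162514264555736650901095 63331869759898 :=
  okPF (s0 (s2 (s0 (s2 lf lf) (s2 lf lf)) (s0 lf lf)) (s2 (s2 lf lf) (s0 lf lf)))
    ⟨79228162514264429072911381299, 63331869759898, 79228162514264344630418368102,
    7036874417767, 79228162514264555736650901095, 63331869759898⟩ (by decide +kernel)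

theorem PF_6 : Hd QPF 79228162514264524070716021146 31665934879949 79228162514264344630418368102
    7036874417767 79228162514264397406976501350 31665934879949 :=
  okPF (s2 (s0 (s2 (s0 (s2 (s1 lf lf) (s1 lf lf)) (s2 (s1 lf lf) (s1 lf lf))) (s0 (s2 lf lf) (s2
    lf lf))) (s2 (s0 (s2 (s1 lf lf) (s1 lf lf)) (s2 (s1 lf lf) (s1 lf lf))) (s0 (s2 (s1 lf lf)
    lf) (s2 (s1 lf lf) lf)))) (s0 (s2 (s0 lf lf) lf) (s2 (s0 lf lf) lf)))
    ⟨79228162514264524070716021146, 31665934879949, 79228162514264344630418368102,
    7036874417767, 79228162514264397406976501350, 31665934879949⟩ (by decide +kernel)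

end H41MK
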