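import Pool.Agent.H41.MK.Claims

/-! Branch and bound data, generated. -/

set_option maxRecDepth 100000

namespace H41MK

open H41FT Tr

theorem PF_7 : Hd QPF 79228162514264587402585781044 31665934879949 79228162514264344630418368102
    7036874417767 79228162514264381574009061375 15832967439975 :=
  okPF (s0 (s2 (s0 (s2 (s1 lf lf) (s1 lf lf)) (s2 (s1 lf lf) (s1 lf lf))) (s0 (s2 (s1 lf lf) lf)
    (s2 (s1 lf lf) lf))) (s2 (s0 (s2 (s1 lf lf) (s1 lf lf)) (s2 (s1 lf lf) (s1 lf lf))) (s0 (s2
    (s1 lf lf) lf) (s2 (s1 lf lf) lf))))
    ⟨79228162514264587402585781044, 31665934879949, 79228162514264344630418368102,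
    7036874417767, 79228162514264381574009061375, 15832967439975⟩ (by decide +kernel)

theorem PF_8 : Hd QPF 79228162514264587402585781044 31665934879949 79228162514264344630418368102
    7036874417767 79228162514264413239943941325 15832967439975 :=
  okPF (s0 (s2 (s0 lf lf) lf) (s2 (s0 lf lf) lf))
    ⟨79228162514264587402585781044, 31665934879949, 79228162514264344630418368102,
    7036874417767, 79228162514264413239943941325, 15832967439975⟩ (by decide +kernel)

theorem PF_9 : Hd QPF 79228162514264555736650901095 63331869759898 79228162514264344630418368102
    7036874417767 79228162514264460738846261248 31665934879949 :=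
  okPF (s0 (s2 (s0 lf lf) lf) (s2 (s0 lf lf) lf))
    ⟨79228162514264555736650901095, 63331869759898, 79228162514264344630418368102,
    7036874417767, 79228162514264460738846261248, 31665934879949⟩ (by decide +kernel)

theorem PF_10 : Hd QPF 79228162514264555736650901095 63331869759898
    79228162514264344630418368102 7036874417767 79228162514264555736650901095 63331869759898 :=
  okPF (s2 (s0 (s2 lf lf) (s2 lf lf)) (s0 lf lf))
    ⟨79228162514264555736650901095, 63331869759898, 79228162514264344630418368102,
    7036874417767, 79228162514264555736650901095, 63331869759898⟩ (by decide +kernel)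

theorem PG_0 : Hd QPG 79228162514264351667292785869 14073748835533 79228162514264407962288128000
    56294995342132 79228162514264351667292785869 14073748835533 :=
  okPG (s1 (s1 (s1 (s2 (s1 lf lf) lf) (s2 lf lf)) (s1 lf lf)) (s1 (s1 lf lf) (s1 lf lf)))
    ⟨79228162514264351667292785869, 14073748835533, 79228162514264407962288128000,
    56294995342132, 79228162514264351667292785869, 14073748835533⟩ (by decide +kernel)

theorem PH_0 : Hd QPH 79228162514264351667292785869 14073748835533 79228162514264541662902065562
    77405618595431 79228162514264351667292785869 14073748835533 :=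
  okPH (s1 (s1 (s1 lf lf) (s1 lf lf)) (s1 (s1 lf (s2 lf lf)) (s1 (s2 lf lf) (s2 lf (s0 lf (sk
    0))))))
    ⟨79228162514264351667292785869, 14073748835533, 79228162514264541662902065562,
    77405618595431, 79228162514264351667292785869, 14073748835533⟩ (by decide +kernel)

end H41MK
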