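import Pool.Agent.H41.MK.Claims

/-! Branch and bound data, generated. -/

set_option maxRecDepth 100000

namespace H41MK

open H41FT Tr

theorem PI_0 : Hd QPI 79228162514264351667292785869 14073748835533 79228162514264379814790456934
    28147497671066 79228162514264381574009061375 15832967439975 :=
  okPI (s1 (s2 (s1 (s1 (s2 (s0 lf lf) lf) (s2 lf lf)) (s2 (s0 lf (s1 lf lf)) (s0 lf lf))) (s1
    (s1 lf lf) (s2 (s1 lf lf) lf))) (s2 (s1 (s2 (s0 lf lf) (s0 lf lf)) (s0 lf lf)) (s1 (s2 lf
    lf) (s0 lf lf))))
    ⟨79228162514264351667292785869, 14073748835533, 79228162514264379814790456934,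
    28147497671066, 79228162514264381574009061375, 15832967439975⟩ (by decide +kernel)

theorem PI_1 : Hd QPI 79228162514264351667292785869 14073748835533 79228162514264379814790456934
    28147497671066 79228162514264413239943941325 15832967439975 :=
  okPI (s1 (s1 (s2 (s1 lf lf) (s1 lf lf)) (s2 lf lf)) (s2 (s1 lf lf) (s1 lf lf)))
    ⟨79228162514264351667292785869, 14073748835533, 79228162514264379814790456934,
    28147497671066, 79228162514264413239943941325, 15832967439975⟩ (by decide +kernel)

theorem PI_2 : Hd QPI 79228162514264351667292785869 14073748835533 79228162514264436109785799066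
    28147497671066 79228162514264397406976501350 31665934879949 :=
  okPI (s2 (s1 (s2 (s1 (s0 lf lf) (s0 lf lf)) (s1 (s0 lf lf) (s0 lf lf))) (s2 (s1 (s0 lf lf) (s0
    lf lf)) (s1 (s0 lf lf) (s0 lf lf)))) (s1 (s2 (s1 lf lf) (s1 lf lf)) (s2 (s1 lf lf) (s1 lf
    lf))))
    ⟨79228162514264351667292785869, 14073748835533, 79228162514264436109785799066,
    28147497671066, 79228162514264397406976501350, 31665934879949⟩ (by decide +kernel)

theorem PI_3 : Hd QPI 79228162514264351667292785869 14073748835533 79228162514264407962288128000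
    56294995342132 79228162514264460738846261248 31665934879949 :=
  okPI (s1 (s2 (s1 (s1 (s1 lf lf) lf) (s2 (s1 lf lf) (s1 lf lf))) (s1 (s1 lf lf) (s1 lf lf)))
    (s2 (s1 (s2 (s1 lf lf) (s1 lf lf)) (s2 (s1 lf lf) (s1 lf lf))) (s1 (s2 lf lf) (s2 (s0 lf lf)
    lf))))
    ⟨79228162514264351667292785869, 14073748835533, 79228162514264407962288128000,
    56294995342132, 79228162514264460738846261248, 31665934879949⟩ (by decide +kernel)

theorem PI_4 : Hd QPI 79228162514264351667292785869 14073748835533 79228162514264407962288128000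
    56294995342132 79228162514264555736650901095 63331869759898 :=
  okPI (s2 (s1 (s1 (s2 (s1 lf lf) (s1 lf lf)) (s2 lf lf)) (s2 (s1 lf lf) (s1 lf lf))) (s1 (s1
    (s1 lf lf) lf) (s2 (s1 lf lf) (s1 lf lf))))
    ⟨79228162514264351667292785869, 14073748835533, 79228162514264407962288128000,
    56294995342132, 79228162514264555736650901095, 63331869759898⟩ (by decide +kernel)

theorem PJ_0 : Hd QPJ 79228162514264351667292785869 14073748835533 79228162514264495923218350080
    31665934879949 79228162514264397406976501350 31665934879949 :=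
  okPJ (s2 (s1 (s2 (s1 (s0 lf lf) (s0 lf lf)) (s1 (s0 lf lf) (s0 lf lf))) (s2 (s1 (s0 lf lf) (s0
    lf (s2 lf lf))) (s1 (s0 lf lf) (s0 lf lf)))) (s1 (s2 (s1 (s0 lf lf) (s0 lf lf)) (s1 lf lf))
    (s2 (s1 (s0 lf lf) (s0 lf lf)) (s1 (s0 lf lf) (s0 lf lf)))))
    ⟨79228162514264351667292785869, 14073748835533, 79228162514264495923218350080,
    31665934879949, 79228162514264397406976501350, 31665934879949⟩ (by decide +kernel)

end H41MK
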