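import Pool.Agent.H41.MK.Claims

/-! Branch and bound data, generated. -/

set_option maxRecDepth 100000

namespace H41MK

open H41FT Tr

theorem PJ_1 : Hd QPJ 79228162514264351667292785869 14073748835533 79228162514264495923218350080
    31665934879949 79228162514264460738846261248 31665934879949 :=
  okPJ (s2 (s1 (s2 (s1 lf lf) (s1 lf lf)) (s2 (s1 lf lf) (s1 lf lf))) (s1 (s2 (s1 lf lf) (s1 lf
    lf)) (s2 (s1 lf lf) (s1 lf lf))))
    ⟨79228162514264351667292785869, 14073748835533, 79228162514264495923218350080,
    31665934879949, 79228162514264460738846261248, 31665934879949⟩ (by decide +kernel)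

theorem PJ_2 : Hd QPJ 79228162514264351667292785869 14073748835533 79228162514264559255088109978
    31665934879949 79228162514264381574009061375 15832967439975 :=
  okPJ (s1 (s2 (s1 (s0 lf (s2 lf lf)) (s0 lf (s2 lf lf))) (s1 (s0 lf lf) (s0 lf lf))) (s2 (s1
    (s0 lf (s2 (s1 lf lf) lf)) (s0 lf (s2 (s1 lf lf) lf))) (s1 (s0 lf lf) (s0 lf lf))))
    ⟨79228162514264351667292785869, 14073748835533, 79228162514264559255088109978,
    31665934879949, 79228162514264381574009061375, 15832967439975⟩ (by decide +kernel)

theorem PJ_3 : Hd QPJ 79228162514264351667292785869 14073748835533 79228162514264559255088109978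
    31665934879949 79228162514264413239943941325 15832967439975 :=
  okPJ (s1 (s2 (s1 (s0 lf lf) (s0 lf lf)) (s1 (s0 lf lf) (s0 lf lf))) (s1 (s2 (s0 lf lf) (s0 lf
    lf)) (s2 (s0 lf lf) (s0 lf lf))))
    ⟨79228162514264351667292785869, 14073748835533, 79228162514264559255088109978,
    31665934879949, 79228162514264413239943941325, 15832967439975⟩ (by decide +kernel)

theorem PJ_4 : Hd QPJ 79228162514264351667292785869 14073748835533 79228162514264559255088109978
    31665934879949 79228162514264460738846261248 31665934879949 :=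
  okPJ (s1 (s2 (s1 (s2 (s0 lf lf) lf) (s2 (s0 lf lf) (s0 lf lf))) (s1 (s0 lf lf) (s2 lf lf)))
    (s2 (s1 (s2 (s0 lf lf) (s0 lf lf)) (s2 (s0 lf lf) (s0 lf lf))) (s2 (s1 (s0 lf lf) (s0 lf
    lf)) (s1 (s0 lf lf) (s0 lf lf)))))
    ⟨79228162514264351667292785869, 14073748835533, 79228162514264559255088109978,
    31665934879949, 79228162514264460738846261248, 31665934879949⟩ (by decide +kernel)

theorem PJ_5 : Hd QPJ 79228162514264351667292785869 14073748835533 79228162514264495923218350080
    31665934879949 79228162514264555736650901095 63331869759898 :=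
  okPJ (s2 (s1 (s2 (s2 (s1 lf lf) lf) (s1 lf lf)) (s2 (s1 lf lf) (s1 lf lf))) (s1 (s2 lf lf) (s2
    (s1 lf lf) (s1 lf lf))))
    ⟨79228162514264351667292785869, 14073748835533, 79228162514264495923218350080,
    31665934879949, 79228162514264555736650901095, 63331869759898⟩ (by decide +kernel)

theorem PJ_6 : Hd QPJ 79228162514264351667292785869 14073748835533 79228162514264559255088109978
    31665934879949 79228162514264524070716021146 31665934879949 :=
  okPJ (s2 (s1 (s2 (s1 lf lf) (s1 lf lf)) (s2 (s1 lf (s0 lf lf)) (s1 lf (s0 lf lf)))) (s1 (s2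
    (s1 lf lf) (s1 lf lf)) (s2 (s1 lf (s0 lf lf)) (s1 lf (s0 lf lf)))))
    ⟨79228162514264351667292785869, 14073748835533, 79228162514264559255088109978,
    31665934879949, 79228162514264524070716021146, 31665934879949⟩ (by decide +kernel)

end H41MK
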