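import Pool.Agent.H41.MK.Claims

/-! Branch and bound data, generated. -/

set_option maxRecDepth 100000

namespace H41MK

open H41FT Tr

theorem PJ_7 : Hd QPJ 79228162514264351667292785869 14073748835533 79228162514264559255088109978
    31665934879949 79228162514264587402585781044 31665934879949 :=
  okPJ (s1 (s2 (s1 lf (s2 lf lf)) (s1 lf (s2 lf lf))) (s2 (s2 (s1 lf (s0 lf lf)) (s1 (s0 lf lf)
    (s0 lf lf))) (s1 (s2 (s0 lf lf) (s0 lf lf)) (s2 (s0 lf lf) (s0 (s1 lf lf) (s2 lf (s1 lf
    lf)))))))
    ⟨79228162514264351667292785869, 14073748835533, 79228162514264559255088109978,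
    31665934879949, 79228162514264587402585781044, 31665934879949⟩ (by decide +kernel)

theorem PK_0 : Hd QPK 79228162514264397406976501350 31665934879949 79228162514264379814790456934
    28147497671066 79228162514264351667292785869 14073748835533 :=
  okPK (s0 (s1 (s1 (s2 (s0 (s1 (s2 lf lf) lf) (s1 (s2 lf lf) lf)) (s0 (s1 lf lf) (s1 lf lf)))
    (s0 (s2 lf lf) (s2 lf lf))) (s0 (s1 lf lf) (s1 lf lf))) (s1 (s1 (s2 (s1 (s2 lf lf) lf) (s1
    lf lf)) (s2 lf lf)) (s1 lf lf)))
    ⟨79228162514264397406976501350, 31665934879949, 79228162514264379814790456934,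
    28147497671066, 79228162514264351667292785869, 14073748835533⟩ (by decide +kernel)

theorem PK_1 : Hd QPK 79228162514264397406976501350 31665934879949 79228162514264436109785799066
    28147497671066 79228162514264351667292785869 14073748835533 :=
  okPK (s0 (s1 (s0 (s1 lf lf) lf) (s0 lf lf)) (s1 (s0 lf lf) (s0 lf lf)))
    ⟨79228162514264397406976501350, 31665934879949, 79228162514264436109785799066,
    28147497671066, 79228162514264351667292785869, 14073748835533⟩ (by decide +kernel)

theorem PK_2 : Hd QPK 79228162514264460738846261248 31665934879949 79228162514264407962288128000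
    56294995342132 79228162514264351667292785869 14073748835533 :=
  okPK (s1 (s1 (s0 (s1 (s2 (s1 lf lf) (s1 lf lf)) (s2 lf lf)) (s1 (s2 (s1 lf lf) lf) lf)) (s0
    (s1 lf lf) (s1 lf lf))) (s0 (s1 (s1 lf lf) (s1 lf lf)) (s1 (s1 lf lf) (s1 lf lf))))
    ⟨79228162514264460738846261248, 31665934879949, 79228162514264407962288128000,
    56294995342132, 79228162514264351667292785869, 14073748835533⟩ (by decide +kernel)

theorem PK_3 : Hd QPK 79228162514264524070716021146 31665934879949 79228162514264407962288128000
    56294995342132 79228162514264351667292785869 14073748835533 :=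
  okPK (s1 (s1 (s0 (s1 (s2 (s1 lf lf) lf) lf) (s1 (s2 (s1 lf lf) lf) lf)) (s0 (s1 lf lf) (s1 lf
    lf))) (s0 (s1 (s1 lf lf) (s1 lf lf)) (s1 (s1 lf lf) (s1 lf lf))))
    ⟨79228162514264524070716021146, 31665934879949, 79228162514264407962288128000,
    56294995342132, 79228162514264351667292785869, 14073748835533⟩ (by decide +kernel)

theorem PK_4 : Hd QPK 79228162514264587402585781044 31665934879949 79228162514264407962288128000
    56294995342132 79228162514264351667292785869 14073748835533 :=
  okPK (s1 (s1 (s0 (s1 (s2 (s1 lf lf) lf) lf) (s1 (s2 (s1 lf lf) lf) lf)) (s0 (s1 lf lf) (s1 lf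
    lf))) (s0 (s1 (s1 lf lf) (s1 lf lf)) (s1 (s1 lf lf) (s1 lf lf))))
    ⟨79228162514264587402585781044, 31665934879949, 79228162514264407962288128000,
    56294995342132, 79228162514264351667292785869, 14073748835533⟩ (by decide +kernel)

end H41MK
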