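import Pool.Agent.H41.MK.Claims

/-! Branch and bound data, generated. -/

set_option maxRecDepth 100000

namespace H41MK

open H41FT Tr

theorem PL_0 : Hd QPL 79228162514264429072911381299 63331869759898 79228162514264527589153230029
    63331869759898 79228162514264351667292785869 14073748835533 :=
  okPL (s0 (s1 (s0 (s1 (s0 (s1 lf lf) lf) (s0 (s1 lf lf) (s1 lf lf))) (s1 (s0 lf lf) (s0 (s1 lf
    lf) (s1 lf lf)))) (s0 (s1 (s0 (s1 lf lf) (s1 lf lf)) (s0 (s1 lf lf) (s1 (sk 0) (sk 0)))) (s1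
    (s0 (s1 lf lf) (s1 lf (sk 0))) (sk 0)))) (s1 (s0 (s1 (s1 lf lf) (s1 lf (s0 lf lf))) (s1 (s1
    lf lf) (s1 (s0 lf lf) (sk 0)))) (s0 (sk 0) (sk 0))))
    ⟨79228162514264429072911381299, 63331869759898, 79228162514264527589153230029,
    63331869759898, 79228162514264351667292785869, 14073748835533⟩ (by decide +kernel)

theorem PL_1 : Hd QPL 79228162514264555736650901095 63331869759898 79228162514264527589153230029
    63331869759898 79228162514264351667292785869 14073748835533 :=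
  okPL (s0 (s1 (s0 (s1 (s1 lf lf) (sk 0)) (s1 (s1 lf (sk 0)) (sk 0))) (sk 0)) (s1 (s0 (s1 (s1 lf
    (sk 0)) (sk 0)) (sk 0)) (sk 0)))
    ⟨79228162514264555736650901095, 63331869759898, 79228162514264527589153230029,
    63331869759898, 79228162514264351667292785869, 14073748835533⟩ (by decide +kernel)

theorem PM_0 : Hd QPM 79228162514264381574009061375 15832967439975 79228162514264379814790456934
    28147497671066 79228162514264381574009061375 15832967439975 :=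
  okPM (s1 (s2 (s0 (s1 (s2 (s1 (s0 (s1 lf lf) (s1 lf lf)) (s0 lf lf)) (s1 (s0 lf lf) (s0 lf
    lf))) (s2 (s0 (s1 lf lf) (s1 lf lf)) (s0 (s1 lf lf) (s1 lf lf)))) (s1 (s1 (s2 (s0 lf lf) (s0
    lf lf)) (s2 (s0 lf lf) lf)) (s2 (s1 lf lf) (s1 lf lf)))) (s0 (s1 (s1 (s2 (s0 lf lf) lf) (s2
    lf lf)) (s0 (s2 (s1 lf lf) (s1 lf lf)) (s2 (s1 lf lf) lf))) (s1 (s1 (s2 lf lf) lf) (s2 (s1
    lf lf) (s1 lf lf))))) (s2 (s0 (s1 (s2 (s0 (s1 lf lf) (s1 lf lf)) (s0 (s1 lf lf) (s1 lf lf)))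
    (s2 (s0 (s1 lf lf) (s1 lf lf)) (s0 (s1 lf lf) lf))) (s1 (s2 (s0 (s1 lf lf) (s1 lf lf)) (s0
    lf lf)) (s2 (s0 lf lf) (s0 lf lf)))) (s0 (s1 (s0 (s2 (s1 lf lf) lf) lf) (s0 lf lf)) (s1 (s2
    (s0 lf lf) lf) (s2 lf lf)))))
    ⟨79228162514264381574009061375, 15832967439975, 79228162514264379814790456934,
    28147497671066, 79228162514264381574009061375, 15832967439975⟩ (by decide +kernel)

theorem PM_1 : Hd QPM 79228162514264413239943941325 15832967439975 79228162514264379814790456934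
    28147497671066 79228162514264381574009061375 15832967439975 :=
  okPM (s1 (s2 (s0 (s1 (s1 (s2 (s1 lf lf) lf) (s2 lf lf)) (s2 (s1 lf lf) (s1 lf lf))) (s1 (s1
    (s2 (s1 lf lf) lf) lf) (s2 (s1 lf lf) (s1 lf lf)))) (s1 (s0 (s1 lf lf) (s1 lf lf)) (s0 (s2
    (s1 lf lf) (s1 lf lf)) (s2 (s1 lf lf) lf)))) (s2 (s0 (s1 (s2 (s1 lf lf) (s1 lf lf)) (s2 (s0
    lf lf) (s0 lf lf))) (s1 (s2 (s1 lf lf) (s1 lf lf)) (s2 (s1 lf lf) lf))) (s0 (s1 (s2 lf lf)
    lf) (s1 (s2 lf lf) lf))))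
    ⟨79228162514264413239943941325, 15832967439975, 79228162514264379814790456934,
    28147497671066, 79228162514264381574009061375, 15832967439975⟩ (by decide +kernel)

theorem PM_2 : Hd QPM 79228162514264397406976501350 31665934879949 79228162514264379814790456934
    28147497671066 79228162514264413239943941325 15832967439975 :=
  okPM (s0 (s1 (s0 (s1 (s2 (s1 (s0 lf lf) lf) (s1 lf lf)) (s2 (s0 (s1 lf lf) lf) (s0 lf lf)))
    (s1 (s2 (s1 lf lf) (s1 lf lf)) (s2 (s1 lf lf) lf))) (s0 (s2 (s1 (s0 lf lf) (s0 lf lf)) (s1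
    lf lf)) (s2 (s1 lf lf) (s1 lf lf)))) (s1 (s1 (s2 (s0 (s1 lf lf) (s1 lf lf)) (s0 (s1 lf lf)
    (s1 lf lf))) (s2 (s0 (s1 lf lf) lf) (s0 lf lf))) (s2 (s0 (s1 lf lf) (s1 lf lf)) (s0 (s1 lf
    lf) (s1 lf lf)))))
    ⟨79228162514264397406976501350, 31665934879949, 79228162514264379814790456934,
    28147497671066, 79228162514264413239943941325, 15832967439975⟩ (by decide +kernel)

theorem PM_3 : Hd QPM 79228162514264397406976501350 31665934879949 79228162514264436109785799066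
    28147497671066 79228162514264381574009061375 15832967439975 :=
  okPM (s0 (s1 (s2 (s0 (s1 (s2 (s0 (s1 lf lf) lf) (s0 lf lf)) (s2 (s0 lf lf) (s0 lf lf))) (s1
    (s2 (s0 lf lf) (s0 lf lf)) (s2 (s0 lf lf) lf))) (s0 (s1 (s0 lf lf) (s0 lf lf)) (s1 (s2 lf
    lf) lf))) (s2 (s0 (s1 (s2 (s0 lf lf) (s0 lf lf)) (s2 (s0 lf lf) (s0 lf lf))) (s1 (s2 (s0 lf
    lf) lf) (s2 (s0 lf lf) lf))) (s0 (s1 (s0 lf lf) (s0 lf lf)) (s1 lf lf)))) (s1 (s2 (s0 (s1
    (s2 (s0 lf lf) lf) (s2 (s0 lf lf) lf)) (s1 (s2 (s0 lf lf) lf) (s2 lf lf))) (s0 (s1 lf lf)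
    (s1 lf lf))) (s2 (s0 (s1 (s2 lf lf) (s2 lf lf)) (s1 (s2 lf lf) (s2 lf lf))) (s0 (s1 lf lf)
    (s1 lf lf)))))
    ⟨79228162514264397406976501350, 31665934879949, 79228162514264436109785799066,
    28147497671066, 79228162514264381574009061375, 15832967439975⟩ (by decide +kernel)

theorem PM_4 : Hd QPM 79228162514264397406976501350 31665934879949 79228162514264436109785799066
    28147497671066 79228162514264413239943941325 15832967439975 :=
  okPM (s0 (s1 (s0 (s2 (s1 lf lf) (s1 lf lf)) (s2 (s1 lf lf) (s1 lf lf))) (s0 (s2 (s1 lf lf) (s1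
    lf lf)) (s2 (s1 lf lf) (s1 lf lf)))) (s1 (s2 (s0 (s1 lf lf) (s1 lf lf)) (s0 (s1 lf lf) (s1
    lf lf))) (s2 (s0 (s1 lf lf) (s1 lf lf)) (s0 (s1 lf lf) (s1 lf lf)))))
    ⟨79228162514264397406976501350, 31665934879949, 79228162514264436109785799066,
    28147497671066, 79228162514264413239943941325, 15832967439975⟩ (by decide +kernel)

end H41MK
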