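import Pool.Agent.H41.MK.Claims

/-! Branch and bound data, generated. -/

set_option maxRecDepth 100000

namespace H41MK

open H41FT Tr

theorem PM_5 : Hd QPM 79228162514264397406976501350 31665934879949 79228162514264379814790456934
    28147497671066 79228162514264460738846261248 31665934879949 :=
  okPM (s0 (s2 (s1 (s1 (s0 (s2 (s1 lf lf) (s1 lf lf)) (s2 (s1 lf lf) lf)) (s0 (s2 (s0 lf lf) lf)
    (s2 lf lf))) (s0 (s2 (s1 lf lf) (s1 lf lf)) (s2 (s1 lf lf) (s1 lf lf)))) (s1 (s1 (s0 (s1 lf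
    lf) (s1 lf lf)) (s0 lf lf)) (s0 (s1 lf lf) (s1 lf lf)))) (s2 (s1 (s1 (s2 (s0 (s1 lf lf) lf)
    (s1 lf lf)) (s2 (s0 lf lf) lf)) (s2 (s0 (s1 lf lf) (s1 lf lf)) (s0 (s1 lf lf) (s1 lf lf))))
    (s1 (s1 (s1 lf lf) (s0 lf lf)) (s0 (s1 lf lf) (s1 lf lf)))))
    ⟨79228162514264397406976501350, 31665934879949, 79228162514264379814790456934,
    28147497671066, 79228162514264460738846261248, 31665934879949⟩ (by decide +kernel)

theorem PM_6 : Hd QPM 79228162514264397406976501350 31665934879949 79228162514264436109785799066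
    28147497671066 79228162514264460738846261248 31665934879949 :=
  okPM (s0 (s2 (s1 (s0 (s2 (s1 lf lf) (s1 lf lf)) (s2 (s1 lf lf) (s1 lf lf))) (s0 (s2 (s1 lf lf)
    (s1 lf lf)) (s2 (s1 lf lf) (s1 lf lf)))) (s1 (s0 (s2 (s1 lf lf) (s1 lf lf)) (s2 (s1 lf lf)
    lf)) (s0 (s2 (s1 lf lf) (s1 lf lf)) (s2 (s1 lf lf) lf)))) (s2 (s1 (s0 (s2 (s1 lf lf) (s1 lf
    lf)) (s2 (s1 lf lf) (s1 lf lf))) (s0 (s2 (s1 lf lf) (s1 lf lf)) (s2 (s1 lf lf) (s1 lf lf))))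
    (s1 (s0 (s2 lf lf) (s2 lf lf)) (s0 (s2 lf lf) (s2 lf lf)))))
    ⟨79228162514264397406976501350, 31665934879949, 79228162514264436109785799066,
    28147497671066, 79228162514264460738846261248, 31665934879949⟩ (by decide +kernel)

theorem PM_7 : Hd QPM 79228162514264460738846261248 31665934879949 79228162514264379814790456934
    28147497671066 79228162514264381574009061375 15832967439975 :=
  okPM (s0 (s1 (s2 (s1 (s0 (s1 (s2 lf lf) lf) (s1 (s2 lf lf) lf)) (s0 (s2 (s1 lf lf) (s1 lf lf))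
    (s2 (s1 lf lf) (s1 lf lf)))) (s1 (s0 (s1 lf lf) (s1 lf lf)) (s0 (s2 (s1 lf lf) lf) (s1 lf
    lf)))) (s2 (s0 (s1 (s2 (s1 lf lf) (s1 lf lf)) (s2 (s1 lf lf) lf)) (s1 (s2 (s1 lf lf) lf) (s2
    (s1 lf lf) lf))) (s0 (s1 lf lf) (s1 lf lf)))) (s1 (s2 (s1 (s0 (s1 (s2 lf lf) lf) (s1 (s2 lf
    lf) lf)) (s0 (s2 (s1 lf lf) (s1 lf lf)) (s2 (s1 lf lf) (s1 lf lf)))) (s1 (s0 (s1 lf lf) (s1
    lf lf)) (s0 (s1 lf lf) (s1 lf lf)))) (s2 (s0 (s1 (s2 (s1 lf lf) lf) (s2 (s1 lf lf) lf)) (s1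
    (s2 (s1 lf lf) lf) (s2 (s1 lf lf) lf))) (s1 (s0 lf lf) (s0 lf lf)))))
    ⟨79228162514264460738846261248, 31665934879949, 79228162514264379814790456934,
    28147497671066, 79228162514264381574009061375, 15832967439975⟩ (by decide +kernel)

theorem PM_8 : Hd QPM 79228162514264460738846261248 31665934879949 79228162514264379814790456934
    28147497671066 79228162514264413239943941325 15832967439975 :=
  okPM (s0 (s1 (s1 (s2 (s0 (s1 lf lf) (s1 lf lf)) (s1 lf lf)) (s2 (s0 lf lf) (s0 lf lf))) (s2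
    (s1 (s0 lf lf) (s0 lf lf)) (s1 lf lf))) (s1 (s1 (s2 (s1 lf lf) (s1 lf lf)) (s2 (s0 lf lf)
    lf)) (s2 (s1 (s0 lf lf) lf) (s1 lf lf))))
    ⟨79228162514264460738846261248, 31665934879949, 79228162514264379814790456934,
    28147497671066, 79228162514264413239943941325, 15832967439975⟩ (by decide +kernel)

theorem PM_9 : Hd QPM 79228162514264460738846261248 31665934879949 79228162514264436109785799066
    28147497671066 79228162514264397406976501350 31665934879949 :=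
  okPM (s2 (s0 (s1 (s2 (s0 (s1 (s2 lf lf) (s2 lf lf)) (s1 (s2 lf lf) (s2 lf lf))) (s0 (s1 lf lf)
    (s1 lf lf))) (s2 (s0 (s1 (s2 lf lf) (s2 lf lf)) (s1 lf (s2 lf lf))) (s0 (s1 lf lf) (s1 lf
    lf)))) (s1 (s2 (s0 (s1 (s2 lf lf) (s2 lf lf)) (s1 (s2 lf lf) (s2 lf lf))) (s0 (s1 lf lf) (s1
    lf lf))) (s2 (s0 (s1 lf (s2 lf lf)) (s1 (s2 lf lf) (s2 lf lf))) (s0 (s1 lf lf) (s1 lf
    lf))))) (s0 (s1 (s2 (s0 (s1 lf lf) (s1 lf lf)) (s0 (s1 lf lf) (s1 lf lf))) (s2 (s0 (s1 lf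
    lf) (s1 lf lf)) (s0 (s1 lf lf) (s1 lf lf)))) (s1 (s2 (s0 (s1 lf lf) (s1 lf lf)) (s0 (s1 lf
    lf) (s1 lf lf))) (s2 (s0 (s1 lf lf) (s1 lf lf)) (s0 (s1 lf lf) (s1 lf lf))))))
    ⟨79228162514264460738846261248, 31665934879949, 79228162514264436109785799066,
    28147497671066, 79228162514264397406976501350, 31665934879949⟩ (by decide +kernel)

theorem PM_10 : Hd QPM 79228162514264460738846261248 31665934879949
    79228162514264407962288128000 56294995342132 79228162514264460738846261248 31665934879949 :=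
  okPM (s1 (s2 (s0 (s1 (s1 (s2 (s1 lf lf) (s1 lf lf)) (s2 lf lf)) (s2 (s1 lf lf) (s1 lf lf)))
    (s1 (s1 (s2 (s1 lf lf) lf) (s2 lf lf)) (s2 (s1 lf lf) (s1 lf lf)))) (s0 (s1 (s1 (s1 lf lf)
    lf) (s1 lf lf)) (s1 (s1 (s1 lf lf) lf) (s1 lf lf)))) (s2 (s0 (s1 (s2 (s0 (s1 lf lf) (s1 lf
    lf)) (s0 (s1 lf lf) (s1 lf lf))) (s2 (s0 (s1 lf lf) (s1 lf lf)) (s0 (s1 lf lf) (s1 lf lf))))
    (s1 (s2 (s0 (s1 lf lf) (s1 lf lf)) (s0 (s1 lf lf) (s1 lf lf))) (s2 (s0 (s1 lf lf) (s1 lf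
    lf)) (s0 (s1 lf lf) (s1 lf lf))))) (s0 (s1 (s2 (s0 lf lf) (s0 lf lf)) (s2 (s0 lf lf) (s0 lf
    lf))) (s1 (s2 (s0 lf lf) (s0 lf lf)) (s2 (s0 lf (s1 lf lf)) (s0 lf lf))))))
    ⟨79228162514264460738846261248, 31665934879949, 79228162514264407962288128000,
    56294995342132, 79228162514264460738846261248, 31665934879949⟩ (by decide +kernel)

end H41MK
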