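import Pool.Agent.H41.MK.Claims

/-! Branch and bound data, generated. -/

set_option maxRecDepth 100000

namespace H41MK

open H41FT Tr

theorem PM_16 : Hd QPM 79228162514264587402585781044 31665934879949
    79228162514264379814790456934 28147497671066 79228162514264381574009061375 15832967439975 :=
  okPM (s0 (s1 (s2 (s1 (s0 (s1 (s2 lf lf) lf) (s1 (s2 lf lf) lf)) (s0 (s2 (s1 lf lf) (s1 lf lf))
    (s2 (s1 lf lf) (s1 lf lf)))) (s1 (s0 (s1 lf lf) (s1 lf lf)) (s0 (s2 (s1 lf lf) lf) (s2 (s1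
    lf lf) lf)))) (s2 (s0 (s1 (s2 (s1 lf lf) (s1 lf lf)) (s2 (s1 lf lf) lf)) (s1 (s2 (s1 lf lf)
    (s1 lf lf)) (s2 (s1 lf lf) lf))) (s0 (s1 lf lf) (s1 lf lf)))) (s1 (s2 (s1 (s0 (s1 (s2 lf lf)
    lf) (s1 (s2 lf lf) lf)) (s0 (s2 (s1 lf lf) (s1 lf lf)) (s2 (s1 lf lf) (s1 lf lf)))) (s1 (s0
    (s1 lf lf) (s1 lf lf)) (s0 (s2 (s1 lf lf) lf) (s2 (s1 lf lf) lf)))) (s2 (s0 (s1 (s2 (s1 lf
    lf) (s1 lf lf)) (s2 (s1 lf lf) lf)) (s1 (s2 (s1 lf lf) (s1 lf lf)) (s2 (s1 lf lf) lf))) (s0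
    (s1 lf lf) (s1 lf lf)))))
    ⟨79228162514264587402585781044, 31665934879949, 79228162514264379814790456934,
    28147497671066, 79228162514264381574009061375, 15832967439975⟩ (by decide +kernel)

theorem PM_17 : Hd QPM 79228162514264587402585781044 31665934879949
    79228162514264379814790456934 28147497671066 79228162514264413239943941325 15832967439975 :=
  okPM (s0 (s1 (s1 (s2 (s1 lf lf) (s1 lf lf)) (s2 (s0 lf lf) lf)) (s2 (s1 (s0 lf lf) lf) (s1 lf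
    lf))) (s1 (s1 (s2 (s1 lf lf) (s1 lf lf)) (s2 (s0 lf lf) lf)) (s2 (s1 (s0 lf lf) lf) (s1 lf
    lf))))
    ⟨79228162514264587402585781044, 31665934879949, 79228162514264379814790456934,
    28147497671066, 79228162514264413239943941325, 15832967439975⟩ (by decide +kernel)

theorem PM_18 : Hd QPM 79228162514264587402585781044 31665934879949
    79228162514264436109785799066 28147497671066 79228162514264397406976501350 31665934879949 :=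
  okPM (s2 (s0 (s1 (s2 (s0 (s1 (s2 (s1 lf lf) lf) (s2 (s1 lf lf) lf)) (s1 (s2 (s1 lf lf) lf) (s2
    (s1 lf lf) lf))) (s0 (s1 lf lf) (s1 lf lf))) (s2 (s0 (s1 (s2 (s1 lf lf) lf) (s2 (s1 lf lf)
    lf)) (s1 (s2 (s1 lf lf) lf) (s2 (s1 lf lf) lf))) (s0 (s1 lf lf) (s1 lf lf)))) (s1 (s2 (s0
    (s1 (s2 (s1 lf lf) lf) (s2 (s1 lf lf) lf)) (s1 (s2 (s1 lf lf) lf) (s2 (s1 lf lf) lf))) (s0
    (s1 lf lf) (s1 lf lf))) (s2 (s0 (s1 (s2 (s1 lf lf) lf) (s2 (s1 lf lf) lf)) (s1 (s2 (s1 lf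
    lf) lf) (s2 (s1 lf lf) (s1 lf lf)))) (s0 (s1 lf lf) (s1 lf lf))))) (s0 (s1 (s2 (s0 (s1 lf
    lf) (s1 lf lf)) (s0 (s1 lf lf) (s1 lf lf))) (s2 (s0 (s1 lf lf) (s1 lf lf)) (s0 (s1 lf lf)
    (s1 lf lf)))) (s1 (s2 (s0 (s1 lf lf) (s1 lf lf)) (s0 (s1 lf lf) (s1 lf lf))) (s2 (s0 (s1 lf
    lf) (s1 lf lf)) (s0 (s1 lf lf) (s1 lf lf))))))
    ⟨79228162514264587402585781044, 31665934879949, 79228162514264436109785799066,
    28147497671066, 79228162514264397406976501350, 31665934879949⟩ (by decide +kernel)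

theorem PM_19 : Hd QPM 79228162514264587402585781044 31665934879949
    79228162514264407962288128000 56294995342132 79228162514264460738846261248 31665934879949 :=
  okPM (s1 (s2 (s0 (s1 (s1 (s2 (s1 lf lf) lf) lf) (s2 (s1 lf lf) (s1 lf lf))) (s1 (s1 (s2 (s1 lf
    lf) lf) lf) (s2 (s1 lf lf) (s1 lf lf)))) (s0 (s1 (s1 lf lf) (s2 (s1 lf lf) (s1 lf lf))) (s1
    (s1 lf lf) (s2 (s1 lf lf) (s1 lf lf))))) (s2 (s0 (s1 (s2 (s0 (s1 lf lf) (s1 lf lf)) (s0 (s1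
    lf lf) (s1 lf lf))) (s2 (s0 (s1 lf lf) (s1 lf lf)) (s0 (s1 lf lf) (s1 lf lf)))) (s1 (s2 (s0
    (s1 lf lf) (s1 lf lf)) (s0 (s1 lf lf) (s1 lf lf))) (s2 (s0 (s1 lf lf) (s1 lf lf)) (s0 (s1 lf
    lf) (s1 lf lf))))) (s0 (s1 (s2 (s0 (s1 lf lf) (s1 lf lf)) (s0 lf (s1 lf lf))) (s2 (s0 (s1 lf
    lf) (s1 lf lf)) (s1 lf lf))) (s1 (s2 (s0 (s1 lf lf) (s1 lf lf)) (s0 (s1 lf lf) (s1 lf lf)))
    (s2 (s0 (s1 lf lf) (s1 lf lf)) (s1 lf lf))))))
    ⟨79228162514264587402585781044, 31665934879949, 79228162514264407962288128000,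
    56294995342132, 79228162514264460738846261248, 31665934879949⟩ (by decide +kernel)

theorem PM_20 : Hd QPM 79228162514264524070716021146 31665934879949
    79228162514264407962288128000 56294995342132 79228162514264555736650901095 63331869759898 :=
  okPM (s2 (s1 (s2 (s1 (s0 (s1 lf lf) (s1 lf lf)) (s0 (s1 lf lf) (s1 lf lf))) (s1 (s0 (s1 lf lf)
    (s1 lf lf)) (s0 (s1 lf lf) (s1 lf lf)))) (s2 (s0 (s1 (s2 (s0 lf lf) lf) (s2 (s1 lf lf) (s1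
    lf lf))) (s1 (s2 (s0 lf lf) lf) (s1 lf lf))) (s0 (s1 (s2 lf lf) (s1 lf lf)) (s1 (s2 lf lf)
    (s1 lf lf))))) (s1 (s1 (s0 (s1 lf lf) (s1 lf lf)) (s0 (s2 lf lf) (s2 lf lf))) (s0 (s2 (s1 lf
    (s1 lf lf)) (s1 lf lf)) (s2 (s1 lf (s1 lf lf)) (s1 lf (s1 lf lf))))))
    ⟨79228162514264524070716021146, 31665934879949, 79228162514264407962288128000,
    56294995342132, 79228162514264555736650901095, 63331869759898⟩ (by decide +kernel)

end H41MK
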