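import Pool.Agent.H41.MK.Claims

/-! Branch and bound data, generated. -/

set_option maxRecDepth 100000

namespace H41MK

open H41FT Tr

theorem PM_21 : Hd QPM 79228162514264587402585781044 31665934879949
    79228162514264407962288128000 56294995342132 79228162514264555736650901095 63331869759898 :=
  okPM (s2 (s1 (s2 (s0 (s1 (s1 lf lf) (s1 lf lf)) (s1 (s1 lf lf) (s1 lf lf))) (s1 (s0 (s1 lf lf)
    (s1 lf lf)) (s0 (s1 lf lf) (s1 lf lf)))) (s2 (s0 (s1 (s2 (s0 lf lf) (s0 lf lf)) (s1 lf (s0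
    lf lf))) (s1 (s2 (s0 lf (s1 lf lf)) (s1 lf lf)) (s1 lf (s0 lf lf)))) (s0 (s1 (s2 lf lf) (s1
    lf lf)) (s1 (s2 (s1 lf lf) lf) (s1 lf (s0 lf lf)))))) (s1 (s1 (s2 (s1 lf lf) (s1 lf lf)) (s2
    (s0 lf lf) (s0 lf lf))) (s0 (s2 (s1 lf (s1 lf lf)) (s1 lf (s1 lf lf))) (s2 (s1 (s1 lf lf)
    (s1 lf (s1 lf lf))) (s1 lf (s1 lf lf))))))
    ⟨79228162514264587402585781044, 31665934879949, 79228162514264407962288128000,
    56294995342132, 79228162514264555736650901095, 63331869759898⟩ (by decide +kernel)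

theorem PN_0 : Hd QPN 79228162514264381574009061375 15832967439975 79228162514264495923218350080
    31665934879949 79228162514264397406976501350 31665934879949 :=
  okPN (s2 (s1 (s0 (s2 (s1 (s2 (s0 lf lf) (s0 lf lf)) (s0 (s2 lf lf) lf)) (s1 (s0 lf lf) (s0 lf
    lf))) (s2 (s1 (s2 (s0 lf lf) (s0 lf lf)) (s2 (s0 lf lf) (s0 lf lf))) (s1 (s2 lf lf) (s0 lf
    lf)))) (s0 (s2 (s1 (s0 (s2 lf lf) lf) (s0 lf lf)) (s1 (s0 lf lf) (s0 lf lf))) (s2 (s1 (s2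
    (s0 lf lf) (s0 lf lf)) (s2 (s0 lf lf) (s0 lf lf))) (s1 (s0 lf lf) (s0 lf lf))))) (s1 (s0 (s2
    (s1 (s0 lf lf) (s0 lf lf)) (s1 lf lf)) (s2 (s1 lf lf) (s1 lf lf))) (s0 (s2 (s1 (s0 lf lf)
    (s0 lf lf)) (s1 lf lf)) (s2 (s1 lf lf) (s1 lf lf)))))
    ⟨79228162514264381574009061375, 15832967439975, 79228162514264495923218350080,
    31665934879949, 79228162514264397406976501350, 31665934879949⟩ (by decide +kernel)

theorem PN_1 : Hd QPN 79228162514264413239943941325 15832967439975 79228162514264495923218350080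
    31665934879949 79228162514264397406976501350 31665934879949 :=
  okPN (s2 (s1 (s2 (s0 (s1 (s2 (s0 lf lf) lf) (s2 (s0 lf lf) lf)) (s1 (s2 (s0 lf lf) lf) (s2 (s0
    lf lf) lf))) (s0 (s1 lf lf) (s1 lf lf))) (s2 (s0 (s1 (s2 (s0 lf lf) lf) (s2 (s0 lf lf) lf))
    (s1 (s2 (s0 lf lf) lf) (s2 (s0 lf lf) lf))) (s0 (s1 lf lf) (s1 lf lf)))) (s1 (s0 (s2 (s1 lf
    lf) (s1 lf lf)) (s2 (s1 lf lf) (s1 lf lf))) (s0 (s2 (s1 lf lf) (s1 lf lf)) (s2 (s1 lf lf)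
    (s1 lf lf)))))
    ⟨79228162514264413239943941325, 15832967439975, 79228162514264495923218350080,
    31665934879949, 79228162514264397406976501350, 31665934879949⟩ (by decide +kernel)

theorem PN_2 : Hd QPN 79228162514264397406976501350 31665934879949 79228162514264495923218350080
    31665934879949 79228162514264460738846261248 31665934879949 :=
  okPN (s0 (s2 (s1 (s0 (s2 (s1 lf lf) (s1 lf lf)) (s2 (s1 lf lf) (s1 lf lf))) (s0 (s2 (s1 lf lf)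
    (s1 lf lf)) (s2 (s1 lf lf) (s1 lf lf)))) (s1 (s0 (s2 (s1 lf lf) (s1 lf lf)) (s2 (s1 lf lf)
    (s1 lf lf))) (s0 (s2 (s1 lf lf) (s1 lf lf)) (s2 (s1 lf lf) (s1 lf lf))))) (s2 (s1 (s0 (s2
    (s1 lf lf) (s1 lf lf)) (s2 (s1 lf lf) (s1 lf lf))) (s0 (s2 (s1 lf lf) (s1 lf lf)) (s1 lf
    lf))) (s1 (s0 (s2 (s1 lf lf) (s1 lf lf)) (s2 (s1 lf lf) (s1 lf lf))) (s0 (s2 (s1 lf lf) (s1
    lf lf)) (s2 (s1 lf lf) (s1 lf lf))))))
    ⟨79228162514264397406976501350, 31665934879949, 79228162514264495923218350080,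
    31665934879949, 79228162514264460738846261248, 31665934879949⟩ (by decide +kernel)

theorem PN_3 : Hd QPN 79228162514264397406976501350 31665934879949 79228162514264559255088109978
    31665934879949 79228162514264429072911381299 63331869759898 :=
  okPN (s2 (s0 (s2 (s1 (s0 (s2 (s1 (s0 lf lf) (s0 lf lf)) (s1 (s0 lf lf) (s0 lf lf))) (s2 (s1
    (s2 (s0 lf lf) (s0 lf lf)) (s2 (s0 lf lf) (s0 lf lf))) (s1 (s0 lf lf) (s0 lf lf)))) (s0 (s2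
    (s1 (s0 lf lf) (s0 lf (sk 0))) (s1 (s0 lf lf) (s0 lf (sk 0)))) (s2 (s1 (sk 0) (sk 0)) (s1
    (sk 0) (sk 0))))) (s1 (s0 (s2 (s1 (s0 lf lf) (s0 lf lf)) (s1 lf lf)) (s2 (s1 lf lf) (s1 lf
    lf))) (s0 (s1 (s2 (s0 lf lf) lf) (s2 (s0 lf (sk 0)) lf)) (s1 (sk 0) (sk 0))))) (s2 (s1 (s2
    (s0 (s1 (s2 (s0 lf lf) lf) (s2 (s0 lf (sk 0)) (s0 lf (sk 0)))) (s1 (s2 (s0 lf (sk 0)) lf)
    (sk 0))) (s0 (s1 lf (s0 lf (sk 0))) (s1 lf (sk 0)))) (sk 0)) (s1 (s0 (s1 (s2 lf lf) (s2 lf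
    lf)) (s1 (s2 lf lf) (sk 0))) (sk 0)))) (s0 (s1 (s2 (s0 (s1 (s2 lf lf) (s2 lf lf)) (s1 lf
    lf)) (s0 (s1 lf lf) (s1 lf lf))) (s2 (s0 (s1 (s2 lf lf) (s2 lf lf)) (s1 (sk 0) (sk 0))) (s0
    (s2 (s1 lf lf) (s1 lf lf)) (s2 (s1 (sk 0) (sk 0)) (s1 (sk 0) (sk 0)))))) (s1 (s2 (s0 (s1 lf
    lf) (s1 lf (sk 0))) (s0 (s1 lf lf) (s1 lf (sk 0)))) (sk 0))))
    ⟨79228162514264397406976501350, 31665934879949, 79228162514264559255088109978,
    31665934879949, 79228162514264429072911381299, 63331869759898⟩ (by decide +kernel)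

theorem PN_4 : Hd QPN 79228162514264460738846261248 31665934879949 79228162514264495923218350080
    31665934879949 79228162514264397406976501350 31665934879949 :=
  okPN (s2 (s1 (s0 (s2 (s1 (s0 (s2 (s1 lf lf) lf) (s2 (s1 lf lf) lf)) (s0 (s2 (s1 lf lf) lf) (s2
    (s1 lf lf) lf))) (s1 (s0 lf lf) (s0 lf lf))) (s2 (s1 (s0 (s2 (s1 lf lf) lf) (s2 (s1 lf lf)
    lf)) (s0 (s2 (s1 lf lf) lf) (s2 (s1 lf lf) lf))) (s1 (s0 lf lf) (s0 lf lf)))) (s0 (s2 (s1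
    (s0 (s2 (s1 lf lf) lf) (s2 (s1 lf lf) lf)) (s0 (s2 (s1 lf lf) lf) (s2 (s1 lf (sk 0)) lf)))
    (s1 (s0 lf lf) (s0 lf lf))) (s2 (s1 (s0 (s2 (s1 lf lf) lf) (s2 (s1 lf (sk 0)) lf)) (sk 0))
    (s1 (s0 lf lf) (sk 0))))) (s0 (s1 (s2 (s0 (s1 lf lf) (s1 lf lf)) (s0 (s1 lf lf) (s1 lf lf)))
    (s0 (s2 (s1 lf lf) (s1 lf lf)) (s1 lf (s2 lf lf)))) (s1 (s2 (s1 (s0 lf lf) (s0 lf lf)) (s1
    (s0 lf lf) (s0 lf lf))) (s1 (s2 (s0 lf lf) (s0 lf lf)) (sk 0)))))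
    ⟨79228162514264460738846261248, 31665934879949, 79228162514264495923218350080,
    31665934879949, 79228162514264397406976501350, 31665934879949⟩ (by decide +kernel)

end H41MK
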