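import Pool.Agent.H41.MK.Claims

/-! Branch and bound data, generated. -/

set_option maxRecDepth 100000

namespace H41MK

open H41FT Tr

theorem PN_5 : Hd QPN 79228162514264460738846261248 31665934879949 79228162514264495923218350080
    31665934879949 79228162514264460738846261248 31665934879949 :=
  okPN (s0 (s2 (s1 (s2 (s0 (s1 lf lf) (s1 lf lf)) (s0 (s1 lf lf) (s1 lf lf))) (s0 (s1 lf lf) (s1
    lf lf))) (s1 (s0 (s2 (s1 lf lf) (s1 lf lf)) (s2 (s1 lf lf) (s1 lf lf))) (s0 (s1 lf lf) (s1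
    lf lf)))) (s2 (s1 (s2 (s1 lf (s0 lf lf)) (s0 (s1 lf lf) (s1 lf lf))) (s1 (s0 lf lf) (sk 0)))
    (s1 (s2 (s0 (s1 lf lf) (s1 lf lf)) (s0 (s1 lf lf) (s1 lf lf))) (s0 (s1 lf (sk 0)) (s1 lf (sk
    0))))))
    ⟨79228162514264460738846261248, 31665934879949, 79228162514264495923218350080,
    31665934879949, 79228162514264460738846261248, 31665934879949⟩ (by decide +kernel)

theorem PN_6 : Hd QPN 79228162514264460738846261248 31665934879949 79228162514264559255088109978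
    31665934879949 79228162514264429072911381299 63331869759898 :=
  okPN (s2 (s0 (sk 0) (sk 0)) (s0 (sk 0) (sk 0)))
    ⟨79228162514264460738846261248, 31665934879949, 79228162514264559255088109978,
    31665934879949, 79228162514264429072911381299, 63331869759898⟩ (by decide +kernel)

theorem PN_7 : Hd QPN 79228162514264397406976501350 31665934879949 79228162514264495923218350080
    31665934879949 79228162514264555736650901095 63331869759898 :=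
  okPN (s2 (s0 (s1 (s2 (s0 (s2 (s1 lf lf) (s1 lf lf)) (s2 (s1 lf lf) lf)) (s0 (s1 lf lf) (s1 lf
    lf))) (s2 (s0 (s1 lf lf) (s1 lf lf)) (s0 (s1 lf lf) (s1 lf lf)))) (s1 (s2 (s0 (s2 lf lf) (s2
    lf lf)) (s0 (s1 lf lf) (s1 lf lf))) (s2 (s0 (s1 lf lf) (s1 lf lf)) (s0 (s1 lf lf) (s1 lf
    lf))))) (s0 (s1 (s2 (s0 (s1 lf lf) lf) (s0 (s2 lf lf) (s1 lf lf))) (s2 (s0 (s1 lf lf) (s1 lf
    lf)) (s0 (s1 lf lf) (s1 lf lf)))) (s1 (s2 (s0 lf lf) (s0 lf lf)) (s2 (s0 (s1 lf lf) (s1 lf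
    lf)) (s1 lf (s0 lf lf))))))
    ⟨79228162514264397406976501350, 31665934879949, 79228162514264495923218350080,
    31665934879949, 79228162514264555736650901095, 63331869759898⟩ (by decide +kernel)

theorem PN_8 : Hd QPN 79228162514264397406976501350 31665934879949 79228162514264559255088109978
    31665934879949 79228162514264555736650901095 63331869759898 :=
  okPN (s2 (s0 (s2 (s1 (s0 (s2 (s1 lf lf) (s1 lf lf)) (s2 (s1 lf lf) (s1 lf lf))) (s0 (s2 (s1 lf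
    lf) (s1 lf lf)) (s2 (s1 (sk 0) (sk 0)) (s1 (sk 0) (sk 0))))) (s1 (s0 (s1 lf (s2 lf lf)) (s1
    lf lf)) (s0 (s2 (s1 lf lf) (s1 lf lf)) (s2 (s1 (sk 0) (sk 0)) (s1 (sk 0) (sk 0)))))) (s2 (s1
    (s0 (s2 (s1 lf lf) (s1 lf lf)) (s2 (s1 lf (sk 0)) (s1 lf (sk 0)))) (sk 0)) (s1 (s0 (s1 lf
    lf) (s2 (s1 lf (sk 0)) (s1 lf (sk 0)))) (sk 0)))) (s0 (s1 (s2 (s0 (s1 lf (s2 lf lf)) (s1 lf
    lf)) (s0 (s1 (s2 lf lf) (s2 lf (s0 lf lf))) (s1 lf (s2 lf lf)))) (s2 (s0 (s2 (s1 lf (s0 lf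
    (sk 0))) (s1 (s0 lf lf) (s0 lf (sk 0)))) (s2 (s1 (sk 0) (sk 0)) (s1 (sk 0) (sk 0)))) (s0 (s1
    (s2 (s0 lf lf) (s0 lf lf)) (s2 (s0 (s2 lf lf) (sk 0)) (s2 (s1 lf (sk 0)) (s1 lf (sk 0)))))
    (s1 (sk 0) (sk 0))))) (s1 (s2 (s1 (s0 lf lf) (s2 (s0 lf (sk 0)) (s0 lf (sk 0)))) (s1 (s0 lf
    lf) (s2 (s0 lf (sk 0)) (s0 lf (sk 0))))) (sk 0))))
    ⟨79228162514264397406976501350, 31665934879949, 79228162514264559255088109978,
    31665934879949, 79228162514264555736650901095, 63331869759898⟩ (by decide +kernel)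

theorem PN_9 : Hd QPN 79228162514264460738846261248 31665934879949 79228162514264527589153230029
    63331869759898 79228162514264555736650901095 63331869759898 :=
  okPN (s1 (s2 (s1 (s0 (s2 (s0 (s2 lf lf) (s2 lf lf)) (s0 (s1 lf lf) (s1 lf lf))) (s2 (s1 lf lf)
    (s1 lf lf))) (s0 (s2 (s0 (s1 lf lf) (s1 lf lf)) (s1 lf (s0 lf lf))) (s2 (s2 (s0 (s1 lf (sk
    0)) (s1 lf (sk 0))) (s1 lf (sk 0))) (s1 lf (sk 0))))) (s1 (s0 (s2 (s1 lf lf) (s1 lf lf)) (s2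
    (s1 lf lf) (s1 lf lf))) (s0 (s2 (s1 lf (s0 lf lf)) (s1 lf (s0 lf lf))) (s2 (s1 lf (sk 0))
    (s1 lf (sk 0)))))) (s2 (s2 (s0 (sk 0) (sk 0)) (s0 (sk 0) (sk 0))) (s2 (s1 (sk 0) (sk 0)) (s1
    (sk 0) (sk 0)))))
    ⟨79228162514264460738846261248, 31665934879949, 79228162514264527589153230029,
    63331869759898, 79228162514264555736650901095, 63331869759898⟩ (by decide +kernel)

theorem PN_10 : Hd QPN 79228162514264555736650901095 63331869759898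
    79228162514264527589153230029 63331869759898 79228162514264492404781141197 126663739519796
    :=
  okPN (s2 (s0 (s1 (s2 (s2 (s1 (s0 (s2 (s1 (s0 (s2 (s1 lf lf) lf) (s2 (s1 lf lf) lf)) (s0 (s2
    (s1 lf lf) lf) (s2 (s1 lf (sk 0)) lf))) (s1 (s0 lf lf) (s0 lf lf))) (s2 (s1 (s0 (s2 (s1 lf
    lf) lf) (s2 (s1 lf lf) (s1 lf lf))) (sk 0)) (s1 (s0 lf lf) (sk 0)))) (sk 0)) (s1 (s0 (s2 (s1
    (s0 lf lf) (s0 lf lf)) (s1 (s0 lf lf) (s0 lf lf))) (s1 (s2 (s0 lf lf) (s0 lf lf)) (sk 0)))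
    (sk 0))) (s1 (s2 (s0 (s1 (s2 lf lf) (s0 lf lf)) (s1 (s2 lf lf) (sk 0))) (s0 (s2 (s0 (s1 lf
    lf) (s1 lf lf)) (s0 (s1 lf lf) (s1 lf lf))) (s0 (s2 (s1 lf (sk 0)) (s1 lf (sk 0))) (s1 lf
    (sk 0))))) (sk 0))) (sk 0)) (s1 (s2 (s0 (s2 (s1 (s2 (s1 (s0 (s2 (s1 lf (sk 0)) (s1 lf (sk
    0))) (s2 (s1 lf (sk 0)) (s1 lf (sk 0)))) (sk 0)) (s1 (s0 (s2 lf lf) (s2 lf lf)) (sk 0))) (sk
    0)) (s1 (s1 (s2 (s0 lf lf) (s0 lf lf)) (sk 0)) (sk 0))) (sk 0)) (s0 (s1 (s2 (s1 (s2 (s0 lf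
    lf) lf) (sk 0)) (s1 (s0 lf lf) (sk 0))) (sk 0)) (sk 0))) (sk 0))) (s0 (s1 (s2 (s1 (s2 (s0
    (s1 lf lf) (s1 lf (sk 0))) (s0 (s1 lf lf) (s1 lf (sk 0)))) (sk 0)) (s1 (s0 (s2 (s1 lf lf)
    (s1 lf lf)) (s2 (s1 lf (sk 0)) (s1 lf (sk 0)))) (sk 0))) (sk 0)) (s1 (s2 (s2 (s1 (s0 (s2 (s0
    (s1 lf (sk 0)) (s1 lf (sk 0))) (s1 lf (sk 0))) (sk 0)) (sk 0)) (s1 (s0 (s1 lf (sk 0)) (sk
    0)) (sk 0))) (s1 (s0 (s2 (s1 lf (sk 0)) (s1 lf (sk 0))) (sk 0)) (sk 0))) (sk 0))))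
    ⟨79228162514264555736650901095, 63331869759898, 79228162514264527589153230029,
    63331869759898, 79228162514264492404781141197, 126663739519796⟩ (by decide +kernel)

theorem PX_0 : Hd QPX 79228162514264346037793251656 8444249301320 79228162514264604994771825459
    14073748835533 79228162514264604994771825459 14073748835533 :=
  okPX (s2 (s1 lf lf) (s1 lf lf))
    ⟨79228162514264346037793251656, 8444249301320, 79228162514264604994771825459,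
    14073748835533, 79228162514264604994771825459, 14073748835533⟩ (by decide +kernel)

end H41MK
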