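import Pool.Agent.H41.MK.Claims

/-! Branch and bound data, generated. -/

set_option maxRecDepth 100000

namespace H41MK

open H41FT Tr

theorem YH_17 : Hd QYH 79228162514264351667292785869 14073748835533
    79228162514264460738846261248 17592186044416 79228162514264580541633223723 28675263252399 :=
  okYH (s2 (s0 (s1 (s2 (s0 (s1 lf lf) lf) lf) (s2 lf lf)) (s1 (s2 lf lf) lf)) (s0 (s2 (s1 (s0 lf
    lf) (s0 lf lf)) (s1 (s0 (s2 lf lf) lf) (s0 (s2 lf lf) lf))) (s2 (s1 lf lf) (s1 lf lf))))
    ⟨79228162514264351667292785869, 14073748835533, 79228162514264460738846261248,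
    17592186044416, 79228162514264580541633223723, 28675263252399⟩ (by decide +kernel)

theorem YH_18 : Hd QYH 79228162514264351667292785869 14073748835533
    79228162514264513515404394496 35184372088832 79228162514264437165316961730 57350526504797 :=
  okYH (s2 (sk 0) (s1 (sk 0) (s2 (sk 0) (s1 (s2 (sk 0) (s1 (s0 lf (s2 (sk 0) lf)) (s0 lf lf)))
    (s2 (s1 (s0 lf lf) lf) (s1 lf lf))))))
    ⟨79228162514264351667292785869, 14073748835533, 79228162514264513515404394496,
    35184372088832, 79228162514264437165316961730, 57350526504797⟩ (by decide +kernel)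

theorem YH_19 : Hd QYH 79228162514264351667292785869 14073748835533
    79228162514264583884148572160 35184372088832 79228162514264437165316961730 57350526504797 :=
  okYH (s2 (s1 (s2 (sk 0) (s1 (sk 0) (s2 (sk 0) (s0 lf lf)))) (s2 (s1 (s2 (sk 0) (s1 (sk 0) (s0
    lf lf))) (s2 (s1 (s0 lf lf) lf) lf)) (s1 (s2 (s0 lf lf) lf) lf))) (s1 (s2 (s1 (s2 (s1 (sk 0)
    (s0 lf lf)) (s1 (s0 lf lf) lf)) (s2 (s0 lf lf) lf)) (s1 (s2 lf lf) lf)) (s2 (s1 lf lf) (s1
    lf lf))))
    ⟨79228162514264351667292785869, 14073748835533, 79228162514264583884148572160,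
    35184372088832, 79228162514264437165316961730, 57350526504797⟩ (by decide +kernel)

theorem YH_20 : Hd QYH 79228162514264351667292785869 14073748835533
    79228162514264513515404394496 35184372088832 79228162514264523191106718925 28675263252399 :=
  okYH (s1 (s2 (s1 (s2 (sk 0) (s0 (s1 (s2 (sk 0) (s0 lf lf)) (s2 lf lf)) (s1 (s2 (sk 0) lf)
    lf))) (s2 (s1 (s2 (sk 0) (s0 lf lf)) (s0 lf lf)) (s0 lf lf))) (s1 (s0 (s2 (s1 lf lf) lf) (s2
    lf lf)) (s0 lf lf))) (s2 (s1 (s2 (s1 (s0 lf lf) lf) (s0 lf lf)) (s2 lf lf)) (s1 (s0 lf lf)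
    (s0 lf lf))))
    ⟨79228162514264351667292785869, 14073748835533, 79228162514264513515404394496,
    35184372088832, 79228162514264523191106718925, 28675263252399⟩ (by decide +kernel)

theorem YH_21 : Hd QYH 79228162514264351667292785869 14073748835533
    79228162514264513515404394496 35184372088832 79228162514264580541633223723 28675263252399 :=
  okYH (s1 (s2 (s0 (s1 (s2 lf lf) (s2 lf lf)) (s1 lf lf)) (s0 (s2 (s1 (s0 lf lf) (s0 lf lf)) (s0
    (s2 lf (s1 lf lf)) (s2 lf lf))) (s2 lf (s0 lf lf)))) (s2 (s0 (s2 lf (s1 lf lf)) (s1 lf lf))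
    (s0 (s2 (s0 lf lf) (s0 (s2 lf (s0 lf lf)) (s2 lf lf))) (s2 lf (s0 lf lf)))))
    ⟨79228162514264351667292785869, 14073748835533, 79228162514264513515404394496,
    35184372088832, 79228162514264580541633223723, 28675263252399⟩ (by decide +kernel)

end H41MK
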