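import Pool.Agent.H41.MK.Claims

/-! Branch and bound data, generated. -/

set_option maxRecDepth 100000

namespace H41MK

open H41FT Tr

theorem YH_22 : Hd QYH 79228162514264351667292785869 14073748835533
    79228162514264583884148572160 35184372088832 79228162514264523191106718925 28675263252399 :=
  okYH (s1 (s2 (s1 (s0 lf lf) lf) (s1 (s0 lf lf) (s0 lf lf))) (s2 (s1 lf lf) (s1 (s0 lf lf) (s2
    lf (s0 lf lf)))))
    ⟨79228162514264351667292785869, 14073748835533, 79228162514264583884148572160,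
    35184372088832, 79228162514264523191106718925, 28675263252399⟩ (by decide +kernel)

theorem YH_23 : Hd QYH 79228162514264351667292785869 14073748835533
    79228162514264583884148572160 35184372088832 79228162514264580541633223723 28675263252399 :=
  okYH (s1 (s2 (s0 (s2 lf lf) lf) (s0 (s2 (s0 lf lf) (s0 (s2 lf (s0 lf lf)) lf)) (s2 lf (s0 lf
    lf)))) (s2 (s0 (s2 lf lf) lf) (s0 (s2 (s0 lf lf) (s1 (s0 (s2 lf lf) lf) (s0 (s2 lf lf) lf)))
    (s2 lf (s0 lf lf)))))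
    ⟨79228162514264351667292785869, 14073748835533, 79228162514264583884148572160,
    35184372088832, 79228162514264580541633223723, 28675263252399⟩ (by decide +kernel)

theorem YI_0 : Hd QYI 79228162514264351667292785869 14073748835533 79228162514264407962288128000
    70368744177664 79228162514264614142708568556 4925812092437 :=
  okYI (s1 (s1 (s0 (s0 lf lf) lf) (s0 lf lf)) (s1 (s0 lf lf) (s0 lf lf)))
    ⟨79228162514264351667292785869, 14073748835533, 79228162514264407962288128000,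
    70368744177664, 79228162514264614142708568556, 4925812092437⟩ (by decide +kernel)

theorem YI_1 : Hd QYI 79228162514264351667292785869 14073748835533 79228162514264548699776483328
    70368744177664 79228162514264614142708568556 4925812092437 :=
  okYI (s1 (s1 (s0 lf lf) (s0 lf lf)) (s1 (s0 lf lf) (s0 (s0 lf lf) lf)))
    ⟨79228162514264351667292785869, 14073748835533, 79228162514264548699776483328,
    70368744177664, 79228162514264614142708568556, 4925812092437⟩ (by decide +kernel)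

theorem YE_0 : Hd QYE 79228162514264436109785799066 70368744177665 79228162514264460738846261248
    52776558133248 79228162514264439628223007948 59813432551015 :=
  okYE (s0 (s2 (s1 (s0 (sk 0) (sk 0)) (s0 (s2 (sk 0) (sk 0)) (sk 0))) (s1 (s0 (s2 (sk 0) (s1 (sk
    0) (sk 0))) (sk 0)) (s0 (s2 (s1 (sk 0) (s0 (sk 0) (sk 0))) (s1 (s0 (sk 0) (sk 0)) (s2 (s0
    (sk 0) (sk 0)) (s1 (s0 (sk 0) (sk 0)) (s0 (s2 (sk 0) (s1 (sk 0) (s0 lf lf))) (s2 (sk 0) (s1
    (sk 0) (s2 (sk 0) lf)))))))) (s2 (sk 0) (s1 (sk 0) (s2 (sk 0) (s1 (sk 0) (s0 (s2 (sk 0) (s1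
    (sk 0) (sk 0))) (sk 0))))))))) (s2 (sk 0) (s1 (sk 0) (s0 (s2 (sk 0) (s1 (sk 0) (s2 (sk 0)
    (sk 0)))) (sk 0)))))
    ⟨79228162514264436109785799066, 70368744177665, 79228162514264460738846261248,
    52776558133248, 79228162514264439628223007948, 59813432551015⟩ (by decide +kernel)

theorem YE_1 : Hd QYE 79228162514264400925413710233 35184372088833 79228162514264566291962527744
    52776558133248 79228162514264409721506732440 29906716275508 :=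
  okYE (s1 (s0 (s2 (s1 (sk 0) (sk 0)) (s1 (sk 0) (s0 (s1 (sk 0) (s2 (sk 0) (sk 0))) (sk 0))))
    (s2 (sk 0) (s1 (sk 0) (s2 (sk 0) (s1 (sk 0) (sk 0)))))) (s0 (s1 (s2 (s1 (s2 (sk 0) (sk 0))
    (s2 (s0 (sk 0) (sk 0)) (s0 (s1 (sk 0) (s2 (sk 0) (sk 0))) (sk 0)))) (s1 (s2 (s0 (s1 (sk 0)
    (sk 0)) (sk 0)) (s0 (s1 (s2 (sk 0) lf) lf) (s1 lf lf))) (s0 (s2 (s1 lf lf) lf) (s2 lf lf))))
    (s2 (s0 (s1 (s2 (s1 (sk 0) lf) lf) (s2 lf lf)) (s1 (s2 (s1 (sk 0) lf) lf) lf)) (s0 (s1 lf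
    lf) lf))) (s1 (s2 (s1 (sk 0) (s2 (sk 0) (s0 (sk 0) (sk 0)))) (s1 (s2 (sk 0) (s0 (s1 (sk 0)
    lf) (s1 (sk 0) lf))) (s2 (s0 (s1 (sk 0) lf) (s1 (sk 0) lf)) (s0 lf lf)))) (s2 (s1 (s2 (s0
    (s1 (sk 0) lf) (s1 (sk 0) lf)) (s0 lf lf)) (s2 (s0 lf lf) (s0 lf lf))) (s1 (s2 (s0 lf lf)
    (s0 lf lf)) (s0 lf lf))))))
    ⟨79228162514264400925413710233, 35184372088833, 79228162514264566291962527744,
    52776558133248, 79228162514264409721506732440, 29906716275508⟩ (by decide +kernel)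

theorem YE_2 : Hd QYE 79228162514264400925413710233 35184372088833 79228162514264566291962527744
    52776558133248 79228162514264469534939283456 29906716275508 :=
  okYE (s1 (s0 (s2 (s1 (s2 (s0 (sk 0) (sk 0)) (s1 (sk 0) (s0 (s1 (sk 0) (sk 0)) (sk 0)))) (s2
    (s1 (s0 (sk 0) (sk 0)) (s0 (s1 (s2 (sk 0) lf) lf) (s1 (s2 (sk 0) (sk 0)) lf))) (s0 (s1 (s1
    (s2 (sk 0) lf) lf) lf) (s1 (s1 (s2 (sk 0) lf) lf) lf)))) (s1 (s2 (s1 (s0 (s2 (sk 0) (s1 (sk
    0) (s0 (sk 0) (sk 0)))) (s2 (sk 0) (sk 0))) (s0 (s1 (s2 (sk 0) lf) (s0 lf lf)) (s2 (s1 (sk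
    0) lf) lf))) (s0 (s1 (s2 (s1 (s0 lf (sk 0)) lf) (s0 lf lf)) (s0 lf lf)) (s1 (s2 (s1 (sk 0)
    lf) lf) lf))) (s0 (s1 (s2 lf lf) lf) (s1 (s2 lf lf) lf)))) (s2 (s1 (s2 (sk 0) (s1 (sk 0) (sk
    0))) (s2 (s1 (sk 0) (s0 (s1 (sk 0) lf) (s1 (sk 0) (s2 (sk 0) lf)))) (s1 (s0 (s1 (sk 0) lf)
    (s1 (sk 0) (s2 (sk 0) lf))) (s0 lf lf)))) (s1 (s2 (s1 (s0 (sk 0) (sk 0)) (s0 (s2 (s1 (sk 0)
    (sk 0)) lf) (s2 (sk 0) (s1 (sk 0) lf)))) (s1 (s0 (s2 (s1 (sk 0) lf) lf) (s2 (s1 (sk 0) (sk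
    0)) (s1 (s2 (sk 0) lf) lf))) (s0 lf lf))) (s2 (s1 (s0 lf lf) (s0 lf lf)) (s1 (s0 lf lf) (s0
    lf lf)))))) (s0 (s1 (s2 (s0 (s1 (s2 lf lf) lf) (s1 lf lf)) (s0 lf lf)) (s2 (s0 lf lf) (s0 lf
    lf))) (s1 (s2 (s1 (s2 (s0 lf lf) (s0 lf lf)) (s0 lf lf)) (s0 lf lf)) (s2 (s0 lf lf) (s0 lf
    lf)))))
    ⟨79228162514264400925413710233, 35184372088833, 79228162514264566291962527744,
    52776558133248, 79228162514264469534939283456, 29906716275508⟩ (by decide +kernel)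

end H41MK
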