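import Pool.Agent.H41.MK.Claims

/-! Branch and bound data, generated. -/

set_option maxRecDepth 100000

namespace H41MK

open H41FT Tr

theorem YE_3 : Hd QYE 79228162514264471294157887899 35184372088833 79228162514264566291962527744
    52776558133248 79228162514264439628223007948 59813432551015 :=
  okYE (s2 (s1 (s0 (s2 (sk 0) (sk 0)) (sk 0)) (s0 (s1 (s2 (s1 (sk 0) (sk 0)) (s1 (s2 (sk 0) (s0
    (sk 0) (sk 0))) (s2 (s0 (s1 (sk 0) lf) (s1 (sk 0) (sk 0))) (s0 lf (s1 lf lf))))) (s2 (s1 (s2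
    (s0 (s1 (sk 0) (sk 0)) (sk 0)) (s0 (s1 (sk 0) lf) (s1 (sk 0) lf))) (s2 (s1 (s0 lf lf) lf)
    (s0 lf lf))) (s1 (s2 (s0 lf lf) (s0 lf lf)) (s2 lf lf)))) (s1 (s2 (sk 0) (s1 (sk 0) (s2 (sk
    0) (s0 (s1 (sk 0) lf) (s1 (sk 0) (sk 1)))))) (s2 (s1 (s2 (sk 0) (s1 (sk 0) (s0 lf (sk 1))))
    (s2 (s1 (s0 lf (sk 1)) lf) (s1 (s0 lf (sk 1)) lf))) (s1 (s2 (s1 (s0 lf (sk 1)) (s0 lf (sk
    1))) (s1 lf lf)) (s2 lf lf)))))) (s1 (s0 (s2 (s1 (sk 0) (s2 (s1 (sk 0) (s0 (sk 0) (sk 0)))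
    (s1 (s0 (sk 0) (sk 0)) (s0 (s1 (s2 (sk 0) lf) lf) (s1 (s2 (sk 0) lf) lf))))) (s1 (s2 (s1 (sk
    0) (s0 (s2 (sk 0) (s1 (sk 0) (s2 (sk 0) lf))) (sk 0))) (s1 (s0 (s2 (sk 0) (s1 (sk 0) lf))
    (s2 (sk 0) (s1 (sk 0) (sk 0)))) (s0 (s2 (s1 lf lf) lf) (s2 (s1 (sk 0) lf) lf)))) (s2 (s1 (s0
    (s2 (s1 (sk 0) lf) lf) (s2 (s1 (sk 0) lf) lf)) (s0 lf lf)) (s1 (s0 lf lf) lf)))) (s2 (s1 (sk
    0) (s2 (sk 0) (s1 (sk 0) (s0 (s1 (sk 0) (s2 (sk 0) lf)) (sk 0))))) (s1 (s2 (sk 0) (s1 (sk 0)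
    (s0 (s2 (sk 0) (s1 (s2 (sk 0) lf) lf)) (s2 (sk 0) (s1 (sk 0) (sk 0)))))) (s2 (s1 (s0 (s2 (sk
    0) (s1 (sk 0) lf)) (sk 0)) (s0 lf (s1 (s2 (sk 0) lf) lf))) (s1 (s0 lf (s2 (s1 (sk 0) lf)
    lf)) (s0 lf lf)))))) (s0 (s1 (s2 (s1 (s2 (s0 (s1 lf lf) (s1 (s2 (sk 0) lf) lf)) (s0 lf lf))
    (s2 (s0 lf lf) lf)) (s1 (s2 lf lf) lf)) (s2 (s1 (s2 lf lf) lf) (s1 lf lf))) (s1 (s2 (s1 (s2
    (s0 (s1 (sk 0) lf) (sk 0)) (s0 lf (s1 lf lf))) (s2 (s0 lf lf) lf)) (s1 (s2 (s0 lf lf) lf)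
    lf)) (s2 (s1 (s2 lf lf) lf) lf)))))
    ⟨79228162514264471294157887899, 35184372088833, 79228162514264566291962527744,
    52776558133248, 79228162514264439628223007948, 59813432551015⟩ (by decide +kernel)

theorem YE_4 : Hd QYE 79228162514264400925413710233 35184372088833 79228162514264434350567194624
    26388279066624 79228162514264529348371834470 29906716275508 :=
  okYE (s0 (s2 (s1 (s2 (sk 0) (sk 0)) (s2 (sk 0) (s0 (s1 (sk 0) (sk 0)) (sk 0)))) (s1 (s2 (s0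
    (sk 0) (sk 0)) (s0 (s1 (s2 (sk 0) (sk 0)) (s2 (s1 (sk 0) (sk 0)) (s0 (s1 (sk 0) lf) (s1 (sk
    0) lf)))) (s1 (sk 0) (s2 (sk 0) (s1 (sk 0) (s0 lf lf)))))) (s2 (s0 (s1 (s2 (sk 0) (s1 (sk 0)
    (s0 (sk 0) (sk 0)))) (s2 (s1 (sk 0) (s0 (s2 (sk 0) (sk 0)) (sk 0))) (s0 (s1 (s2 (sk 0) lf)
    lf) (s1 lf lf)))) (s1 (s2 (sk 0) (sk 0)) (s2 (s1 (sk 0) (sk 0)) (s1 (s0 lf lf) lf)))) (s0
    (s1 (s2 (s0 (s1 (s2 (sk 0) lf) lf) (s1 (s2 (sk 0) lf) lf)) (s0 lf lf)) (s0 lf lf)) (s1 (s2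
    (s1 (s0 (sk 0) (sk 0)) (s0 lf lf)) (s0 lf lf)) (s2 lf lf)))))) (s2 (s1 (sk 0) (s2 (sk 0) (sk
    0))) (s1 (s2 (sk 0) (s1 (sk 0) (s0 (s2 (sk 0) (s1 (sk 0) lf)) (s2 (sk 0) (s1 (sk 0) lf)))))
    (s2 (s1 (s0 (sk 0) (sk 0)) (s0 (s2 (sk 0) (s1 (s2 (sk 0) (sk 0)) lf)) (s2 (sk 0) (s1 (sk 0)
    lf)))) (s0 (s1 (s2 (s1 (sk 0) lf) lf) (s2 lf lf)) (s1 (s2 (s1 (sk 0) lf) lf) lf))))))
    ⟨79228162514264400925413710233, 35184372088833, 79228162514264434350567194624,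
    26388279066624, 79228162514264529348371834470, 29906716275508⟩ (by decide +kernel)

theorem YE_5 : Hd QYE 79228162514264400925413710233 35184372088833 79228162514264487127125327872
    26388279066624 79228162514264529348371834470 29906716275508 :=
  okYE (s0 (s2 (s1 (s2 (s0 (s1 (sk 0) (s2 (sk 0) (s1 (sk 0) (sk 0)))) (s1 (sk 0) (sk 0))) (s0
    (s1 (s2 (sk 0) (s1 (sk 0) (s0 (s2 (sk 0) lf) (s2 (sk 0) lf)))) (s2 (s1 (s0 (sk 0) (sk 0))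
    (s0 lf lf)) (s0 lf lf))) (s1 (s2 (sk 0) (s1 (sk 0) (s2 (sk 0) lf))) (s2 (s1 (sk 0) (s2 (sk
    0) lf)) (s1 lf lf))))) (s0 (s2 (s1 (s2 (s1 (sk 0) (s0 (sk 0) (sk 0))) (s1 (s0 lf lf) (s0 lf
    lf))) (s0 lf lf)) (s1 (s0 lf lf) (s0 lf lf))) (s2 (s1 (s2 (sk 0) (s1 (s2 (sk 0) lf) lf)) (s2
    (s1 lf lf) lf)) (s1 (s2 lf lf) lf)))) (s1 (s0 (s2 (s1 (s0 (s2 (s1 lf lf) lf) (s2 lf lf)) (s0
    lf lf)) (s1 (s0 lf lf) lf)) (s2 (s1 (s2 (s1 (s0 lf lf) lf) lf) (s0 lf lf)) (s1 lf lf))) (s0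
    (s1 (s2 lf lf) (s0 lf lf)) (s2 lf lf)))) (s2 (s1 (s2 (s0 (sk 0) (sk 0)) (s1 (s0 (s2 (sk 0)
    (sk 0)) (sk 0)) (s0 (s2 (s1 (sk 0) (s2 (sk 0) lf)) (s1 lf lf)) (s2 (sk 0) (s1 (s2 (sk 0) lf)
    lf))))) (s2 (s1 (s0 (s2 (sk 0) (s1 (sk 0) lf)) (s2 (sk 0) (s1 (sk 0) (s2 (sk 0) lf)))) (s0
    (s2 (s1 (s2 (sk 0) lf) lf) lf) (s2 (s1 (sk 0) lf) lf))) (s1 (s0 (s2 lf lf) (s2 lf lf)) (s0
    lf lf)))) (s1 (s2 (s0 (s1 (s2 (s1 (s2 (sk 0) lf) lf) lf) lf) (s1 (s2 (s1 (sk 0) lf) lf) lf))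
    (s0 lf lf)) (s0 (s2 lf lf) (s2 lf lf)))))
    ⟨79228162514264400925413710233, 35184372088833, 79228162514264487127125327872,
    26388279066624, 79228162514264529348371834470, 29906716275508⟩ (by decide +kernel)

theorem YE_6 : Hd QYE 79228162514264400925413710233 35184372088833 79228162514264434350567194624
    26388279066624 79228162514264589161804385486 29906716275508 :=
  okYE (s0 (s2 (s1 (s0 (s2 (s1 (s2 (s0 (s1 (sk 0) lf) (s1 (sk 0) lf)) (s0 lf lf)) (s0 (s2 lf lf)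
    lf)) (s0 lf lf)) (s2 (s1 (s2 (s0 (s1 (sk 0) lf) lf) (s0 lf lf)) (s0 lf lf)) (s1 lf lf))) (s0
    (s2 (s1 (s0 lf lf) (s0 lf lf)) (s0 lf lf)) (s2 (s1 lf lf) lf))) (s1 (s0 (s2 (s0 lf lf) (s0
    (s2 lf (s1 lf lf)) (s2 lf lf))) (s2 (s0 lf lf) (s0 lf lf))) (s0 (s2 (s0 lf lf) (s0 (s2 lf
    (s0 lf lf)) lf)) (s2 (s0 lf lf) (s0 lf lf))))) (s2 (s1 (s2 (s0 (s1 (s2 (s1 (sk 0) lf) lf)
    (s2 lf lf)) (s1 (s2 (sk 0) lf) lf)) (s0 (s1 lf lf) lf)) (s0 (s2 (s1 lf lf) lf) (s2 lf lf)))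
    (s1 (s0 (s2 lf (s0 lf lf)) (s1 lf lf)) (s0 (s2 lf lf) lf))))
    ⟨79228162514264400925413710233, 35184372088833, 79228162514264434350567194624,
    26388279066624, 79228162514264589161804385486, 29906716275508⟩ (by decide +kernel)

theorem YE_7 : Hd QYE 79228162514264400925413710233 35184372088833 79228162514264487127125327872
    26388279066624 79228162514264589161804385486 29906716275508 :=
  okYE (s0 (s2 (s1 (s0 (s0 lf lf) (s0 lf lf)) (s0 (s0 lf lf) (s0 lf lf))) (s1 (s0 (s2 (s0 lf lf)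
    (s0 (s2 lf lf) lf)) (s2 lf (s0 lf lf))) (s0 (s2 (s0 lf lf) (s0 (s2 lf lf) lf)) (s2 lf (s0 lf
    lf))))) (s2 (s1 (s0 (s1 lf lf) lf) (s0 lf lf)) (s1 (s0 (s2 lf lf) lf) (s0 (s0 lf lf) lf))))
    ⟨79228162514264400925413710233, 35184372088833, 79228162514264487127125327872,
    26388279066624, 79228162514264589161804385486, 29906716275508⟩ (by decide +kernel)

theorem YE_8 : Hd QYE 79228162514264471294157887899 35184372088833 79228162514264460738846261248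
    52776558133248 79228162514264529348371834470 29906716275508 :=
  okYE (s1 (s0 (s2 (sk 0) (s1 (s2 (sk 0) (s0 (sk 0) (sk 0))) (s2 (s0 (s1 (sk 0) (s2 (sk 0) (s1
    (sk 0) (sk 0)))) (sk 0)) (s1 (s0 (s2 (sk 0) lf) (s2 (sk 0) (s1 (sk 0) lf))) (s0 (s2 lf lf)
    (s2 (s1 (sk 0) lf) lf)))))) (s2 (sk 0) (s1 (sk 0) (s2 (sk 0) (s1 (s0 (s2 (sk 0) (s1 (sk 0)
    (sk 0))) (sk 0)) (s0 (s2 (s1 (sk 0) (s2 (sk 0) lf)) lf) (s2 (sk 0) (s1 (sk 0) lf)))))))) (s0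
    (s2 (s1 (s2 (sk 0) (s1 (sk 0) (s0 (s2 (sk 0) (s1 (sk 0) lf)) (s2 (sk 0) (sk 0))))) (s2 (s1
    (s0 (sk 0) (sk 0)) (s0 (s2 (s1 (sk 0) (s2 (sk 0) lf)) (s1 (s2 (sk 0) lf) lf)) (s2 (sk 0) (s1
    (sk 0) lf)))) (s1 (s0 (s2 (s1 (s2 (sk 0) lf) lf) lf) (s2 (s1 (sk 0) (s2 (sk 0) lf)) lf)) (s0
    lf lf)))) (s1 (s2 (s1 (s0 (s2 (s1 (sk 0) (s2 (sk 0) lf)) lf) (s2 (sk 0) (s1 (s2 (sk 0) lf)
    lf))) (s0 lf (s2 (s1 lf lf) lf))) (s1 (s0 lf lf) (s0 lf lf))) (s2 (s1 (s0 lf lf) (s0 lf lf))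
    (s0 lf lf)))) (s2 (s1 (sk 0) (s2 (s1 (sk 0) (s0 (sk 0) (sk 0))) (s1 (s0 (s2 (sk 0) (s1 (sk
    0) lf)) (sk 0)) (s0 (s2 (s1 (s2 (sk 0) lf) lf) lf) (s2 (s1 (sk 0) lf) lf))))) (s1 (s2 (s1
    (s0 (s2 (sk 0) (s1 (sk 0) (s2 (sk 0) lf))) (sk 0)) (s0 (s2 (s1 (sk 0) lf) lf) (s2 (sk 0) (s1
    lf lf)))) (s1 (s0 lf (s2 (s1 (sk 0) lf) lf)) (s0 lf lf))) (s2 (s1 (s0 lf (s2 lf lf)) (s0 lf
    lf)) (s1 lf lf))))))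
    ⟨79228162514264471294157887899, 35184372088833, 79228162514264460738846261248,
    52776558133248, 79228162514264529348371834470, 29906716275508⟩ (by decide +kernel)

end H41MK
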