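import Pool.Agent.H41.MK.Claims

/-! Branch and bound data, generated. -/

set_option maxRecDepth 100000

namespace H41MK

open H41FT Tr

theorem YE_9 : Hd QYE 79228162514264471294157887899 35184372088833 79228162514264460738846261248
    52776558133248 79228162514264589161804385486 29906716275508 :=
  okYE (s1 (s0 (s2 (s1 (s2 (s1 (s0 (s2 (sk 0) lf) (s2 (sk 0) (s1 (sk 0) lf))) (s0 (s2 lf lf) (s2
    (s1 (sk 0) lf) lf))) (s0 lf lf)) (s2 (s1 (s0 lf lf) (s0 lf lf)) (s0 lf lf))) (s1 (s0 (s1 lf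
    lf) lf) (s0 lf lf))) (s2 (s1 (s2 (s1 (s0 (s2 (sk 0) (sk 0)) (sk 0)) (s0 (s2 (sk 0) lf) (s2
    (sk 0) (s1 (s2 (sk 0) (sk 0)) lf)))) (s1 (s0 lf (s2 (s1 lf lf) lf)) (s0 lf lf))) (s2 (s1 (s0
    lf (s2 (s1 (sk 0) lf) lf)) (s0 lf lf)) (s1 lf lf))) (s1 (s2 (s1 lf lf) lf) (s2 lf lf)))) (s0
    (s2 (s1 (s0 lf lf) (s0 lf lf)) (s1 (s0 lf lf) (s0 lf lf))) (s2 (s1 (s2 (s1 lf lf) lf) (s2 lf
    lf)) (s1 (s0 lf lf) lf))))
    ⟨79228162514264471294157887899, 35184372088833, 79228162514264460738846261248,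
    52776558133248, 79228162514264589161804385486, 29906716275508⟩ (by decide +kernel)

theorem YE_10 : Hd QYE 79228162514264400925413710233 35184372088833
    79228162514264566291962527744 52776558133248 79228162514264529348371834470 29906716275508 :=
  okYE (s1 (s0 (s2 (s1 (s0 (s1 (s2 (s0 lf lf) lf) (s0 lf lf)) (s1 (s2 lf lf) lf)) (s0 (s0 lf lf)
    lf)) (s1 (s0 (s0 lf lf) lf) (s0 (s0 lf lf) lf))) (s2 (s1 (s2 (s1 (s0 lf lf) (s0 lf lf)) (s0
    lf lf)) (s0 lf lf)) (s1 (s0 lf lf) (s0 lf lf)))) (s0 (s2 (s1 (s0 lf lf) (s0 lf lf)) (s1 (s0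
    (s0 lf lf) lf) (s0 (s0 lf lf) lf))) (s1 (s2 (s0 lf lf) (s0 lf lf)) (s2 (s0 lf lf) (s0 lf
    lf)))))
    ⟨79228162514264400925413710233, 35184372088833, 79228162514264566291962527744,
    52776558133248, 79228162514264529348371834470, 29906716275508⟩ (by decide +kernel)

theorem YE_11 : Hd QYE 79228162514264400925413710233 35184372088833
    79228162514264566291962527744 52776558133248 79228162514264589161804385486 29906716275508 :=
  okYE (s1 (s0 (s2 (s1 (s0 (s0 lf lf) (s0 lf lf)) (s0 (s0 lf lf) lf)) (s1 (s0 (s2 (s0 lf lf) (s0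
    (s2 lf lf) lf)) (s2 lf (s0 lf lf))) (s0 (s2 (s0 lf lf) (s0 (s0 lf lf) lf)) (s2 lf (s0 lf
    lf))))) (s2 (s1 (s0 lf lf) (s0 lf lf)) (s1 (s0 lf lf) (s0 lf lf)))) (s0 (s2 (s1 (s0 (s0 lf
    lf) lf) (s0 (s2 lf (s0 lf lf)) lf)) (s1 (s0 (s2 (s0 lf lf) (s0 lf lf)) (s2 lf (s0 lf lf)))
    (s0 (s2 (s0 lf lf) (s0 lf lf)) (s0 lf lf)))) (s2 (s1 (s0 lf lf) (s0 lf lf)) (s1 (s0 lf lf)
    (s0 lf lf)))))
    ⟨79228162514264400925413710233, 35184372088833, 79228162514264566291962527744,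
    52776558133248, 79228162514264589161804385486, 29906716275508⟩ (by decide +kernel)

theorem YE_12 : Hd QYE 79228162514264471294157887899 35184372088833
    79228162514264566291962527744 52776558133248 79228162514264559255088109978 59813432551015 :=
  okYE (s2 (s1 (s0 (s2 (s1 (s2 (s1 (s0 lf (s2 (s1 (s2 (sk 0) lf) lf) lf)) (s0 lf lf)) (s1 (s0 lf
    lf) lf)) (s2 (s1 lf lf) (s1 lf lf))) (s1 (s0 lf lf) (s0 lf lf))) (s2 (s1 (s2 (s1 (s0 (s2 (s1
    (sk 0) lf) lf) (s2 (sk 0) (s1 (sk 0) lf))) (s0 lf lf)) (s1 (s0 lf lf) lf)) (s2 (s1 lf lf)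
    lf)) (s1 (s2 (s1 lf lf) lf) (s2 lf lf)))) (s0 (s1 (s2 (s0 lf lf) (s0 lf lf)) (s2 lf lf)) (s1
    (s2 (s1 lf lf) lf) (s2 lf lf)))) (s1 (s0 (s2 (s1 (s0 lf lf) (s0 lf lf)) (s1 (s0 lf lf) (s0
    lf lf))) (s2 (s1 lf lf) (s1 lf lf))) (s0 (s2 (s1 lf lf) (s1 (s0 lf lf) (s0 lf lf))) (s2 (s1
    lf lf) (s1 lf lf)))))
    ⟨79228162514264471294157887899, 35184372088833, 79228162514264566291962527744,
    52776558133248, 79228162514264559255088109978, 59813432551015⟩ (by decide +kernel)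

theorem DA_0 : Hd QDA 79228162514264383333227665816 17592186044417 79228162514264341111981159219
    3518437208884 79228162514264372777916039168 35184372088832 :=
  okDA (s2 (s0 (s2 (s0 (s2 (s1 lf (s0 (s1 lf lf) lf)) (s1 lf (s0 lf lf))) (s1 lf lf)) (s0 (s2
    (s1 lf (s0 lf lf)) (s1 lf (s0 lf lf))) (s1 lf lf))) (s2 (s1 lf lf) (s0 lf lf))) (s0 (s2 (s0
    (s2 (s1 lf (s0 lf lf)) (s0 lf lf)) lf) (s0 (s2 (s0 lf lf) (s0 lf lf)) lf)) lf))
    ⟨79228162514264383333227665816, 17592186044417, 79228162514264341111981159219,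
    3518437208884, 79228162514264372777916039168, 35184372088832⟩ (by decide +kernel)

theorem DA_1 : Hd QDA 79228162514264418517599754650 17592186044417 79228162514264341111981159219
    3518437208884 79228162514264372777916039168 35184372088832 :=
  okDA (s2 (s0 lf lf) lf)
    ⟨79228162514264418517599754650, 17592186044417, 79228162514264341111981159219,
    3518437208884, 79228162514264372777916039168, 35184372088832⟩ (by decide +kernel)

theorem DA_2 : Hd QDA 79228162514264400925413710233 35184372088833 79228162514264341111981159219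
    3518437208884 79228162514264443146660216832 35184372088832 :=
  okDA (s0 (s2 (s0 (s2 (s0 (s2 (s0 lf lf) lf) lf) (s0 lf lf)) lf) (s0 (s2 (s0 lf lf) (s0 lf lf))
    lf)) lf)
    ⟨79228162514264400925413710233, 35184372088833, 79228162514264341111981159219,
    3518437208884, 79228162514264443146660216832, 35184372088832⟩ (by decide +kernel)

theorem DA_3 : Hd QDA 79228162514264471294157887899 35184372088833 79228162514264341111981159219
    3518437208884 79228162514264407962288128000 70368744177664 :=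
  okDA (s2 (s0 lf lf) lf)
    ⟨79228162514264471294157887899, 35184372088833, 79228162514264341111981159219,
    3518437208884, 79228162514264407962288128000, 70368744177664⟩ (by decide +kernel)

end H41MK
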