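import Pool.Agent.H41.MK.Claims

/-! Branch and bound data, generated. -/

set_option maxRecDepth 100000

namespace H41MK

open H41FT Tr

theorem DA_4 : Hd QDA 79228162514264436109785799066 70368744177665 79228162514264341111981159219
    3518437208884 79228162514264548699776483328 70368744177664 :=
  okDA (s0 (s2 (s0 (s2 (s0 (s2 (s0 lf lf) (s0 lf lf)) lf) (s0 (s2 (s0 lf lf) (s0 lf lf)) lf))
    lf) (s0 (s2 (s0 (s2 lf lf) lf) (s0 (s2 lf lf) lf)) lf)) (s2 lf lf))
    ⟨79228162514264436109785799066, 70368744177665, 79228162514264341111981159219,
    3518437208884, 79228162514264548699776483328, 70368744177664⟩ (by decide +kernel)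

theorem DB_0 : Hd QDB 79228162514264374537134643607 8796093022209 79228162514264348148855576986
    3518437208884 79228162514264346389636972544 8796093022208 :=
  okDB (s0 (s2 (s0 (s1 (s2 (s1 lf lf) (s1 lf lf)) (s1 (s2 lf lf) lf)) (s1 (s2 lf lf) (s1 lf
    lf))) (s0 (s1 (s2 lf lf) (s1 lf lf)) (s1 lf lf))) (s2 (s0 (s2 (s1 lf lf) (s1 lf lf)) (s1 lf
    lf)) (s0 (s2 lf lf) lf)))
    ⟨79228162514264374537134643607, 8796093022209, 79228162514264348148855576986, 3518437208884,
    79228162514264346389636972544, 8796093022208⟩ (by decide +kernel)

theorem DB_1 : Hd QDB 79228162514264374537134643607 8796093022209 79228162514264348148855576986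
    3518437208884 79228162514264363981823016960 8796093022208 :=
  okDB (s0 (s2 (s0 (s1 lf lf) (s1 lf lf)) (s1 (s2 (s0 lf lf) (s0 lf lf)) (s0 lf lf))) (s2 (s0 lf
    lf) (s0 lf lf)))
    ⟨79228162514264374537134643607, 8796093022209, 79228162514264348148855576986, 3518437208884,
    79228162514264363981823016960, 8796093022208⟩ (by decide +kernel)

theorem DB_2 : Hd QDB 79228162514264392129320688025 8796093022209 79228162514264348148855576986
    3518437208884 79228162514264355185729994752 17592186044416 :=
  okDB (s2 (s0 (s2 (s1 lf lf) (s1 lf lf)) lf) (s0 lf lf))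
    ⟨79228162514264392129320688025, 8796093022209, 79228162514264348148855576986, 3518437208884,
    79228162514264355185729994752, 17592186044416⟩ (by decide +kernel)

theorem DB_3 : Hd QDB 79228162514264383333227665816 17592186044417 79228162514264348148855576986
    3518437208884 79228162514264390370102083584 17592186044416 :=
  okDB (s0 (s2 (s0 (s2 (s1 (s0 lf lf) (s0 lf lf)) (s1 (s0 lf lf) (s0 lf lf))) (s2 (s0 lf lf)
    lf)) (s0 (s2 (s1 lf (s0 lf lf)) (s1 lf lf)) lf)) (s2 (s0 lf lf) (s0 lf lf)))
    ⟨79228162514264383333227665816, 17592186044417, 79228162514264348148855576986,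
    3518437208884, 79228162514264390370102083584, 17592186044416⟩ (by decide +kernel)

theorem DB_4 : Hd QDB 79228162514264418517599754650 17592186044417 79228162514264348148855576986
    3518437208884 79228162514264372777916039168 35184372088832 :=
  okDB (s2 (s0 (s2 lf lf) lf) (s0 lf lf))
    ⟨79228162514264418517599754650, 17592186044417, 79228162514264348148855576986,
    3518437208884, 79228162514264372777916039168, 35184372088832⟩ (by decide +kernel)

theorem DB_5 : Hd QDB 79228162514264400925413710233 35184372088833 79228162514264348148855576986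
    3518437208884 79228162514264443146660216832 35184372088832 :=
  okDB (s0 (s2 (s0 (s2 (s0 (s2 (s1 lf lf) (s1 lf lf)) lf) (s0 (s1 lf lf) lf)) (s2 lf lf)) (s0
    (s2 (s0 (s1 lf lf) lf) (s0 lf lf)) lf)) (s2 lf lf))
    ⟨79228162514264400925413710233, 35184372088833, 79228162514264348148855576986,
    3518437208884, 79228162514264443146660216832, 35184372088832⟩ (by decide +kernel)

theorem DB_6 : Hd QDB 79228162514264471294157887899 35184372088833 79228162514264348148855576986
    3518437208884 79228162514264407962288128000 70368744177664 :=
  okDB (s2 (s0 lf lf) (s2 lf lf))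
    ⟨79228162514264471294157887899, 35184372088833, 79228162514264348148855576986,
    3518437208884, 79228162514264407962288128000, 70368744177664⟩ (by decide +kernel)

end H41MK
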