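import Pool.Agent.H41.MK.Claims

/-! Branch and bound data, generated. -/

set_option maxRecDepth 100000

namespace H41MK

open H41FT Tr

theorem DB_7 : Hd QDB 79228162514264436109785799066 70368744177665 79228162514264348148855576986
    3518437208884 79228162514264548699776483328 70368744177664 :=
  okDB (s0 (s2 (s0 (s2 (s0 (s2 (s0 lf lf) (s0 lf lf)) lf) (s0 (s2 (s0 lf lf) (s0 lf lf)) lf))
    lf) (s0 (s2 (s0 (s2 (s0 lf lf) lf) lf) (s0 (s2 lf lf) lf)) lf)) (s2 lf lf))
    ⟨79228162514264436109785799066, 70368744177665, 79228162514264348148855576986,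
    3518437208884, 79228162514264548699776483328, 70368744177664⟩ (by decide +kernel)

theorem DC_0 : Hd QDC 79228162514264407962288127999 14073748835533 79228162514264365741041621402
    14073748835534 79228162514264346389636972544 8796093022208 :=
  okDC (s1 (s0 (s2 (s1 (s0 lf lf) (s0 (s1 lf lf) lf)) (s1 (s0 lf lf) (s0 lf lf))) (s2 (s1 lf (s0
    lf lf)) (s1 lf lf))) (s0 (s1 (s0 (s1 lf lf) (s2 (s1 lf lf) lf)) (s0 (s1 lf lf) (s1 lf lf)))
    (s2 (s1 (s0 lf lf) (s0 lf lf)) (s1 (s0 lf lf) (s0 lf lf)))))
    ⟨79228162514264407962288127999, 14073748835533, 79228162514264365741041621402,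
    14073748835534, 79228162514264346389636972544, 8796093022208⟩ (by decide +kernel)

theorem DC_1 : Hd QDC 79228162514264407962288127999 14073748835533 79228162514264365741041621402
    14073748835534 79228162514264363981823016960 8796093022208 :=
  okDC (s1 (s0 (s2 (s1 lf (s0 lf lf)) (s1 lf lf)) (s2 (s1 lf lf) lf)) (s0 (s1 (s0 lf lf) (s0 lf
    lf)) (s1 lf (s0 lf lf))))
    ⟨79228162514264407962288127999, 14073748835533, 79228162514264365741041621402,
    14073748835534, 79228162514264363981823016960, 8796093022208⟩ (by decide +kernel)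

theorem DC_2 : Hd QDC 79228162514264436109785799065 14073748835533 79228162514264365741041621402
    14073748835534 79228162514264355185729994752 17592186044416 :=
  okDC (s2 (s1 (s0 (s1 lf lf) lf) (s0 (s2 (s1 (s2 (s0 lf lf) lf) (s2 (s0 lf lf) lf)) (s1 lf lf))
    (s2 (s1 lf lf) lf))) (s1 (s0 lf lf) (s0 (s2 lf lf) lf)))
    ⟨79228162514264436109785799065, 14073748835533, 79228162514264365741041621402,
    14073748835534, 79228162514264355185729994752, 17592186044416⟩ (by decide +kernel)

theorem DC_3 : Hd QDC 79228162514264422036036963532 28147497671066 79228162514264365741041621402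
    14073748835534 79228162514264390370102083584 17592186044416 :=
  okDC (s0 (s2 (s1 (s0 (s2 (s1 lf lf) (s1 lf lf)) lf) (s0 (s1 (s0 lf lf) (s0 lf lf)) (s1 lf
    lf))) (s1 (s0 (s1 lf lf) lf) (s0 (s1 lf lf) lf))) (s2 (s1 (s0 lf lf) (s0 lf lf)) (s0 lf
    lf)))
    ⟨79228162514264422036036963532, 28147497671066, 79228162514264365741041621402,
    14073748835534, 79228162514264390370102083584, 17592186044416⟩ (by decide +kernel)

theorem DC_4 : Hd QDC 79228162514264478331032305664 28147497671066 79228162514264365741041621402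
    14073748835534 79228162514264372777916039168 35184372088832 :=
  okDC (s2 (s0 (s2 (s1 lf (s0 (s2 lf lf) lf)) (s1 lf lf)) (s2 (s1 lf lf) lf)) (s0 (s2 (s1 lf lf)
    lf) lf))
    ⟨79228162514264478331032305664, 28147497671066, 79228162514264365741041621402,
    14073748835534, 79228162514264372777916039168, 35184372088832⟩ (by decide +kernel)

end H41MK
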