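import Pool.Agent.H41.MK.Claims

/-! Branch and bound data, generated. -/

set_option maxRecDepth 100000

namespace H41MK

open H41FT Tr

theorem ZD_0 : Hd QZD 79228162514264351667292785869 14073748835533 79228162514264513515404394496
    49258120924365 79228162514264478331032305664 140737488355328 :=
  okZD (s2 (s2 (s1 (s1 lf lf) (s1 lf (s2 lf lf))) (s1 (s1 lf lf) (s1 lf (s2 (s1 lf lf) (s1 lf
    lf))))) (s2 (s1 (s1 lf lf) (s1 lf (s2 (s1 lf lf) (s1 lf lf)))) (s1 (s1 lf lf) (s1 lf (s2 (s1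
    lf lf) (s1 lf lf))))))
    ⟨79228162514264351667292785869, 14073748835533, 79228162514264513515404394496,
    49258120924365, 79228162514264478331032305664, 140737488355328⟩ (by decide +kernel)

theorem ZE_0 : Hd QZE 79228162514264351667292785869 14073748835533 79228162514264581069398805053
    18295873486194 79228162514264407962288128000 70368744177664 :=
  okZE (s2 (s2 (s1 (s0 lf lf) (s0 (s1 lf (s0 lf lf)) (s1 lf lf))) (s1 (s0 lf lf) (s0 (s1 lf (s0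
    lf lf)) (s1 lf lf)))) (s2 (s1 (s0 lf lf) (s0 (s1 lf (s0 lf lf)) (s1 lf lf))) (s1 (s0 lf lf)
    (s0 (s1 lf (s0 lf lf)) (s1 lf lf)))))
    ⟨79228162514264351667292785869, 14073748835533, 79228162514264581069398805053,
    18295873486194, 79228162514264407962288128000, 70368744177664⟩ (by decide +kernel)

theorem ZE_1 : Hd QZE 79228162514264351667292785869 14073748835533 79228162514264581069398805053
    18295873486194 79228162514264548699776483328 70368744177664 :=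
  okZE (s2 (s2 (s1 (s0 lf lf) (s0 (s1 lf (s0 lf lf)) (s1 lf lf))) (s1 (s0 lf lf) (s0 (s1 lf (s0
    lf lf)) (s1 lf lf)))) (s2 (s1 (s0 lf lf) (s0 (s1 lf (s0 lf lf)) (s1 lf lf))) (s1 (s0 lf lf)
    (s0 (s1 lf lf) (s1 lf lf)))))
    ⟨79228162514264351667292785869, 14073748835533, 79228162514264581069398805053,
    18295873486194, 79228162514264548699776483328, 70368744177664⟩ (by decide +kernel)

theorem ZF_0 : Hd QZF 79228162514264492404781141197 126663739519796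
    79228162514264414999162545766 49258120924366 79228162514264478331032305664 140737488355328
    :=
  okZF (s2 (s0 (s2 (s0 (s1 (s0 (s1 (s0 (sk 0) (sk 0)) (sk 0)) (s1 lf (sk 0))) (s0 (s2 (s0 (s1
    (sk 0) (sk 0)) (s1 (sk 0) (sk 0))) (s0 (s1 (sk 0) (sk 0)) (s1 (sk 0) (sk 0)))) (s2 (s1 (sk
    0) (sk 0)) (s1 (sk 0) (sk 0))))) (s1 (s0 (s1 lf (sk 0)) (s1 lf (sk 0))) (s0 (s2 (s1 (sk 0)
    (sk 0)) (s1 (sk 0) (sk 0))) (s1 (sk 0) (sk 0))))) (s0 (s1 (s0 (s1 (s0 (sk 0) (sk 0)) (sk 0))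
    (s1 lf (sk 0))) (s0 (s2 (s0 (s1 (sk 0) (sk 0)) (s1 (sk 0) (sk 0))) (s0 (s1 (sk 0) (sk 0))
    (s1 (sk 0) (sk 0)))) (s2 (s1 (sk 0) (sk 0)) (s1 (sk 0) (sk 0))))) (s1 (s0 (s1 lf (sk 0)) (s1
    lf (sk 0))) (s0 (s2 (s1 (sk 0) (sk 0)) (s1 (sk 0) (sk 0))) (s1 (sk 0) (sk 0)))))) (s2 (s0
    (s1 (s1 lf lf) (s2 (s0 (s1 (sk 0) (sk 0)) (s1 (sk 0) (sk 0))) (s0 (s1 (sk 0) (sk 0)) (s1 (sk
    0) (sk 0))))) (s1 (s2 (s1 lf lf) (s1 lf lf)) (s2 (s1 (sk 0) (s0 (sk 0) (sk 0))) (s1 (sk 0)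
    (s0 (sk 0) (sk 0)))))) (s0 (s1 (s1 lf lf) (s2 (s0 (s1 (sk 0) (sk 0)) (s1 (sk 0) (sk 0))) (s0
    (s1 (sk 0) (sk 0)) (s1 (sk 0) (sk 0))))) (s1 (s2 (s1 lf lf) (s1 lf lf)) (s2 (s1 (sk 0) (s0
    (sk 0) (sk 0))) (s1 (sk 0) (s0 (sk 0) (sk 0)))))))) (s0 (s2 (s0 (s1 (s0 (s1 (s0 (sk 0) (sk
    0)) (sk 0)) (s1 lf (sk 0))) (s0 (s2 (s0 (s1 (sk 0) (sk 0)) (s1 (sk 0) (sk 0))) (s0 (s1 (sk
    0) (sk 0)) (s1 (sk 0) (sk 0)))) (s2 (s1 (sk 0) (sk 0)) (s1 (sk 0) (sk 0))))) (s1 (s0 (s1 lf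
    (sk 0)) (s1 lf (sk 0))) (s0 (s2 (s1 (sk 0) (sk 0)) (s1 (sk 0) (sk 0))) (s1 (sk 0) (sk 0)))))
    (s0 (s1 (s0 (s1 (s0 lf (sk 0)) (sk 0)) (s1 lf (sk 0))) (s0 (s2 (s0 (s1 (sk 0) (sk 0)) (s1
    (sk 0) (sk 0))) (s0 (s1 (sk 0) (sk 0)) (s1 (sk 0) (sk 0)))) (s2 (s1 (sk 0) (sk 0)) (s1 (sk
    0) (sk 0))))) (s1 (s0 (s1 lf (sk 0)) (s1 lf (sk 0))) (s0 (s2 (s1 (sk 0) (sk 0)) (s1 (sk 0)
    (sk 0))) (s1 (sk 0) (sk 0)))))) (s2 (s0 (s1 (s1 lf lf) (s2 (s0 (s1 (sk 0) (sk 0)) (s1 (sk 0)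
    (sk 0))) (s1 (sk 0) (sk 0)))) (s1 (s2 (s1 lf lf) (s1 lf lf)) (s1 (s0 (sk 0) (sk 0)) (s0 (sk
    0) (s1 (sk 0) (sk 0)))))) (s0 (s1 (s1 lf lf) (s2 (s1 (sk 0) (sk 0)) (s1 (sk 0) (sk 0)))) (s1
    (s2 (s1 lf lf) (s1 lf lf)) (s0 (s1 (sk 0) (sk 0)) (s1 lf (s1 (sk 0) (s0 (sk 0) (sk
    0))))))))))
    ⟨79228162514264492404781141197, 126663739519796, 79228162514264414999162545766,
    49258120924366, 79228162514264478331032305664, 140737488355328⟩ (by decide +kernel)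

theorem ZG_0 : Hd QZG 79228162514264429072911381299 63331869759898 79228162514264531811277880689
    67553994410558 79228162514264407962288128000 70368744177664 :=
  okZG (s2 (s1 (s0 (s1 (s0 (s2 (s0 (sk 0) (sk 0)) (s0 (sk 0) (sk 0))) (s2 (sk 0) (sk 0))) (s0
    (s2 (s0 (s1 (sk 0) (sk 0)) (s1 (sk 0) (sk 0))) (s0 (s1 (sk 0) (sk 0)) (s1 (sk 0) (sk 0))))
    (s2 (s0 (sk 0) (sk 0)) (s0 (sk 0) (sk 0))))) (s1 (s0 (sk 0) (s2 (sk 0) (sk 0))) (s0 (s2 (s0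
    (sk 0) (sk 0)) (s0 (sk 0) (sk 0))) (s2 (s1 (sk 0) (sk 0)) (s1 (sk 0) (sk 0)))))) (s0 (s1 (s0
    (s2 (s0 (s1 (sk 0) (sk 0)) (s1 (sk 0) (sk 0))) (s0 (s1 (sk 0) (sk 0)) (s1 (sk 0) (sk 0))))
    (s2 (s1 (sk 0) (s0 (sk 0) (sk 0))) (s1 (sk 0) (s0 (sk 0) (sk 0))))) (s0 (s2 (s1 (s0 (s0 (sk
    0) (sk 0)) lf) (s0 (s1 (sk 0) (s0 (sk 0) (sk 0))) (s1 (sk 0) lf))) (s1 (s0 (s0 (sk 0) (sk
    0)) lf) (s0 (s1 lf (s0 (sk 0) (sk 0))) (s1 (sk 0) lf)))) (s2 (s1 (s0 lf lf) (s0 (s1 (sk 0)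
    lf) lf)) (s1 (s0 lf lf) (s0 (s1 lf lf) (s1 lf lf)))))) (s1 (s0 (s2 (s1 (sk 0) lf) (s1 lf
    lf)) (s2 (s1 lf lf) (s1 lf lf))) (s2 (s0 (s1 (s0 lf lf) (s0 lf lf)) (s1 lf (s1 lf lf))) (s0
    (s1 (s0 lf lf) (s0 lf lf)) (s1 lf (s1 lf lf))))))) (s1 (s0 (s1 (s0 (s2 (s0 (sk 0) (sk 0))
    (s1 (sk 0) (sk 0))) (s2 (sk 0) (sk 0))) (s0 (s2 (s0 (s1 (sk 0) (sk 0)) (s1 (sk 0) (sk 0)))
    (s0 (s1 (sk 0) (sk 0)) (s1 (sk 0) (sk 0)))) (s2 (s0 (sk 0) (sk 0)) (s0 (sk 0) (sk 0))))) (s1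
    (s0 (s2 (sk 0) (sk 0)) (s2 (sk 0) (sk 0))) (s0 (s2 (s0 (sk 0) (sk 0)) (s0 (sk 0) (sk 0)))
    (s2 (s1 (sk 0) (sk 0)) (s1 (sk 0) lf))))) (s0 (s1 (s0 (s2 (s0 (s1 (sk 0) (sk 0)) (s1 (sk 0)
    (sk 0))) (s0 (s1 (sk 0) (sk 0)) (s1 (sk 0) (sk 0)))) (s2 (s1 lf (s0 (sk 0) (sk 0))) (s1 lf
    (s0 (sk 0) (sk 0))))) (s2 (s0 (s1 (s0 (s0 (sk 0) (sk 0)) lf) (s0 (s1 lf (s0 (sk 0) (sk 0)))
    (s1 (sk 0) lf))) (s1 (s0 lf lf) (s0 (s1 lf lf) (s1 lf lf)))) (s0 (s1 (s0 (s0 (sk 0) (sk 0))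
    lf) (s0 (s1 lf (s0 (sk 0) (sk 0))) (s1 lf lf))) (s1 (s0 lf lf) (s0 (s1 lf lf) (s1 lf
    lf)))))) (s1 (s2 (s0 (s1 lf lf) (s1 lf lf)) (s0 (s1 lf lf) (s1 lf lf))) (s2 (s0 (s1 (s0 lf
    lf) (s0 lf lf)) (s1 lf (s1 lf lf))) (s0 (s1 (s0 lf lf) (s0 lf lf)) (s1 (s1 lf lf) (s1 lf (s2
    lf lf)))))))))
    ⟨79228162514264429072911381299, 63331869759898, 79228162514264531811277880689,
    67553994410558, 79228162514264407962288128000, 70368744177664⟩ (by decide +kernel)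

end H41MK
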