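import Pool.Agent.H41.MK.Claims

/-! Branch and bound data, generated. -/

set_option maxRecDepth 100000

namespace H41MK

open H41FT Tr

theorem ZG_1 : Hd QZG 79228162514264555736650901095 63331869759898 79228162514264531811277880689
    67553994410558 79228162514264372777916039168 35184372088832 :=
  okZG (s1 (s0 (s1 (s0 (s2 (sk 0) lf) (s2 lf lf)) (s2 (s0 (s1 (sk 0) lf) (s1 lf lf)) (s0 (s1 (sk
    0) lf) (s1 lf lf)))) (s1 (s2 (s0 lf (s1 (sk 0) lf)) (s0 lf (s1 (sk 0) lf))) (s2 (s0 (s1 lf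
    lf) (s1 lf lf)) (s0 (s1 lf lf) (s1 lf lf))))) (s0 (s2 (s1 (s0 (s1 lf lf) (s1 lf lf)) (s0 (s1
    lf (s1 lf lf)) (s1 lf (s1 lf lf)))) (s1 (s0 (s1 lf lf) (s1 lf lf)) (s0 (s1 lf (s1 lf lf))
    (s1 lf (s1 lf lf))))) (s2 (s1 (s0 (s1 lf lf) (s1 lf (s0 lf lf))) (s0 (s1 (s0 lf lf) (s0 lf
    (s1 lf lf))) (s1 (s0 lf lf) (s0 (s1 lf lf) (s1 lf lf))))) (s1 (s0 (s1 lf lf) (s1 lf (s0 lf
    lf))) (s0 (s1 (s0 lf lf) (s0 lf (s1 lf lf))) (s1 (s0 lf (s1 lf lf)) (s0 (s1 lf lf) (s1 lf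
    (s0 lf lf)))))))))
    ⟨79228162514264555736650901095, 63331869759898, 79228162514264531811277880689,
    67553994410558, 79228162514264372777916039168, 35184372088832⟩ (by decide +kernel)

theorem ZG_2 : Hd QZG 79228162514264555736650901095 63331869759898 79228162514264531811277880689
    67553994410558 79228162514264443146660216832 35184372088832 :=
  okZG (s1 (s0 (s1 (s0 (s2 lf lf) (s2 lf lf)) (s2 (s0 (s1 (sk 0) lf) (s1 lf lf)) (s0 (s1 (sk 0)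
    lf) (s1 lf lf)))) (s1 (s2 (s0 lf (s1 lf lf)) (s0 lf (s1 lf lf))) (s2 (s0 (s1 lf lf) (s1 lf
    lf)) (s0 (s1 lf lf) (s1 lf lf))))) (s0 (s2 (s1 (s0 (s1 lf lf) (s1 lf lf)) (s0 (s1 lf (s1 lf
    lf)) (s1 (s1 lf lf) (s1 lf lf)))) (s1 (s0 (s1 lf lf) (s1 lf lf)) (s0 (s1 lf (s1 lf lf)) (s1
    (s1 lf lf) (s1 lf lf))))) (s2 (s1 (s0 (s1 lf lf) (s1 lf (s0 lf lf))) (s0 (s1 (s0 lf lf) (s0
    lf (s1 lf lf))) (s1 (s0 lf (s1 lf lf)) (s0 (s1 lf lf) (s1 lf (s0 lf lf)))))) (s1 (s0 (s1 lf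
    lf) (s1 lf (s0 lf lf))) (s0 (s1 (s0 lf lf) (s0 (s1 lf lf) (s1 lf lf))) (s1 (s0 lf (s1 lf
    lf)) (s0 (s1 lf lf) (s1 lf (s0 lf lf)))))))))
    ⟨79228162514264555736650901095, 63331869759898, 79228162514264531811277880689,
    67553994410558, 79228162514264443146660216832, 35184372088832⟩ (by decide +kernel)

theorem ZG_3 : Hd QZG 79228162514264429072911381299 63331869759898 79228162514264531811277880689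
    67553994410558 79228162514264513515404394496 35184372088832 :=
  okZG (s1 (s0 (s1 (s0 (s2 (s1 (sk 0) (sk 0)) (s1 (sk 0) (sk 0))) (s2 (s0 (sk 0) (sk 0)) (s1 (sk
    0) (sk 0)))) (s0 (s2 (s0 (s1 (sk 0) (sk 0)) (s1 (sk 0) (sk 0))) (s0 (s1 (sk 0) (sk 0)) (s1
    (sk 0) (sk 0)))) (s2 (s0 (s1 (sk 0) (sk 0)) (sk 0)) (s0 (s1 (sk 0) (sk 0)) lf)))) (s1 (s0
    (s2 (sk 0) (sk 0)) (s2 (sk 0) (sk 0))) (s0 (s2 (s0 (sk 0) lf) (s0 lf lf)) (s2 (s1 (sk 0) lf)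
    (s1 (sk 0) lf))))) (s0 (s1 (s0 (s2 (s0 (s1 (sk 0) (sk 0)) (s1 (sk 0) (sk 0))) (s0 (s1 (sk 0)
    (sk 0)) (s1 (sk 0) (sk 0)))) (s2 (s1 lf (s0 (sk 0) lf)) (s1 (s0 (sk 0) (sk 0)) (s0 (sk 0)
    lf)))) (s2 (s0 (s1 (s0 (s0 (sk 0) (sk 0)) (s1 (sk 0) (sk 0))) (s0 (s2 (s1 lf (s0 (sk 0) (sk
    0))) (s1 lf (s0 (sk 0) (sk 0)))) (s1 lf lf))) (s1 (s0 lf lf) (s0 (s1 lf lf) (s1 lf lf))))
    (s0 (s1 (s0 (s0 lf (sk 0)) (s1 (sk 0) (sk 0))) (s0 (s2 (s1 lf (s0 (sk 0) lf)) (s1 lf (s0 (sk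
    0) lf))) (s1 lf lf))) (s1 (s0 lf lf) (s0 (s1 lf lf) (s1 lf lf)))))) (s1 (s2 (s0 (s1 lf lf)
    (s1 lf lf)) (s0 (s1 lf (s0 lf lf)) (s1 lf lf))) (s2 (s0 (s1 (s0 lf lf) (s0 (s1 lf lf) lf))
    (s1 (s1 lf lf) (s1 lf (s2 (s0 lf lf) (s0 lf lf))))) (s0 (s1 (s0 lf lf) (s0 (s1 lf lf) (s1 lf
    lf))) (s1 (s1 lf lf) (s2 (s0 lf lf) (s0 lf lf))))))))
    ⟨79228162514264429072911381299, 63331869759898, 79228162514264531811277880689,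
    67553994410558, 79228162514264513515404394496, 35184372088832⟩ (by decide +kernel)

theorem ZG_4 : Hd QZG 79228162514264429072911381299 63331869759898 79228162514264531811277880689
    67553994410558 79228162514264583884148572160 35184372088832 :=
  okZG (s1 (s0 (s1 (s0 (s2 (s1 (sk 0) (sk 0)) (s1 (sk 0) (sk 0))) (s2 (s1 (sk 0) (sk 0)) (s1 (sk
    0) (sk 0)))) (s0 (s2 (s0 (s1 (sk 0) (sk 0)) (s1 (sk 0) (sk 0))) (s0 (s1 (sk 0) (sk 0)) (s1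
    (sk 0) (sk 0)))) (s2 (s0 (s1 (sk 0) (sk 0)) (s1 (sk 0) (sk 0))) (s0 (s1 (sk 0) (sk 0)) (s1
    (sk 0) (sk 0)))))) (s2 (s1 (s0 (sk 0) (sk 0)) (s0 (s0 lf lf) (s1 (sk 0) lf))) (s1 (s0 (sk 0)
    (s1 (sk 0) (sk 0))) (s0 (s0 lf lf) (s1 (sk 0) lf))))) (s0 (s2 (s1 (s0 (s0 (s1 (sk 0) (s0 (sk
    0) (sk 0))) (s1 (sk 0) (sk 0))) (s1 (s0 (sk 0) (sk 0)) (s0 (sk 0) lf))) (s0 (s1 (s0 (s0 lf
    lf) (s1 (sk 0) lf)) (s0 (s2 (s1 lf (s0 (sk 0) lf)) (s1 lf (s0 lf lf))) (s1 lf lf))) (s1 (s0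
    lf lf) (s0 (s1 lf lf) (s1 lf lf))))) (s1 (s0 (s0 (s1 (sk 0) (s0 (sk 0) (sk 0))) (s1 (sk 0)
    (sk 0))) (s1 (s0 (sk 0) (sk 0)) (s0 lf lf))) (s0 (s1 (s0 (s0 lf lf) (s1 (sk 0) lf)) (s0 (s2
    (s1 lf (s0 lf lf)) (s1 lf (s0 lf lf))) (s1 lf (s2 lf (s0 lf lf))))) (s1 (s0 lf lf) (s0 (s1
    lf lf) (s1 lf lf)))))) (s2 (s1 (s0 (s1 lf (s0 lf lf)) (s1 lf lf)) (s0 (s1 (s0 lf lf) (s2 (s0
    (s1 lf lf) lf) (s0 (s1 lf lf) (s1 lf lf)))) (s1 (s1 lf lf) (s2 (s0 lf lf) (s0 lf lf))))) (s1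
    (s0 (s1 lf (s0 lf lf)) (s1 lf lf)) (s0 (s1 (s0 lf lf) (s2 (s0 (s1 lf lf) (s1 lf lf)) (s0 (s1
    lf lf) (s1 lf lf)))) (s1 (s2 (s0 lf lf) (s0 lf lf)) (s2 (s0 lf lf) (s0 (s1 lf lf) lf))))))))
    ⟨79228162514264429072911381299, 63331869759898, 79228162514264531811277880689,
    67553994410558, 79228162514264583884148572160, 35184372088832⟩ (by decide +kernel)

end H41MK
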