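import Pool.Agent.H41.MK.Claims

/-! Branch and bound data, generated. -/

set_option maxRecDepth 100000

namespace H41MK

open H41FT Tr

theorem ZG_5 : Hd QZG 79228162514264555736650901095 63331869759898 79228162514264531811277880689
    67553994410558 79228162514264513515404394496 35184372088832 :=
  okZG (s1 (s0 (s1 (s0 (s2 lf lf) (s2 lf lf)) (s2 (s0 (s1 (sk 0) lf) (s1 lf lf)) (s0 (s1 lf lf)
    (s1 lf lf)))) (s1 (s2 (s0 (s1 (sk 0) lf) (s1 lf lf)) (s0 (s1 (sk 0) lf) (s1 lf lf))) (s0 (s2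
    (s1 lf lf) (s1 lf lf)) (s2 (s1 lf lf) (s1 lf lf))))) (s0 (s2 (s1 (s0 (s1 lf lf) (s1 lf lf))
    (s0 (s1 (s1 lf lf) (s1 lf lf)) (s1 (s1 lf lf) (s1 lf (s0 lf lf))))) (s1 (s0 (s1 lf lf) (s1
    lf lf)) (s0 (s1 (s1 lf lf) (s1 lf (s2 lf lf))) (s1 (s1 lf lf) (s1 lf (s0 lf lf)))))) (s2 (s1
    (s0 (s1 lf lf) (s1 (s0 lf lf) (s0 lf lf))) (s0 (s1 (s0 lf lf) (s0 (s1 lf lf) (s1 lf lf)))
    (s1 (s0 lf (s1 lf lf)) (s0 (s1 lf lf) (s1 lf (s0 lf lf)))))) (s1 (s0 (s1 lf (s0 lf lf)) (s1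
    (s0 lf lf) (s0 lf (s1 lf lf)))) (s0 (s1 (s0 lf lf) (s0 (s1 lf lf) (s1 lf lf))) (s1 (s0 (s1
    lf lf) (s1 lf lf)) (s0 (s1 lf lf) (s2 (s1 lf (s0 lf lf)) (s1 (s0 lf lf) (s0 lf (s0 lf
    lf)))))))))))
    ⟨79228162514264555736650901095, 63331869759898, 79228162514264531811277880689,
    67553994410558, 79228162514264513515404394496, 35184372088832⟩ (by decide +kernel)

theorem ZG_6 : Hd QZG 79228162514264555736650901095 63331869759898 79228162514264498034280675410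
    33776997205279 79228162514264583884148572160 35184372088832 :=
  okZG (s0 (s1 (s2 (s0 (s1 (sk 0) (sk 0)) lf) (s0 (s1 (sk 0) (sk 0)) (s1 (sk 0) lf))) (s2 (s0
    (s1 lf lf) (s1 lf lf)) (s0 (s1 lf lf) (s1 lf lf)))) (s2 (s1 (s0 (s1 (sk 0) lf) (s1 lf lf))
    (s0 (s1 lf lf) (s1 lf lf))) (s1 (s0 (s1 (sk 0) lf) (s1 lf lf)) (s0 (s1 lf lf) (s1 lf (s0 lf
    lf))))))
    ⟨79228162514264555736650901095, 63331869759898, 79228162514264498034280675410,
    33776997205279, 79228162514264583884148572160, 35184372088832⟩ (by decide +kernel)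

theorem ZG_7 : Hd QZG 79228162514264524070716021146 31665934879949 79228162514264565588275085968
    33776997205279 79228162514264583884148572160 35184372088832 :=
  okZG (s2 (s1 (s0 (s1 lf lf) (s1 lf lf)) (s0 (s1 (s1 lf lf) (s2 (s1 lf lf) (s1 lf (s0 lf lf))))
    (s1 (s1 lf lf) (s2 (s0 lf lf) (s0 lf lf))))) (s1 (s0 (s1 lf lf) (s1 lf lf)) (s0 (s1 (s1 lf
    lf) (s2 (s1 lf (s0 lf lf)) (s0 lf lf))) (s1 (s1 lf lf) (s2 (s0 lf lf) (s0 lf (s1 lf
    lf)))))))
    ⟨79228162514264524070716021146, 31665934879949, 79228162514264565588275085968,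
    33776997205279, 79228162514264583884148572160, 35184372088832⟩ (by decide +kernel)

theorem ZG_8 : Hd QZG 79228162514264587402585781044 31665934879949 79228162514264565588275085968
    33776997205279 79228162514264583884148572160 35184372088832 :=
  okZG (s2 (s1 (s0 (s1 lf (s0 lf lf)) (s1 (s0 lf lf) (s0 lf (s1 lf lf)))) (s0 (s1 (s0 lf lf) (s0
    (s1 lf lf) (s1 lf lf))) (s1 (s0 (s1 lf lf) (s0 (s1 lf lf) (s1 lf lf))) (s0 (s1 lf lf) (s2
    (s0 (s1 lf lf) (s1 lf (s0 lf lf))) (s0 (s1 lf lf) (s1 lf (s0 lf (s1 lf lf))))))))) (s1 (s0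
    (s1 lf (s0 lf lf)) (s1 (s0 lf (s0 lf lf)) (s0 lf (s0 lf (s1 lf lf))))) (s0 (s1 (s0 lf lf)
    (s0 (s1 lf lf) (s1 lf lf))) (s1 (s0 (s1 lf lf) (s0 (s1 lf lf) (s2 (s1 lf lf) (s1 lf lf))))
    (s0 (s1 lf lf) (s2 (s0 (s1 lf lf) (s1 (s0 lf lf) (s0 lf (s1 lf lf)))) (s0 (s1 lf lf) (s1 (s0
    lf (s0 lf lf)) (s0 lf (s0 lf (s1 lf lf)))))))))))
    ⟨79228162514264587402585781044, 31665934879949, 79228162514264565588275085968,
    33776997205279, 79228162514264583884148572160, 35184372088832⟩ (by decide +kernel)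

theorem ZH_0 : Hd QZH 79228162514264351667292785869 14073748835533 79228162514264609216896476119
    9851624184873 79228162514264372777916039168 35184372088832 :=
  okZH (s2 (s0 (s0 (s1 lf lf) lf) lf) (s0 (s0 (s1 lf lf) lf) lf))
    ⟨79228162514264351667292785869, 14073748835533, 79228162514264609216896476119,
    9851624184873, 79228162514264372777916039168, 35184372088832⟩ (by decide +kernel)

theorem ZH_1 : Hd QZH 79228162514264351667292785869 14073748835533 79228162514264609216896476119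
    9851624184873 79228162514264443146660216832 35184372088832 :=
  okZH (s2 (s0 (s0 (s1 lf lf) lf) lf) (s0 (s0 (s1 lf lf) lf) (s2 lf lf)))
    ⟨79228162514264351667292785869, 14073748835533, 79228162514264609216896476119,
    9851624184873, 79228162514264443146660216832, 35184372088832⟩ (by decide +kernel)

end H41MK
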