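import Pool.Agent.H41.MK.Claims

/-! Branch and bound data, generated. -/

set_option maxRecDepth 100000

namespace H41MK

open H41FT Tr

theorem ZH_2 : Hd QZH 79228162514264351667292785869 14073748835533 79228162514264609216896476119
    9851624184873 79228162514264495923218350080 17592186044416 :=
  okZH (s0 (s1 lf (s0 lf lf)) (s2 lf (s1 lf lf)))
    ⟨79228162514264351667292785869, 14073748835533, 79228162514264609216896476119,
    9851624184873, 79228162514264495923218350080, 17592186044416⟩ (by decide +kernel)

theorem ZH_3 : Hd QZH 79228162514264351667292785869 14073748835533 79228162514264609216896476119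
    9851624184873 79228162514264531107590438912 17592186044416 :=
  okZH (s0 (s1 lf (s0 lf lf)) (s2 (s1 lf lf) (s1 lf lf)))
    ⟨79228162514264351667292785869, 14073748835533, 79228162514264609216896476119,
    9851624184873, 79228162514264531107590438912, 17592186044416⟩ (by decide +kernel)

theorem ZH_4 : Hd QZH 79228162514264351667292785869 14073748835533 79228162514264609216896476119
    9851624184873 79228162514264566291962527744 17592186044416 :=
  okZH (s0 (s1 lf (s0 lf lf)) (s2 (s1 lf lf) (s1 lf lf)))
    ⟨79228162514264351667292785869, 14073748835533, 79228162514264609216896476119,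
    9851624184873, 79228162514264566291962527744, 17592186044416⟩ (by decide +kernel)

theorem ZH_5 : Hd QZH 79228162514264351667292785869 14073748835533 79228162514264609216896476119
    9851624184873 79228162514264601476334616576 17592186044416 :=
  okZH (s0 (s1 lf (s0 lf lf)) (s1 lf lf))
    ⟨79228162514264351667292785869, 14073748835533, 79228162514264609216896476119,
    9851624184873, 79228162514264601476334616576, 17592186044416⟩ (by decide +kernel)

theorem ZJ_0 : Hd QZJ 79228162514264346037793251656 8444249301320 79228162514264604994771825459
    14073748835533 79228162514264337593543950336 0 :=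
  okZJ (s1 lf (s1 lf (s1 lf lf)))
    ⟨79228162514264346037793251656, 8444249301320, 79228162514264604994771825459,
    14073748835533, 79228162514264337593543950336, 0⟩ (by decide +kernel)

theorem ZI_0 : Hd QZI 79228162514264393571879943666 27830838322267 79228162514264609216896476119
    9851624184873 79228162514264372777916039168 35184372088832 :=
  okZI (s2 (s0 (s0 (s2 (s0 lf lf) (s0 lf lf)) (s2 lf (s0 lf lf))) (s0 lf lf)) (s0 (s0 (s2 (s0
    (s1 lf lf) lf) (s0 (s1 lf lf) lf)) (s2 (s1 lf lf) (s1 lf lf))) (s0 lf lf)))
    ⟨79228162514264393571879943666, 27830838322267, 79228162514264609216896476119,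
    9851624184873, 79228162514264372777916039168, 35184372088832⟩ (by decide +kernel)

theorem ZI_1 : Hd QZI 79228162514264449233556588200 27830838322267 79228162514264609216896476119
    9851624184873 79228162514264372777916039168 35184372088832 :=
  okZI (s2 (s0 (s0 lf lf) (s2 (s0 lf lf) (s0 lf lf))) (s0 (s2 (s0 lf lf) (s0 lf lf)) (s2 (s0 lf
    lf) (s0 lf lf))))
    ⟨79228162514264449233556588200, 27830838322267, 79228162514264609216896476119,
    9851624184873, 79228162514264372777916039168, 35184372088832⟩ (by decide +kernel)

end H41MK
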