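import Pool.Agent.H41.MK.Claims

/-! Branch and bound data, generated. -/

set_option maxRecDepth 100000

namespace H41MK

open H41FT Tr

theorem ZI_2 : Hd QZI 79228162514264393571879943666 27830838322267 79228162514264609216896476119
    9851624184873 79228162514264443146660216832 35184372088832 :=
  okZI (s2 (s0 (s0 (s2 (s1 lf lf) (s1 lf lf)) (s2 (s1 lf lf) (s1 lf lf))) (s0 lf lf)) (s0 (s0
    (s2 (s1 lf lf) (s1 lf lf)) (s2 (s1 lf lf) (s1 lf lf))) (s0 (s2 lf lf) lf)))
    ⟨79228162514264393571879943666, 27830838322267, 79228162514264609216896476119,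
    9851624184873, 79228162514264443146660216832, 35184372088832⟩ (by decide +kernel)

theorem ZI_3 : Hd QZI 79228162514264449233556588200 27830838322267 79228162514264609216896476119
    9851624184873 79228162514264443146660216832 35184372088832 :=
  okZI (s2 (s0 (s2 (s0 lf lf) (s0 lf lf)) (s2 (s0 lf lf) (s0 lf lf))) (s0 (s2 (s0 lf lf) (s0 lf
    lf)) (s2 (s0 lf lf) (s0 lf lf))))
    ⟨79228162514264449233556588200, 27830838322267, 79228162514264609216896476119,
    9851624184873, 79228162514264443146660216832, 35184372088832⟩ (by decide +kernel)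

theorem ZI_4 : Hd QZI 79228162514264532726071554999 55661676644533 79228162514264609216896476119
    9851624184873 79228162514264372777916039168 35184372088832 :=
  okZI (s0 (s2 (s0 (s2 lf (s0 lf lf)) (s2 (s0 lf lf) (s0 lf lf))) (s0 (s2 (s0 lf lf) (s0 lf lf))
    (s2 (s0 lf lf) (s0 lf lf)))) (s2 (s0 (s2 (s0 lf lf) (s0 lf lf)) (s0 lf (s1 lf lf))) (s0 (s2
    (s0 lf lf) (s0 lf lf)) (s0 lf (s1 lf lf)))))
    ⟨79228162514264532726071554999, 55661676644533, 79228162514264609216896476119,
    9851624184873, 79228162514264372777916039168, 35184372088832⟩ (by decide +kernel)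

theorem ZI_5 : Hd QZI 79228162514264532726071554999 55661676644533 79228162514264609216896476119
    9851624184873 79228162514264443146660216832 35184372088832 :=
  okZI (s0 (s2 (s0 (s2 (s0 lf lf) (s0 lf lf)) (s2 (s0 lf lf) (s0 lf lf))) (s0 (s2 (s0 lf lf) (s0
    lf lf)) (s2 (s0 lf lf) (s0 lf lf)))) (s2 (s0 (s2 (s0 lf lf) (s0 lf lf)) (s0 lf (s1 lf lf)))
    (s0 (s2 (s0 lf lf) (s0 lf lf)) (s0 lf (s1 lf lf)))))
    ⟨79228162514264532726071554999, 55661676644533, 79228162514264609216896476119,
    9851624184873, 79228162514264443146660216832, 35184372088832⟩ (by decide +kernel)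

theorem ZI_6 : Hd QZI 79228162514264393571879943666 27830838322267 79228162514264609216896476119
    9851624184873 79228162514264513515404394496 35184372088832 :=
  okZI (s2 (s0 (s0 (s2 (s1 lf lf) (s1 lf lf)) (s2 (s1 lf lf) (s1 lf lf))) (s0 (s2 (s1 lf lf) (s1
    lf lf)) lf)) (s0 (s0 (s2 (s1 lf lf) (s1 lf lf)) (s2 (s1 lf lf) (s1 lf lf))) (s2 (s0 (s1 lf
    lf) lf) (s0 (s1 lf lf) lf))))
    ⟨79228162514264393571879943666, 27830838322267, 79228162514264609216896476119,
    9851624184873, 79228162514264513515404394496, 35184372088832⟩ (by decide +kernel)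

end H41MK
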