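import Pool.Agent.H41.MK.Claims

/-! Branch and bound data, generated. -/

set_option maxRecDepth 100000

namespace H41MK

open H41FT Tr

theorem ZI_7 : Hd QZI 79228162514264449233556588200 27830838322267 79228162514264609216896476119
    9851624184873 79228162514264513515404394496 35184372088832 :=
  okZI (s2 (s0 (s2 (s0 lf lf) (s0 lf lf)) (s2 (s0 lf lf) (s0 lf lf))) (s0 (s2 (s0 lf lf) (s0 lf
    lf)) (s2 (s0 lf lf) (s0 lf lf))))
    ⟨79228162514264449233556588200, 27830838322267, 79228162514264609216896476119,
    9851624184873, 79228162514264513515404394496, 35184372088832⟩ (by decide +kernel)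

theorem ZI_8 : Hd QZI 79228162514264393571879943666 27830838322267 79228162514264609216896476119
    9851624184873 79228162514264566291962527744 17592186044416 :=
  okZI (s0 (s0 (s2 (s1 lf lf) (s1 lf lf)) (s2 (s1 lf lf) (s1 lf lf))) (s2 (s0 (s1 lf lf) (s1 lf
    lf)) (s0 (s1 lf lf) (s1 lf lf))))
    ⟨79228162514264393571879943666, 27830838322267, 79228162514264609216896476119,
    9851624184873, 79228162514264566291962527744, 17592186044416⟩ (by decide +kernel)

theorem ZI_9 : Hd QZI 79228162514264393571879943666 27830838322267 79228162514264609216896476119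
    9851624184873 79228162514264601476334616576 17592186044416 :=
  okZI (s0 (s0 (s2 (s1 lf (s0 lf lf)) (s1 lf (s0 lf lf))) (s2 (s1 lf lf) (s1 lf lf))) (s2 (s0
    (s1 lf lf) (s1 lf lf)) (s0 (s1 lf lf) (s1 lf lf))))
    ⟨79228162514264393571879943666, 27830838322267, 79228162514264609216896476119,
    9851624184873, 79228162514264601476334616576, 17592186044416⟩ (by decide +kernel)

theorem ZI_10 : Hd QZI 79228162514264449233556588200 27830838322267
    79228162514264609216896476119 9851624184873 79228162514264583884148572160 35184372088832 :=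
  okZI (s2 (s0 (s2 (s0 lf lf) (s0 lf lf)) (s2 (s0 lf lf) (s0 lf lf))) (s0 (s2 (s0 (s1 lf lf) lf)
    (s0 (s1 lf lf) (s1 lf lf))) (s2 (s0 lf lf) (s0 lf lf))))
    ⟨79228162514264449233556588200, 27830838322267, 79228162514264609216896476119,
    9851624184873, 79228162514264583884148572160, 35184372088832⟩ (by decide +kernel)

theorem ZI_11 : Hd QZI 79228162514264504895233232732 27830838322267
    79228162514264609216896476119 9851624184873 79228162514264513515404394496 35184372088832 :=
  okZI (s2 (s0 (s2 (s0 lf lf) (s0 lf lf)) (s2 (s0 lf lf) (s0 lf lf))) (s0 (s2 (s0 lf lf) (s0 lf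
    lf)) (s2 (s0 lf lf) (s0 lf lf))))
    ⟨79228162514264504895233232732, 27830838322267, 79228162514264609216896476119,
    9851624184873, 79228162514264513515404394496, 35184372088832⟩ (by decide +kernel)

theorem ZI_12 : Hd QZI 79228162514264560556909877266 27830838322267
    79228162514264609216896476119 9851624184873 79228162514264513515404394496 35184372088832 :=
  okZI (s2 (s0 (s2 (s0 lf lf) (s0 lf lf)) (s2 (s0 lf (s1 lf lf)) (s0 lf (s1 lf lf)))) (s0 (s2
    (s0 lf lf) (s0 lf lf)) (s2 (s0 lf (s1 lf lf)) (s0 lf (s1 lf lf)))))
    ⟨79228162514264560556909877266, 27830838322267, 79228162514264609216896476119,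
    9851624184873, 79228162514264513515404394496, 35184372088832⟩ (by decide +kernel)

theorem ZI_13 : Hd QZI 79228162514264504895233232732 27830838322267
    79228162514264609216896476119 9851624184873 79228162514264583884148572160 35184372088832 :=
  okZI (s2 (s0 (s2 (s0 lf lf) (s0 lf lf)) (s2 (s0 lf lf) (s0 lf lf))) (s0 (s2 (s0 lf lf) (s0 lf
    lf)) (s2 (s0 lf lf) (s0 lf lf))))
    ⟨79228162514264504895233232732, 27830838322267, 79228162514264609216896476119,
    9851624184873, 79228162514264583884148572160, 35184372088832⟩ (by decide +kernel)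

end H41MK
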