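import Pool.Agent.H41.MK.Claims

/-! Branch and bound data, generated. -/

set_option maxRecDepth 100000

namespace H41MK

open H41FT Tr

theorem ZI_14 : Hd QZI 79228162514264560556909877266 27830838322267
    79228162514264609216896476119 9851624184873 79228162514264583884148572160 35184372088832 :=
  okZI (s2 (s0 (s2 (s0 lf lf) (s0 lf lf)) (s2 (s0 lf (s1 lf lf)) (s0 (s1 lf lf) (s1 lf lf))))
    (s0 (s2 (s0 lf lf) (s0 lf lf)) (s2 (s0 (s1 lf lf) (s1 lf lf)) (s0 (s1 lf lf) (s1 lf lf)))))
    ⟨79228162514264560556909877266, 27830838322267, 79228162514264609216896476119,
    9851624184873, 79228162514264583884148572160, 35184372088832⟩ (by decide +kernel)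

theorem OA_0 : Hd QOA 79228162514264354482042552975 16888498602640 79228162514264354482042552975
    16888498602640 79228162514264372777916039168 35184372088832 :=
  okOA (s2 (s1 lf (s0 lf lf)) (s1 lf (s0 lf lf)))
    ⟨79228162514264354482042552975, 16888498602640, 79228162514264354482042552975,
    16888498602640, 79228162514264372777916039168, 35184372088832⟩ (by decide +kernel)

theorem OA_1 : Hd QOA 79228162514264354482042552975 16888498602640 79228162514264354482042552975
    16888498602640 79228162514264443146660216832 35184372088832 :=
  okOA (s2 (s1 (s0 lf lf) (s0 lf lf)) (s0 (s1 lf lf) (s1 lf lf)))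
    ⟨79228162514264354482042552975, 16888498602640, 79228162514264354482042552975,
    16888498602640, 79228162514264443146660216832, 35184372088832⟩ (by decide +kernel)

theorem OA_2 : Hd QOA 79228162514264354482042552975 16888498602640 79228162514264354482042552975
    16888498602640 79228162514264495923218350080 17592186044416 :=
  okOA (s0 (s2 (s1 lf lf) (s1 lf lf)) (s2 (s1 lf lf) (s1 lf lf)))
    ⟨79228162514264354482042552975, 16888498602640, 79228162514264354482042552975,
    16888498602640, 79228162514264495923218350080, 17592186044416⟩ (by decide +kernel)

theorem OA_3 : Hd QOA 79228162514264354482042552975 16888498602640 79228162514264354482042552975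
    16888498602640 79228162514264531107590438912 17592186044416 :=
  okOA (s0 (s2 (s1 lf lf) (s1 lf lf)) (s1 lf lf))
    ⟨79228162514264354482042552975, 16888498602640, 79228162514264354482042552975,
    16888498602640, 79228162514264531107590438912, 17592186044416⟩ (by decide +kernel)

end H41MK
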