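import Pool.Agent.H41.MK.Claims

/-! Branch and bound data, generated. -/

set_option maxRecDepth 100000

namespace H41MK

open H41FT Tr

theorem OB_4 : Hd QOB 79228162514264354482042552975 16888498602640 79228162514264354482042552975
    16888498602640 79228162514264531107590438912 17592186044416 :=
  okOB (s1 (s2 (s0 lf lf) (s0 (s1 lf lf) (s1 lf lf))) (s2 (s0 lf lf) (s0 lf lf)))
    ⟨79228162514264354482042552975, 16888498602640, 79228162514264354482042552975,
    16888498602640, 79228162514264531107590438912, 17592186044416⟩ (by decide +kernel)

theorem OB_5 : Hd QOB 79228162514264354482042552975 16888498602640 79228162514264346037793251655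
    8444249301320 79228162514264566291962527744 17592186044416 :=
  okOB (s2 (s0 (s1 lf lf) (s1 lf lf)) (s0 (s1 lf lf) (s1 lf lf)))
    ⟨79228162514264354482042552975, 16888498602640, 79228162514264346037793251655,
    8444249301320, 79228162514264566291962527744, 17592186044416⟩ (by decide +kernel)

theorem OB_6 : Hd QOB 79228162514264354482042552975 16888498602640 79228162514264362926291854295
    8444249301320 79228162514264566291962527744 17592186044416 :=
  okOB (s2 (s0 lf lf) (s0 lf lf))
    ⟨79228162514264354482042552975, 16888498602640, 79228162514264362926291854295,
    8444249301320, 79228162514264566291962527744, 17592186044416⟩ (by decide +kernel)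

theorem OB_7 : Hd QOB 79228162514264354482042552975 16888498602640 79228162514264346037793251655
    8444249301320 79228162514264592680241594368 8796093022208 :=
  okOB (s0 (s1 lf lf) (s1 lf lf))
    ⟨79228162514264354482042552975, 16888498602640, 79228162514264346037793251655,
    8444249301320, 79228162514264592680241594368, 8796093022208⟩ (by decide +kernel)

theorem OB_8 : Hd QOB 79228162514264354482042552975 16888498602640 79228162514264346037793251655
    8444249301320 79228162514264610272427638784 8796093022208 :=
  okOB (s0 (s1 (s2 (s0 lf lf) (s0 lf lf)) (s0 lf lf)) (s1 (s2 lf (s0 lf lf)) lf))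
    ⟨79228162514264354482042552975, 16888498602640, 79228162514264346037793251655,
    8444249301320, 79228162514264610272427638784, 8796093022208⟩ (by decide +kernel)

theorem OB_9 : Hd QOB 79228162514264354482042552975 16888498602640 79228162514264362926291854295
    8444249301320 79228162514264601476334616576 17592186044416 :=
  okOB (s0 (s2 (s1 lf lf) (s1 lf lf)) (s2 lf (s1 lf (sk 0))))
    ⟨79228162514264354482042552975, 16888498602640, 79228162514264362926291854295,
    8444249301320, 79228162514264601476334616576, 17592186044416⟩ (by decide +kernel)

end H41MK
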